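import Pool.Agent.Work.MP_e5ffe1_all.Interface1

/-! Block BFS (helper57). -/

set_option autoImplicit false

namespace Pool.E5

theorem p_BFS (hSEQ : S_SEQ) : S_BFS := by
  intro R _ _ ρ h3
  have hadd : ∀ (ρ : ℕ → R) (i j k : ℕ), Sat R (fadd i j k) ρ ↔ ρ i + ρ j = ρ k :=
    fun ρ => (hSEQ R ρ).2.2.1
  have hmul : ∀ (ρ : ℕ → R) (i j k : ℕ), Sat R (fmul i j k) ρ ↔ ρ i * ρ j = ρ k :=
    fun ρ => (hSEQ R ρ).2.2.2.1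
  have hand : ∀ (ρ : ℕ → R) (φ ψ : ℕ), Sat R (fand φ ψ) ρ ↔ Sat R φ ρ ∧ Sat R ψ ρ :=
    fun ρ => (hSEQ R ρ).2.2.2.2.2.1
  have hex : ∀ (ρ : ℕ → R) (φ : ℕ), Sat R (fex φ) ρ ↔ ∃ a : R, Sat R φ (cns a ρ) :=
    fun ρ => (hSEQ R ρ).2.2.2.2.2.2
  unfold Bf
  rw [hex]
  simp only [hex, hand, hadd, hmul, cns]
  constructor
  · rintro ⟨a1, a2, a3, a4, e1, e2, e3, e4⟩
    refine ⟨a4, ?_⟩
    rw [← e4, ← e3, ← e2, ← e1, h3]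
    ring
  · rintro ⟨a, ha⟩
    refine ⟨ρ 1 + ρ 3, (ρ 1 + ρ 3) * ρ 2, (ρ 1 + ρ 3) * ρ 2 + ρ 3, a, rfl, rfl, rfl, ?_⟩
    rw [ha, h3]
    ring

end Pool.E5
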