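import Pool.Agent.Work.MP_e5ffe1_all.Interface1

/-! Block COP (helper9): coprime moduli. -/

set_option autoImplicit false

namespace Pool.E5

theorem COP_dvd (N i j : ℕ) (hi : i < N) (hj : j < N) (hij : i ≠ j) :
    ((i : ℤ) - j) ∣ ((Nat.factorial N : ℕ) : ℤ) := by
  rcases lt_or_gt_of_ne hij with h | h
  · have h1 : (j - i) ∣ Nat.factorial N := Nat.dvd_factorial (by omega) (by omega)
    have h2 : (((j - i : ℕ) : ℤ)) ∣ ((Nat.factorial N : ℕ) : ℤ) := Int.natCast_dvd_natCast.2 h1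
    rw [Nat.cast_sub h.le] at h2
    rw [← neg_sub, neg_dvd]
    exact h2
  · have h1 : (i - j) ∣ Nat.factorial N := Nat.dvd_factorial (by omega) (by omega)
    have h2 : (((i - j : ℕ) : ℤ)) ∣ ((Nat.factorial N : ℕ) : ℤ) := Int.natCast_dvd_natCast.2 h1
    rwa [Nat.cast_sub h.le] at h2

theorem COP_cop (b : ℤ) (j : ℕ) : IsCoprime (1 + ((j : ℤ) + 1) * b) b :=
  ⟨1, -((j : ℤ) + 1), by ring⟩

theorem COP_cop2 (b : ℤ) (i j : ℕ) (h : ((i : ℤ) - j) ∣ b) :
    IsCoprime (1 + ((j : ℤ) + 1) * b) (1 + ((i : ℤ) + 1) * b) := by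
  have h1 := COP_cop b j
  have h2 : IsCoprime (1 + ((j : ℤ) + 1) * b) ((i : ℤ) - j) :=
    IsCoprime.of_isCoprime_of_dvd_right h1 h
  have h3 := h2.mul_right h1
  have h4 := IsCoprime.add_mul_left_right h3 1
  have e : ((i : ℤ) - j) * b + (1 + ((j : ℤ) + 1) * b) * 1 = 1 + ((i : ℤ) + 1) * b := by ring
  rwa [e] at h4

theorem p_COP : S_COP := by
  classical
  intro N
  have hpos : 0 < Nat.factorial N := Nat.factorial_pos N
  refine ⟨((Nat.factorial N : ℕ) : ℤ), ?_, by exact_mod_cast hpos, ?_⟩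
  · exact_mod_cast Nat.self_le_factorial N
  intro A j hj hA
  constructor
  · intro h
    by_contra hn
    have h1 : IsCoprime (1 + ((j : ℤ) + 1) * ((Nat.factorial N : ℕ) : ℤ))
        (((Nat.factorial N : ℕ) : ℤ) *
          ∏ i ∈ A, (1 + ((i : ℤ) + 1) * ((Nat.factorial N : ℕ) : ℤ))) := by
      apply IsCoprime.mul_right (COP_cop _ j)
      apply IsCoprime.prod_right
      intro i hi
      apply COP_cop2
      exact COP_dvd N i j (hA i hi) hj (fun e => hn (e ▸ hi))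
    have h2 := h1.isUnit_of_dvd' dvd_rfl h
    have h3 := Int.isUnit_iff.1 h2
    have hp : (0 : ℤ) < ((Nat.factorial N : ℕ) : ℤ) := by exact_mod_cast hpos
    have hq : (0 : ℤ) < ((j : ℤ) + 1) * ((Nat.factorial N : ℕ) : ℤ) := by positivity
    omega
  · intro h
    apply Dvd.dvd.mul_left
    exact Finset.dvd_prod_of_mem (fun i : ℕ => 1 + ((i : ℤ) + 1) * ((Nat.factorial N : ℕ) : ℤ)) h

end Pool.E5
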