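import Pool.Agent.Work.MP_e5ffe1_all.Interface2

set_option autoImplicit false

namespace Pool.E5

open Filter

theorem DC0_idx_succ (x : ℕ → Bool) (n : ℕ) : idx x (n + 1) = 2 * idx x n + (x n).toNat := rfl

theorem DC0_idx_bd (x : ℕ → Bool) (n : ℕ) : 2 ^ n ≤ idx x n ∧ idx x n < 2 ^ (n + 1) := by
  induction n with
  | zero =>
    have h : idx x 0 = 1 := rfl
    rw [h]
    norm_num
  | succ n ih =>
    rw [DC0_idx_succ]
    obtain ⟨h1, h2⟩ := ih
    have h3 : (x n).toNat ≤ 1 := Bool.toNat_le _
    have h4 : 2 ^ (n + 1) = 2 * 2 ^ n := by rw [pow_succ]; ring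
    have h5 : 2 ^ (n + 1 + 1) = 2 * 2 ^ (n + 1) := by rw [pow_succ]; ring
    constructor <;> omega

theorem DC0_bit (s : ℕ) (b : Bool) : ∃ r : ℕ, Nat.testBit r s = b := by
  cases b with
  | false => exact ⟨0, Nat.zero_testBit s⟩
  | true => exact ⟨2 ^ s, Nat.testBit_two_pow_self⟩

theorem p_DC0 (hEXQ : S_EXQ) : S_DC0 := by
  obtain ⟨e1, -, -, -, -, e6, e7, e8, e9, e10, e11, -, -, -, -, e16, e17, e18, e19, e20, e21, -, -, -,
    -, e26, e27, e28, e29, e30⟩ := hEXQ
  intro v hv x j n hn
  have hsz : ∀ s, sz (benv (clab s) (num j)) = 3 * j + 18 := by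
    intro s
    unfold benv
    rw [e6, e6, e6, e6, e1, e10, e7, e9, e8]
    unfold cpar
    omega
  have step : ∀ m, Bf + 3 * j + 18 ≤ m →
      v (Nat.pair Bf (benv (clab (idx x m)) (num j))) =
        v (Nat.pair Bf (benv (clab (idx x (m + 1))) (num j))) := by
    intro m hm
    obtain ⟨r, hr⟩ := DC0_bit (idx x m) (x m)
    have hl : lvb m (benv (clab (idx x m)) (num j)) = true := by
      unfold benv
      rw [e16, e16, e16, e16, (e11 m (idx x m)).2 (DC0_idx_bd x m), e20, e17, e19, e18]
      rfl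
    have h := hv (m + 1) m (Nat.lt_succ_self m) Bf (benv (clab (idx x m)) (num j)) r hl
      (by rw [hsz]; omega)
    rw [h]
    have hx : ext r (benv (clab (idx x m)) (num j)) = benv (clab (idx x (m + 1))) (num j) := by
      unfold benv
      rw [e26, e26, e26, e26, e21, e30, e27, e29, e28, DC0_idx_succ]
      unfold chd
      rw [hr]
    rw [hx]
  have const : ∀ d, v (Nat.pair Bf (benv (clab (idx x (n + d))) (num j))) =
      v (Nat.pair Bf (benv (clab (idx x n)) (num j))) := by
    intro d
    induction d with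
    | zero => rfl
    | succ d ih =>
      rw [← ih]
      exact (step (n + d) (by omega)).symm
  have const' : ∀ m, n ≤ m → v (Nat.pair Bf (benv (clab (idx x m)) (num j))) =
      v (Nat.pair Bf (benv (clab (idx x n)) (num j))) := by
    intro m hm
    obtain ⟨d, rfl⟩ := Nat.exists_eq_add_of_le hm
    exact const d
  constructor
  · intro h
    have h' : ∀ᶠ m in atTop, v (Nat.pair Bf (benv (clab (idx x m)) (num j))) = true := h
    obtain ⟨m, hm1, hm2⟩ := (h'.and (eventually_ge_atTop n)).exists
    rw [← const' m hm2]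
    exact hm1
  · intro h
    show ∀ᶠ m in atTop, v (Nat.pair Bf (benv (clab (idx x m)) (num j))) = true
    filter_upwards [eventually_ge_atTop n] with m hm
    rw [const' m hm]
    exact h

end Pool.E5
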