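import Pool.Agent.Work.MP_e5ffe1_all.Interface2
import Pool.Agent.Work.MP_e5ffe1_lc_helper93.Comp

/-! Block DC1 of MP_e5ffe1_lc, Theorem E: the branch is computable from its trace. helper37 -/

set_option autoImplicit false

namespace Pool.E5

open Pool.Agent.Work.MP_e5ffe1_h93 (TR orc ch orc_self ch_of_mem ch_of_notMem)

/-! ### computability -/

theorem DC1_ccons {α : Type} [Primcodable α] {f g : α → ℕ} (hf : Primrec f) (hg : Primrec g) :
    Primrec (fun x => ccons (f x) (g x)) :=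
  Primrec.nat_add.comp (Primrec.nat_mul.comp (Primrec.const 9) (Primrec₂.natPair.comp hf hg))
    (Primrec.const 7)

theorem DC1_benv {α : Type} [Primcodable α] {f g : α → ℕ} (hf : Primrec f) (hg : Primrec g) :
    Primrec (fun x => benv (f x) (g x)) :=
  DC1_ccons hf (DC1_ccons hg (Primrec.const _))

theorem DC1_clab {α : Type} [Primcodable α] {f : α → ℕ} (hf : Primrec f) :
    Primrec (fun x => clab (f x)) :=
  Primrec.nat_add.comp (Primrec.nat_mul.comp (Primrec.const 9) hf) (Primrec.const 2)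

/-- the query -/
def DC1_q (s j : ℕ) : ℕ := Nat.pair Bf (benv (clab s) (num j))

theorem DC1_q_primrec (hPGT : S_PGT) {α : Type} [Primcodable α] {f g : α → ℕ} (hf : Primrec f)
    (hg : Primrec g) : Primrec (fun x => DC1_q (f x) (g x)) :=
  Primrec₂.natPair.comp (Primrec.const Bf) (DC1_benv (DC1_clab hf) (hPGT.2.comp hg))

/-- least witness -/
theorem DC1_least {O : Set (ℕ →. ℕ)} {f : ℕ → ℕ} (hf : TR O f) (q : ℕ → ℕ)
    (hq : ∀ a, f (Nat.pair a (q a)) = 0) (hq' : ∀ a n, n < q a → f (Nat.pair a n) ≠ 0) : TR O q := by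
  refine (Nat.RecursiveIn.rfind hf).of_eq (fun a => ?_)
  rw [Part.eq_some_iff]
  refine Nat.mem_rfind.2 ⟨?_, ?_⟩
  · simp [hq]
  · intro m hm
    simp [hq' a m hm]

theorem DC1_add {O : Set (ℕ →. ℕ)} {f g : ℕ → ℕ} (hf : TR O f) (hg : TR O g) :
    TR O (fun n => f n + g n) := by
  have hadd : TR O (fun p => (Nat.unpair p).1 + (Nat.unpair p).2) := TR.of_primrec Nat.Primrec.add
  refine (hadd.comp (hf.pair hg)).of_eq (fun n => ?_)
  simp

theorem DC1_prim {O : Set (ℕ →. ℕ)} {f g : ℕ → ℕ} (hf : Primrec f) (hg : TR O g) :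
    TR O (fun n => f (g n)) := (TR.of_primrec (Primrec.nat_iff.1 hf)).comp hg

/-! ### the clause -/

/-- the values at `2 s D + i` and at `(2 s + 1) D + i'` -/
def DC1_g2 (v : ℕ → Bool) (z : ℕ) : Bool :=
  !(v (DC1_q (2 * (Nat.unpair (Nat.unpair (Nat.unpair (Nat.unpair z).2).2).2).2 *
      DD (Nat.unpair (Nat.unpair (Nat.unpair (Nat.unpair z).2).2).2).1 +
        (Nat.unpair (Nat.unpair z).2).1) (Nat.unpair (Nat.unpair (Nat.unpair z).2).2).1) ==
    v (DC1_q ((2 * (Nat.unpair (Nat.unpair (Nat.unpair (Nat.unpair z).2).2).2).2 + 1) *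
      DD (Nat.unpair (Nat.unpair (Nat.unpair (Nat.unpair z).2).2).2).1 + (Nat.unpair z).1)
        (Nat.unpair (Nat.unpair (Nat.unpair z).2).2).1))

theorem DC1_g2_eq (v : ℕ → Bool) (i i' j m s : ℕ) :
    DC1_g2 v (Nat.pair i' (Nat.pair i (Nat.pair j (Nat.pair m s)))) = true ↔
      v (DC1_q (2 * s * DD m + i) j) ≠ v (DC1_q ((2 * s + 1) * DD m + i') j) := by
  unfold DC1_g2
  simp only [Nat.unpair_pair]
  simp

theorem DC1_g2_UC (hUCC : S_UCC) (hPGR : S_PGR) (hPGT : S_PGT) : UC DC1_g2 := by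
  have hl : Primrec (fun n : ℕ => (Nat.unpair n).1) := Primrec.fst.comp Primrec.unpair
  have hr : Primrec (fun n : ℕ => (Nat.unpair n).2) := Primrec.snd.comp Primrec.unpair
  have hz2 : Primrec (fun z : ℕ => (Nat.unpair (Nat.unpair z).2).2) := hr.comp hr
  have hj : Primrec (fun z : ℕ => (Nat.unpair (Nat.unpair (Nat.unpair z).2).2).1) := hl.comp hz2
  have hms : Primrec (fun z : ℕ => (Nat.unpair (Nat.unpair (Nat.unpair z).2).2).2) := hr.comp hz2
  have hm : Primrec (fun z : ℕ => (Nat.unpair (Nat.unpair (Nat.unpair (Nat.unpair z).2).2).2).1) :=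
    hl.comp hms
  have hs : Primrec (fun z : ℕ => (Nat.unpair (Nat.unpair (Nat.unpair (Nat.unpair z).2).2).2).2) :=
    hr.comp hms
  have hi : Primrec (fun z : ℕ => (Nat.unpair (Nat.unpair z).2).1) := hl.comp hr
  have hD : Primrec (fun z : ℕ => DD (Nat.unpair (Nat.unpair (Nat.unpair (Nat.unpair z).2).2).2).1) :=
    hPGR.2.2.comp hm
  have h2s : Primrec (fun z : ℕ => 2 * (Nat.unpair (Nat.unpair (Nat.unpair (Nat.unpair z).2).2).2).2) :=
    Primrec.nat_mul.comp (Primrec.const 2) hs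
  have hA : Primrec (fun z : ℕ => 2 * (Nat.unpair (Nat.unpair (Nat.unpair (Nat.unpair z).2).2).2).2 *
      DD (Nat.unpair (Nat.unpair (Nat.unpair (Nat.unpair z).2).2).2).1 +
        (Nat.unpair (Nat.unpair z).2).1) :=
    Primrec.nat_add.comp (Primrec.nat_mul.comp h2s hD) hi
  have hB : Primrec (fun z : ℕ => (2 * (Nat.unpair (Nat.unpair (Nat.unpair (Nat.unpair z).2).2).2).2 + 1) *
      DD (Nat.unpair (Nat.unpair (Nat.unpair (Nat.unpair z).2).2).2).1 + (Nat.unpair z).1) :=
    Primrec.nat_add.comp (Primrec.nat_mul.comp (Primrec.succ.comp h2s) hD) hl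
  obtain ⟨c1, c2, c3, c4, c5, c6, c7⟩ := hUCC
  exact c3 _ (c6 _ _ (c1 _ (DC1_q_primrec hPGT hA hj)) (c1 _ (DC1_q_primrec hPGT hB hj)))

/-- inner quantifier -/
def DC1_g1 (v : ℕ → Bool) (z : ℕ) : Bool :=
  decide (∀ i' < DD (Nat.unpair (Nat.unpair (Nat.unpair z).2).2).1, DC1_g2 v (Nat.pair i' z) = true)

theorem DC1_g1_UC (hUCC : S_UCC) (hUCA : S_UCA) (hPGR : S_PGR) (hPGT : S_PGT) : UC DC1_g1 := by
  have hl : Primrec (fun n : ℕ => (Nat.unpair n).1) := Primrec.fst.comp Primrec.unpair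
  have hr : Primrec (fun n : ℕ => (Nat.unpair n).2) := Primrec.snd.comp Primrec.unpair
  have hz2 : Primrec (fun z : ℕ => (Nat.unpair (Nat.unpair z).2).2) := hr.comp hr
  exact hUCA.1 DC1_g2 (fun z => DD (Nat.unpair (Nat.unpair (Nat.unpair z).2).2).1)
    (DC1_g2_UC hUCC hPGR hPGT) (hPGR.2.2.comp (hl.comp hz2))

/-- outer quantifier -/
def DC1_g0 (v : ℕ → Bool) (n : ℕ) : Bool :=
  decide (∀ i < DD (Nat.unpair (Nat.unpair n).2).1, DC1_g1 v (Nat.pair i n) = true)

theorem DC1_g0_UC (hUCC : S_UCC) (hUCA : S_UCA) (hPGR : S_PGR) (hPGT : S_PGT) : UC DC1_g0 := by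
  have hl : Primrec (fun n : ℕ => (Nat.unpair n).1) := Primrec.fst.comp Primrec.unpair
  have hr : Primrec (fun n : ℕ => (Nat.unpair n).2) := Primrec.snd.comp Primrec.unpair
  exact hUCA.1 DC1_g1 (fun n => DD (Nat.unpair (Nat.unpair n).2).1)
    (DC1_g1_UC hUCC hUCA hPGR hPGT) (hPGR.2.2.comp (hl.comp hr))

theorem DC1_g0_eq (v : ℕ → Bool) (j m s : ℕ) :
    DC1_g0 v (Nat.pair j (Nat.pair m s)) = true ↔ ∀ i < DD m, ∀ i' < DD m,
      v (DC1_q (2 * s * DD m + i) j) ≠ v (DC1_q ((2 * s + 1) * DD m + i') j) := by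
  unfold DC1_g0 DC1_g1
  simp only [Nat.unpair_pair, decide_eq_true_eq, DC1_g2_eq]

/-- the search stops -/
def DC1_w (v : ℕ → Bool) (n : ℕ) : Bool :=
  DC1_g0 v n || decide (off ((Nat.unpair (Nat.unpair n).2).1 + 1) ≤ (Nat.unpair n).1)

theorem DC1_w_UC (hUCC : S_UCC) (hUCA : S_UCA) (hPGR : S_PGR) (hPGT : S_PGT) : UC DC1_w := by
  have hl : Primrec (fun n : ℕ => (Nat.unpair n).1) := Primrec.fst.comp Primrec.unpair
  have hr : Primrec (fun n : ℕ => (Nat.unpair n).2) := Primrec.snd.comp Primrec.unpair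
  have h1 : Primrec (fun n : ℕ => off ((Nat.unpair (Nat.unpair n).2).1 + 1)) :=
    hPGR.1.comp (Primrec.succ.comp (hl.comp hr))
  have h2 : Primrec (fun n : ℕ =>
      decide (off ((Nat.unpair (Nat.unpair n).2).1 + 1) ≤ (Nat.unpair n).1)) :=
    (Primrec.nat_le.comp h1 hl).decide
  have hg := DC1_g0_UC hUCC hUCA hPGR hPGT
  obtain ⟨c1, c2, c3, c4, c5, c6, c7⟩ := hUCC
  exact c5 _ _ hg (c2 _ h2)

theorem DC1_ex (v : ℕ → Bool) (a : ℕ) : ∃ j, DC1_w v (Nat.pair j a) = true := by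
  refine ⟨off ((Nat.unpair a).1 + 1), ?_⟩
  unfold DC1_w
  simp only [Nat.unpair_pair, le_refl, decide_true, Bool.or_true]

/-- the least `j` -/
noncomputable def DC1_j (v : ℕ → Bool) (a : ℕ) : ℕ := by
  classical exact Nat.find (DC1_ex v a)

theorem DC1_j_spec (v : ℕ → Bool) (a : ℕ) : DC1_w v (Nat.pair (DC1_j v a) a) = true := by
  classical
  unfold DC1_j
  exact Nat.find_spec (DC1_ex v a)

theorem DC1_j_min (v : ℕ → Bool) (a n : ℕ) (h : n < DC1_j v a) :
    ¬ DC1_w v (Nat.pair n a) = true := by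
  classical
  unfold DC1_j at h
  exact Nat.find_min (DC1_ex v a) h

/-- the value at `2 s D` -/
def DC1_b (v : ℕ → Bool) (n : ℕ) : Bool :=
  v (DC1_q (2 * (Nat.unpair (Nat.unpair n).2).2 * DD (Nat.unpair (Nat.unpair n).2).1)
    (Nat.unpair n).1)

theorem DC1_b_UC (hUCC : S_UCC) (hPGR : S_PGR) (hPGT : S_PGT) : UC DC1_b := by
  have hl : Primrec (fun n : ℕ => (Nat.unpair n).1) := Primrec.fst.comp Primrec.unpair
  have hr : Primrec (fun n : ℕ => (Nat.unpair n).2) := Primrec.snd.comp Primrec.unpair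
  have h1 : Primrec (fun n : ℕ => 2 * (Nat.unpair (Nat.unpair n).2).2 *
      DD (Nat.unpair (Nat.unpair n).2).1) :=
    Primrec.nat_mul.comp (Primrec.nat_mul.comp (Primrec.const 2) (hr.comp hr))
      (hPGR.2.2.comp (hl.comp hr))
  exact hUCC.1 _ (DC1_q_primrec hPGT h1 hl)

/-! ### branches -/

theorem DC1_idx_succ (x : ℕ → Bool) (n : ℕ) : idx x (n + 1) = 2 * idx x n + (x n).toNat := rfl

theorem DC1_idx_bd (x : ℕ → Bool) (n : ℕ) : 2 ^ n ≤ idx x n ∧ idx x n < 2 ^ (n + 1) := by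
  induction n with
  | zero => exact ⟨le_refl _, show 1 < 2 ^ (0 + 1) by norm_num⟩
  | succ n ih =>
    rw [DC1_idx_succ]
    have h1 : (x n).toNat ≤ 1 := Bool.toNat_le _
    have e1 : 2 ^ (n + 1) = 2 * 2 ^ n := pow_succ' 2 n
    have e2 : 2 ^ (n + 1 + 1) = 2 * 2 ^ (n + 1) := pow_succ' 2 (n + 1)
    omega

theorem DC1_idx_add (x : ℕ → Bool) (n d : ℕ) :
    ∃ i < 2 ^ d, idx x (n + d) = idx x n * 2 ^ d + i := by
  induction d with
  | zero => exact ⟨0, by norm_num, by simp⟩
  | succ d ih =>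
    obtain ⟨i, hi, he⟩ := ih
    refine ⟨2 * i + (x (n + d)).toNat, ?_, ?_⟩
    · have h1 : (x (n + d)).toNat ≤ 1 := Bool.toNat_le _
      rw [pow_succ']
      omega
    · rw [← Nat.add_assoc, DC1_idx_succ, he, pow_succ']
      ring

theorem DC1_LL (x : ℕ → Bool) (m : ℕ) :
    ∃ i < DD m, idx x (LL m) = (2 * idx x m + (x m).toNat) * DD m + i := by
  obtain ⟨i, hi, he⟩ := DC1_idx_add x (m + 1) (LL m - (m + 1))
  have h1 : m + 1 ≤ LL m := by unfold LL; omega
  rw [Nat.add_sub_cancel' h1] at he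
  exact ⟨i, hi, by rw [he, DC1_idx_succ]; rfl⟩

/-- the decoding -/
theorem DC1_key (hDC0 : S_DC0) (v : ℕ → Bool) (hC : ∀ N, CohN v N) (hB : ∀ N, BitN v N)
    (x : ℕ → Bool) (m : ℕ) :
    (DC1_j v (Nat.pair m (idx x m)) ∈ trx v x ↔
      DC1_b v (Nat.pair (DC1_j v (Nat.pair m (idx x m))) (Nat.pair m (idx x m))) = true) ↔
      x m = false := by
  obtain ⟨hs1, hs2⟩ := DC1_idx_bd x m
  obtain ⟨i, hi, he⟩ := DC1_LL x m
  set s := idx x m with hs
  set j := DC1_j v (Nat.pair m s) with hj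
  have hD : 0 < DD m := lt_of_le_of_lt (Nat.zero_le _) hi
  -- j is below the offset
  have hlt : j < off (m + 1) := by
    obtain ⟨j', hj', h'⟩ := hB (m + 1) m (Nat.lt_succ_self m) s hs1 hs2
    refine lt_of_le_of_lt ?_ hj'
    by_contra hcon
    refine DC1_j_min v (Nat.pair m s) j' (lt_of_not_ge hcon) ?_
    unfold DC1_w
    rw [Bool.or_eq_true]
    left
    rw [DC1_g0_eq]
    exact h'
  have hP : ∀ i < DD m, ∀ i' < DD m,
      v (DC1_q (2 * s * DD m + i) j) ≠ v (DC1_q ((2 * s + 1) * DD m + i') j) := by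
    have h1 := DC1_j_spec v (Nat.pair m s)
    rw [← hj] at h1
    unfold DC1_w at h1
    rw [Bool.or_eq_true] at h1
    rcases h1 with h1 | h1
    · rw [DC1_g0_eq] at h1
      exact h1
    · exfalso
      simp only [Nat.unpair_pair, decide_eq_true_eq] at h1
      omega
  have h0 := hDC0 v hC x j (LL m) (by unfold LL; omega)
  have hb : DC1_b v (Nat.pair j (Nat.pair m s)) = v (DC1_q (2 * s * DD m) j) := by
    unfold DC1_b
    simp only [Nat.unpair_pair]
  rw [h0, hb]
  have hL : v (Nat.pair Bf (benv (clab (idx x (LL m))) (num j))) = v (DC1_q (idx x (LL m)) j) := rfl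
  rw [hL, he]
  cases hx : x m with
  | false =>
    have e1 : (2 * s + (false).toNat) * DD m + i = 2 * s * DD m + i := by
      simp
    rw [e1]
    have h1 := hP i hi 0 hD
    have h2 := hP 0 hD 0 hD
    rw [Nat.add_zero (2 * s * DD m)] at h2
    have h3 : v (DC1_q (2 * s * DD m + i) j) = v (DC1_q (2 * s * DD m) j) := by
      revert h1 h2
      generalize v (DC1_q (2 * s * DD m + i) j) = a
      generalize v (DC1_q (2 * s * DD m) j) = b
      generalize v (DC1_q ((2 * s + 1) * DD m + 0) j) = c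
      cases a <;> cases b <;> cases c <;> simp
    rw [h3]
    simp
  | true =>
    have e1 : (2 * s + (true).toNat) * DD m + i = (2 * s + 1) * DD m + i := by
      simp
    rw [e1]
    have h2 := hP 0 hD i hi
    rw [Nat.add_zero (2 * s * DD m)] at h2
    revert h2
    generalize v (DC1_q (2 * s * DD m) j) = b
    generalize v (DC1_q ((2 * s + 1) * DD m + i) j) = c
    cases b <;> cases c <;> simp

theorem p_DC1 (hDC0 : S_DC0) (hUCT : S_UCT) (hUCC : S_UCC) (hUCA : S_UCA) (hPGR : S_PGR)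
    (hPGT : S_PGT) : S_DC1 := by
  intro v hC hB x
  classical
  have key : Pool.Agent.Work.MP_e5ffe1_h93.le {n : ℕ | x n = true}
      (J (trx v x) {n : ℕ | v n = true}) := by
    rw [Pool.Agent.Work.MP_e5ffe1_h93.le_iff]
    set O := orc (J (trx v x) {n : ℕ | v n = true}) with hO
    have ht : TR O (ch (trx v x)) :=
      Pool.Agent.Work.MP_e5ffe1_h93.le_iff.1
        (Pool.Agent.Work.MP_e5ffe1_h93.le_J_left (trx v x) {n : ℕ | v n = true})
    have hv : ∀ g, UC g → TR O (ch {n : ℕ | g v n = true}) := by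
      intro g hg
      exact Pool.Agent.Work.MP_e5ffe1_h93.le_iff.1
        (Pool.Agent.Work.MP_e5ffe1_h93.le_trans' (hUCT g hg v)
          (Pool.Agent.Work.MP_e5ffe1_h93.le_J_right (trx v x) {n : ℕ | v n = true}))
    have hw := hv _ (DC1_w_UC hUCC hUCA hPGR hPGT)
    have hb := hv _ (DC1_b_UC hUCC hPGR hPGT)
    -- the search
    have hf : TR O (fun p => 1 - ch {n : ℕ | DC1_w v n = true}
        (Nat.pair (Nat.unpair p).2 (Nat.unpair p).1)) :=
      DC1_prim (f := fun n => 1 - n) (Primrec.nat_sub.comp (Primrec.const 1) Primrec.id)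
        (hw.comp (TR.right.pair TR.left))
    have hj : TR O (DC1_j v) := by
      refine DC1_least hf (DC1_j v) ?_ ?_
      · intro a
        simp only [Nat.unpair_pair]
        rw [ch_of_mem (show Nat.pair (DC1_j v a) a ∈ {n : ℕ | DC1_w v n = true} from
          DC1_j_spec v a)]
      · intro a n hn
        simp only [Nat.unpair_pair]
        rw [ch_of_notMem (show Nat.pair n a ∉ {n : ℕ | DC1_w v n = true} from
          DC1_j_min v a n hn)]
        norm_num
    have hbit : TR O (fun a => (ch (trx v x) (DC1_j v a) +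
        ch {n : ℕ | DC1_b v n = true} (Nat.pair (DC1_j v a) a)) % 2) :=
      DC1_prim (f := fun n => n % 2) (Primrec.nat_mod.comp Primrec.id (Primrec.const 2))
        (DC1_add (ht.comp hj) (hb.comp (hj.pair TR.id)))
    have hbitx : ∀ m, (ch (trx v x) (DC1_j v (Nat.pair m (idx x m))) +
        ch {n : ℕ | DC1_b v n = true} (Nat.pair (DC1_j v (Nat.pair m (idx x m)))
          (Nat.pair m (idx x m)))) % 2 = (x m).toNat := by
      intro m
      have hk := DC1_key hDC0 v hC hB x m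
      by_cases h1 : DC1_j v (Nat.pair m (idx x m)) ∈ trx v x
      · by_cases h2 : DC1_b v (Nat.pair (DC1_j v (Nat.pair m (idx x m)))
          (Nat.pair m (idx x m))) = true
        · rw [ch_of_mem h1, ch_of_mem (show _ ∈ {n : ℕ | DC1_b v n = true} from h2)]
          rw [hk.1 (iff_of_true h1 h2)]
          rfl
        · rw [ch_of_mem h1, ch_of_notMem (show _ ∉ {n : ℕ | DC1_b v n = true} from h2)]
          have h3 : ¬ x m = false := fun h => h2 ((hk.2 h).1 h1)
          rw [Bool.not_eq_false] at h3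
          rw [h3]
          rfl
      · by_cases h2 : DC1_b v (Nat.pair (DC1_j v (Nat.pair m (idx x m)))
          (Nat.pair m (idx x m))) = true
        · rw [ch_of_notMem h1, ch_of_mem (show _ ∈ {n : ℕ | DC1_b v n = true} from h2)]
          have h3 : ¬ x m = false := fun h => h1 ((hk.2 h).2 h2)
          rw [Bool.not_eq_false] at h3
          rw [h3]
          rfl
        · rw [ch_of_notMem h1, ch_of_notMem (show _ ∉ {n : ℕ | DC1_b v n = true} from h2)]
          rw [hk.1 (iff_of_false h1 h2)]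
          rfl
    -- the recursion
    have h2m : TR O (fun p => 2 * (Nat.unpair p).2) :=
      DC1_prim (f := fun n => 2 * n) (Primrec.nat_mul.comp (Primrec.const 2) Primrec.id) TR.right
    have hidx : TR O (idx x) := by
      refine (TR.rec0 1 (DC1_add h2m hbit)).of_eq (fun n => ?_)
      induction n with
      | zero => rfl
      | succ n ih =>
        rw [DC1_idx_succ, ← hbitx n]
        simp only [Nat.unpair_pair] at ih ⊢
        rw [ih]
    have hfin : TR O (fun n => (ch (trx v x) (DC1_j v (Nat.pair n (idx x n))) +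
        ch {n : ℕ | DC1_b v n = true} (Nat.pair (DC1_j v (Nat.pair n (idx x n)))
          (Nat.pair n (idx x n)))) % 2) := hbit.comp (TR.id.pair hidx)
    refine hfin.of_eq (fun n => ?_)
    rw [hbitx n]
    cases hx : x n with
    | false =>
      rw [ch_of_notMem (show n ∉ {n : ℕ | x n = true} from by
        intro h
        have h' : x n = true := h
        rw [hx] at h'
        exact Bool.false_ne_true h')]
      rfl
    | true =>
      rw [ch_of_mem (show n ∈ {n : ℕ | x n = true} from hx)]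
      rfl
  exact key

end Pool.E5
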