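import Pool.Agent.Work.MP_e5ffe1_all.Interface1

/-! # Block UA1 (helper45) -/

set_option autoImplicit false

namespace Pool.E5

/-- a condition on `v` given by a uniformly computable function -/
def UA1_Cl (P : (ℕ → Bool) → Prop) : Prop := ∃ g, UC g ∧ ∀ v, (∀ n, g v n = true) ↔ P v

theorem UA1_and (h : S_UCC) {P Q : (ℕ → Bool) → Prop} (hP : UA1_Cl P) (hQ : UA1_Cl Q) :
    UA1_Cl (fun v => P v ∧ Q v) := by
  obtain ⟨g, hg, h1⟩ := hP
  obtain ⟨g', hg', h2⟩ := hQ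
  refine ⟨fun v n => g v n && g' v n, h.2.2.2.1 g g' hg hg', fun v => ?_⟩
  show (∀ n, (g v n && g' v n) = true) ↔ P v ∧ Q v
  rw [← h1, ← h2]
  constructor
  · intro h3
    exact ⟨fun n => (Bool.and_eq_true_iff.1 (h3 n)).1, fun n => (Bool.and_eq_true_iff.1 (h3 n)).2⟩
  · rintro ⟨h3, h4⟩ n
    rw [h3 n, h4 n]
    rfl

theorem UA1_one {B : (ℕ → Bool) → ℕ → Bool} (hB : UC B) :
    UA1_Cl (fun v => ∀ n, B v n = true) := ⟨B, hB, fun _ => Iff.rfl⟩

theorem UA1_iff (h : S_UCC) {B C : (ℕ → Bool) → ℕ → Bool} (hB : UC B) (hC : UC C) :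
    UA1_Cl (fun v => ∀ n, (B v n = true ↔ C v n = true)) := by
  refine ⟨fun v n => B v n == C v n, h.2.2.2.2.2.1 B C hB hC, fun v => ?_⟩
  refine forall_congr' fun n => ?_
  show (B v n == C v n) = true ↔ _
  cases B v n <;> cases C v n <;> simp

theorem UA1_congr {P Q : (ℕ → Bool) → Prop} (hP : UA1_Cl P) (h : ∀ v, P v ↔ Q v) :
    UA1_Cl Q := by
  obtain ⟨g, hg, h1⟩ := hP
  exact ⟨g, hg, fun v => (h1 v).trans (h v)⟩

theorem UA1_u1 {f : ℕ → ℕ} (hf : Primrec f) : Primrec (fun n : ℕ => (Nat.unpair (f n)).1) :=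
  Primrec.fst.comp (Primrec.unpair.comp hf)

theorem UA1_u2 {f : ℕ → ℕ} (hf : Primrec f) : Primrec (fun n : ℕ => (Nat.unpair (f n)).2) :=
  Primrec.snd.comp (Primrec.unpair.comp hf)

theorem UA1_pair {f g : ℕ → ℕ} (hf : Primrec f) (hg : Primrec g) :
    Primrec (fun n => Nat.pair (f n) (g n)) := Primrec₂.natPair.comp hf hg

theorem UA1_lin {f : ℕ → ℕ} (a b : ℕ) (hf : Primrec f) : Primrec (fun n => a * f n + b) :=
  Primrec.nat_add.comp (Primrec.nat_mul.comp (Primrec.const a) hf) (Primrec.const b)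

theorem UA1_cons {f g : ℕ → ℕ} (hf : Primrec f) (hg : Primrec g) :
    Primrec (fun n => ccons (f n) (g n)) := UA1_lin 9 7 (UA1_pair hf hg)

theorem UA1_hen {f g : ℕ → ℕ} (hf : Primrec f) (hg : Primrec g) :
    Primrec (fun n => chen (f n) (g n)) := UA1_lin 9 6 (UA1_pair hf hg)

theorem UA1_cadd {f g : ℕ → ℕ} (hf : Primrec f) (hg : Primrec g) :
    Primrec (fun n => cadd (f n) (g n)) := UA1_lin 9 3 (UA1_pair hf hg)

theorem UA1_cmul {f g : ℕ → ℕ} (hf : Primrec f) (hg : Primrec g) :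
    Primrec (fun n => cmul (f n) (g n)) := UA1_lin 9 4 (UA1_pair hf hg)

theorem UA1_E (h : S_UCC) {f g : ℕ → ℕ} (hf : Primrec f) (hg : Primrec g) :
    UC (fun v n => v (Nat.pair (feq 0 1) (ccons (f n) (ccons (g n) 0)))) :=
  h.1 _ (UA1_pair (Primrec.const _) (UA1_cons hf (UA1_cons hg (Primrec.const _))))

theorem UA1_L (h : S_UCC) {f g : ℕ → ℕ} (hf : Primrec f) (hg : Primrec g) :
    UC (fun v n => v (Nat.pair (flt 0 1) (ccons (f n) (ccons (g n) 0)))) :=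
  h.1 _ (UA1_pair (Primrec.const _) (UA1_cons hf (UA1_cons hg (Primrec.const _))))

theorem UA1_neg (h : S_UCC) :
    UA1_Cl (fun v => ∀ φ e, (VD v).V (fneg φ) e ↔ ¬ (VD v).V φ e) := by
  have hB : UC (fun v n => v (Nat.pair (fneg (Nat.unpair n).1) (Nat.unpair n).2)) :=
    h.1 _ (UA1_pair (UA1_lin 7 4 (UA1_u1 Primrec.id)) (UA1_u2 Primrec.id))
  have hC : UC (fun v n => !(v (Nat.pair (Nat.unpair n).1 (Nat.unpair n).2))) :=
    h.2.2.1 _ (h.1 _ (UA1_pair (UA1_u1 Primrec.id) (UA1_u2 Primrec.id)))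
  refine UA1_congr (UA1_iff h hB hC) fun v => ?_
  constructor
  · intro h1 φ e
    have h2 := h1 (Nat.pair φ e)
    simp only [Nat.unpair_pair, Bool.not_eq_true'] at h2
    show v (Nat.pair (fneg φ) e) = true ↔ ¬ v (Nat.pair φ e) = true
    rw [h2, Bool.not_eq_true]
  · intro h1 n
    have h2 : v (Nat.pair (fneg (Nat.unpair n).1) (Nat.unpair n).2) = true ↔
      ¬ v (Nat.pair (Nat.unpair n).1 (Nat.unpair n).2) = true := h1 _ _
    rw [h2, Bool.not_eq_true, Bool.not_eq_true']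

theorem UA1_andc (h : S_UCC) :
    UA1_Cl (fun v => ∀ φ ψ e, (VD v).V (fand φ ψ) e ↔ (VD v).V φ e ∧ (VD v).V ψ e) := by
  have u1 := UA1_u1 Primrec.id
  have u2 := UA1_u1 (UA1_u2 Primrec.id)
  have u3 := UA1_u2 (UA1_u2 Primrec.id)
  have hB := h.1 _ (UA1_pair (UA1_lin 7 5 (UA1_pair u1 u2)) u3)
  have hC := h.2.2.2.1 _ _ (h.1 _ (UA1_pair u1 u3)) (h.1 _ (UA1_pair u2 u3))
  refine UA1_congr (UA1_iff h hB hC) fun v => ?_
  constructor
  · intro h1 φ ψ e
    have h2 := h1 (Nat.pair φ (Nat.pair ψ e))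
    simp only [id, Nat.unpair_pair, Bool.and_eq_true] at h2
    exact h2
  · intro h1 n
    rw [Bool.and_eq_true]
    exact h1 _ _ _

theorem UA1_ex (h : S_UCC) :
    UA1_Cl (fun v => ∀ φ e, (VD v).V (fex φ) e ↔ (VD v).V φ ((VD v).cons ((VD v).hen φ e) e)) := by
  have u1 := UA1_u1 Primrec.id
  have u2 := UA1_u2 Primrec.id
  have hB := h.1 _ (UA1_pair (UA1_lin 7 6 u1) u2)
  have hC := h.1 _ (UA1_pair u1 (UA1_cons (UA1_hen u1 u2) u2))
  refine UA1_congr (UA1_iff h hB hC) fun v => ?_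
  constructor
  · intro h1 φ e
    have h2 := h1 (Nat.pair φ e)
    simp only [id, Nat.unpair_pair] at h2
    exact h2
  · intro h1 n
    exact h1 _ _

theorem UA1_wit (h : S_UCC) :
    UA1_Cl (fun v => ∀ φ a e, (VD v).V φ ((VD v).cons a e) →
      (VD v).V φ ((VD v).cons ((VD v).hen φ e) e) ∧
      ¬ (VD v).L ((VD v).mul a a) ((VD v).mul ((VD v).hen φ e) ((VD v).hen φ e))) := by
  have u1 := UA1_u1 Primrec.id
  have u2 := UA1_u1 (UA1_u2 Primrec.id)
  have u3 := UA1_u2 (UA1_u2 Primrec.id)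
  have hA := h.2.2.1 _ (h.1 _ (UA1_pair u1 (UA1_cons u2 u3)))
  have hB := h.1 _ (UA1_pair u1 (UA1_cons (UA1_hen u1 u3) u3))
  have hC := h.2.2.1 _ (UA1_L h (UA1_cmul u2 u2) (UA1_cmul (UA1_hen u1 u3) (UA1_hen u1 u3)))
  have hD := h.2.2.2.2.1 _ _ hA (h.2.2.2.1 _ _ hB hC)
  refine UA1_congr (UA1_one hD) fun v => ?_
  have key : ∀ a b c : Bool, (!a || (b && !c)) = true ↔ (a = true → b = true ∧ ¬ c = true) := by
    decide
  constructor
  · intro h1 φ a e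
    have h2 := h1 (Nat.pair φ (Nat.pair a e))
    simp only [id, Nat.unpair_pair] at h2
    exact (key _ _ _).1 h2
  · intro h1 n
    exact (key _ _ _).2 (h1 _ _ _)

theorem UA1_eq (h : S_UCC) (hP : S_PGT) :
    UA1_Cl (fun v => ∀ i j e, (VD v).V (feq i j) e ↔ (VD v).E ((VD v).get e i) ((VD v).get e j)) := by
  have u1 := UA1_u1 Primrec.id
  have u2 := UA1_u1 (UA1_u2 Primrec.id)
  have u3 := UA1_u2 (UA1_u2 Primrec.id)
  have hB := h.1 _ (UA1_pair (Primrec.nat_mul.comp (Primrec.const 7) (UA1_pair u1 u2)) u3)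
  have hC := UA1_E h (hP.1.comp u3 u1) (hP.1.comp u3 u2)
  refine UA1_congr (UA1_iff h hB hC) fun v => ?_
  constructor
  · intro h1 i j e
    have h2 := h1 (Nat.pair i (Nat.pair j e))
    simp only [id, Nat.unpair_pair] at h2
    exact h2
  · intro h1 n
    exact h1 _ _ _

theorem UA1_lt (h : S_UCC) (hP : S_PGT) :
    UA1_Cl (fun v => ∀ i j e, (VD v).V (flt i j) e ↔ (VD v).L ((VD v).get e i) ((VD v).get e j)) := by
  have u1 := UA1_u1 Primrec.id
  have u2 := UA1_u1 (UA1_u2 Primrec.id)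
  have u3 := UA1_u2 (UA1_u2 Primrec.id)
  have hB := h.1 _ (UA1_pair (UA1_lin 7 1 (UA1_pair u1 u2)) u3)
  have hC := UA1_L h (hP.1.comp u3 u1) (hP.1.comp u3 u2)
  refine UA1_congr (UA1_iff h hB hC) fun v => ?_
  constructor
  · intro h1 i j e
    have h2 := h1 (Nat.pair i (Nat.pair j e))
    simp only [id, Nat.unpair_pair] at h2
    exact h2
  · intro h1 n
    exact h1 _ _ _

theorem UA1_addc (h : S_UCC) (hP : S_PGT) :
    UA1_Cl (fun v => ∀ i j k e, (VD v).V (fadd i j k) e ↔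
      (VD v).E ((VD v).add ((VD v).get e i) ((VD v).get e j)) ((VD v).get e k)) := by
  have u1 := UA1_u1 Primrec.id
  have u2 := UA1_u1 (UA1_u2 Primrec.id)
  have u3 := UA1_u1 (UA1_u2 (UA1_u2 Primrec.id))
  have u4 := UA1_u2 (UA1_u2 (UA1_u2 Primrec.id))
  have hB := h.1 _ (UA1_pair (UA1_lin 7 2 (UA1_pair u1 (UA1_pair u2 u3))) u4)
  have hC := UA1_E h (UA1_cadd (hP.1.comp u4 u1) (hP.1.comp u4 u2)) (hP.1.comp u4 u3)
  refine UA1_congr (UA1_iff h hB hC) fun v => ?_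
  constructor
  · intro h1 i j k e
    have h2 := h1 (Nat.pair i (Nat.pair j (Nat.pair k e)))
    simp only [id, Nat.unpair_pair] at h2
    exact h2
  · intro h1 n
    exact h1 _ _ _ _

theorem UA1_mulc (h : S_UCC) (hP : S_PGT) :
    UA1_Cl (fun v => ∀ i j k e, (VD v).V (fmul i j k) e ↔
      (VD v).E ((VD v).mul ((VD v).get e i) ((VD v).get e j)) ((VD v).get e k)) := by
  have u1 := UA1_u1 Primrec.id
  have u2 := UA1_u1 (UA1_u2 Primrec.id)
  have u3 := UA1_u1 (UA1_u2 (UA1_u2 Primrec.id))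
  have u4 := UA1_u2 (UA1_u2 (UA1_u2 Primrec.id))
  have hB := h.1 _ (UA1_pair (UA1_lin 7 3 (UA1_pair u1 (UA1_pair u2 u3))) u4)
  have hC := UA1_E h (UA1_cmul (hP.1.comp u4 u1) (hP.1.comp u4 u2)) (hP.1.comp u4 u3)
  refine UA1_congr (UA1_iff h hB hC) fun v => ?_
  constructor
  · intro h1 i j k e
    have h2 := h1 (Nat.pair i (Nat.pair j (Nat.pair k e)))
    simp only [id, Nat.unpair_pair] at h2
    exact h2
  · intro h1 n
    exact h1 _ _ _ _

theorem UA1_hd (a e : ℕ) : hd (ccons a e) = a := by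
  unfold hd ccons
  have h1 : (9 * Nat.pair a e + 7) % 9 = 7 := by omega
  have h2 : (9 * Nat.pair a e + 7) / 9 = Nat.pair a e := by omega
  rw [if_pos h1, h2, Nat.unpair_pair]

theorem UA1_tl (a e : ℕ) : tl (ccons a e) = e := by
  unfold tl ccons
  have h1 : (9 * Nat.pair a e + 7) % 9 = 7 := by omega
  have h2 : (9 * Nat.pair a e + 7) / 9 = Nat.pair a e := by omega
  rw [if_pos h1, h2, Nat.unpair_pair]

theorem UA1_nil (i : ℕ) : get 0 i = 0 := by
  have h0 : tl 0 = 0 := by simp [tl]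
  have h1 : hd 0 = 0 := by simp [hd]
  have h2 : tl^[i] 0 = 0 := Function.iterate_fixed h0 i
  unfold get
  rw [h2, h1]

theorem p_UA1 (hU : S_UCC) (hP : S_PGT) : S_UA1 := by
  obtain ⟨g, hg, h1⟩ := UA1_and hU (UA1_neg hU) (UA1_and hU (UA1_andc hU) (UA1_and hU (UA1_ex hU)
    (UA1_and hU (UA1_wit hU) (UA1_and hU (UA1_eq hU hP) (UA1_and hU (UA1_lt hU hP)
      (UA1_and hU (UA1_addc hU hP) (UA1_mulc hU hP)))))))
  refine ⟨g, hg, fun v => (h1 v).trans ?_⟩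
  constructor
  · rintro ⟨a1, a2, a3, a4, a5, a6, a7, a8⟩
    refine ⟨fun a e => UA1_hd a e, fun a e i => ?_, fun i => UA1_nil i, a1, a2, a3, a4, a5, a6,
      a7, a8⟩
    show get (ccons a e) (i + 1) = get e i
    unfold get
    rw [Function.iterate_succ_apply, UA1_tl]
  · intro h
    exact ⟨h.neg', h.and', h.ex', h.wit, h.eq', h.lt', h.add', h.mul'⟩

end Pool.E5
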