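import Pool.Agent.Work.MP_e5ffe1_all.Interface2
import Pool.Agent.Work.MP_e5ffe1_all.B_UA1
import Pool.Agent.Work.MP_e5ffe1_lc_helper93.Comp

/-! # Block DC2 (helper45) -/

set_option autoImplicit false

namespace Pool.E5

open Pool.Agent.Work.MP_e5ffe1_h93 (TR ch st orc ch_st ch_of_mem ch_of_notMem)

theorem DC2_idx {O : Set (ℕ →. ℕ)} {x : ℕ → Bool} (h : TR O (ch (st x))) : TR O (idx x) := by
  have h1 : TR O (fun p => 2 * (Nat.unpair p).2) := (TR.of_primrec (by
    have := (Primrec.nat_mul.comp (Primrec.const 2) Primrec.id)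
    exact Primrec.nat_iff.1 this)).comp TR.right
  have hadd : TR O (fun p => (Nat.unpair p).1 + (Nat.unpair p).2) := TR.of_primrec Nat.Primrec.add
  have h2 : TR O (fun p => 2 * (Nat.unpair p).2 + ch (st x) (Nat.unpair p).1) := by
    refine (hadd.comp (h1.pair (h.comp TR.left))).of_eq (fun n => ?_)
    simp
  refine (TR.rec0 1 h2).of_eq (fun n => ?_)
  unfold idx
  induction n with
  | zero => rfl
  | succ n ih =>
    simp only [Nat.unpair_pair] at ih ⊢
    rw [ih, ch_st]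
    cases x n <;> rfl

theorem DC2_pos (hP : S_PGT) :
    Primrec (fun p : ℕ => Nat.pair Bf (benv (clab (Nat.unpair p).1) (num (Nat.unpair p).2))) :=
  UA1_pair (Primrec.const Bf) (UA1_cons (UA1_lin 9 2 (UA1_u1 Primrec.id))
    (UA1_cons (hP.2.comp (UA1_u2 Primrec.id)) (Primrec.const (ccons (cpar 0) (ccons co 0)))))

theorem p_DC2 (hD : S_DC0) (hP : S_PGT) : S_DC2 := by
  intro v hv x
  obtain ⟨O, hO⟩ : ∃ O : Set (ℕ →. ℕ), O = orc (J {n : ℕ | x n = true} {n : ℕ | v n = true}) :=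
    ⟨_, rfl⟩
  have hx : TR O (ch (st x)) := by
    rw [hO]
    exact Pool.Agent.Work.MP_e5ffe1_h93.le_iff.1 (Pool.Agent.Work.MP_e5ffe1_h93.le_J_left _ _)
  have hvv : TR O (ch (st v)) := by
    rw [hO]
    exact Pool.Agent.Work.MP_e5ffe1_h93.le_iff.1 (Pool.Agent.Work.MP_e5ffe1_h93.le_J_right _ _)
  have hlin : TR O (fun j => 3 * j + (Bf + 18)) := TR.of_primrec (by
    have := UA1_lin (f := fun j => j) 3 (Bf + 18) Primrec.id
    exact Primrec.nat_iff.1 this)
  have hpos := (TR.of_primrec (O := O) (Primrec.nat_iff.1 (DC2_pos hP))).comp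
    (((DC2_idx hx).comp hlin).pair TR.id)
  have key : TR O (ch (trx v x)) := by
    refine (hvv.comp hpos).of_eq fun j => ?_
    have h1 := hD v hv x j (3 * j + (Bf + 18)) (by omega)
    simp only [Nat.unpair_pair]
    by_cases h2 : j ∈ trx v x
    · rw [ch_of_mem h2]
      exact ch_of_mem (h1.1 h2)
    · rw [ch_of_notMem h2]
      exact ch_of_notMem fun h3 => h2 (h1.2 h3)
  rw [hO] at key
  exact Pool.Agent.Work.MP_e5ffe1_h93.le_iff.2 key

end Pool.E5
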