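import Pool.Agent.Work.MP_e5ffe1_all.Interface1

/-!
Block DEP: values depend only on the labels which occur.
-/

set_option autoImplicit false

namespace Pool.E5

theorem DEP_ev (hEGT : S_EGT) (J I I' : ℕ → ℤ) (k : ℕ)
    (hI : ∀ s, 2 ^ k ≤ s → s < 2 ^ (k + 1) → I s = I' s) :
    ∀ n, lvb k n = true → ev J I n = ev J I' n := by
  intro n
  induction n using Nat.strong_induction_on with
  | _ n ih =>
    intro hl
    have u1 := Nat.unpair_left_le (n / 9)
    have u2 := Nat.unpair_right_le (n / 9)
    rw [lvb] at hl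
    conv_lhs => rw [ev]
    conv_rhs => rw [ev]
    have hcase : n % 9 = 0 ∨ n % 9 = 1 ∨ n % 9 = 2 ∨ n % 9 = 3 ∨ n % 9 = 4 ∨ n % 9 = 5 ∨
        n % 9 = 6 ∨ n % 9 = 7 ∨ n % 9 = 8 := by omega
    rcases hcase with h | h | h | h | h | h | h | h | h
    · simp [h]
    · simp [h]
    · simp only [h] at hl ⊢
      norm_num at hl ⊢
      exact hI _ hl.1 hl.2
    · simp only [h] at hl ⊢
      norm_num at hl ⊢
      rw [ih _ (by omega) hl.1, ih _ (by omega) hl.2]
    · simp only [h] at hl ⊢
      norm_num at hl ⊢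
      rw [ih _ (by omega) hl.1, ih _ (by omega) hl.2]
    · simp only [h] at hl ⊢
      norm_num at hl ⊢
      exact ih _ (by omega) hl
    · simp only [h] at hl ⊢
      norm_num at hl ⊢
      have e : (fun i => ev J I (get (Nat.unpair (n / 9)).2 i)) =
          fun i => ev J I' (get (Nat.unpair (n / 9)).2 i) := by
        funext i
        have g := get_le (Nat.unpair (n / 9)).2 i
        exact ih _ (by omega) (hEGT.2 k _ i hl)
      rw [e]
    · simp [h]
    · simp [h]

theorem p_DEP (hEGT : S_EGT) : S_DEP := by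
  intro J I I' k φ e hl hI
  unfold VI
  have h : (fun i => ev J I (get e i)) = fun i => ev J I' (get e i) := by
    funext i
    exact DEP_ev hEGT J I I' k hI _ (hEGT.2 k e i hl)
  rw [h]

end Pool.E5
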