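import Pool.Agent.Work.MP_e5ffe1_all.Interface2
import Pool.Agent.Work.MP_e5ffe1_lc_helper93.Arith

set_option autoImplicit false

namespace Pool.E5

open FirstOrder FirstOrder.Language FirstOrder.Ring

section

variable {R : Type} [CommRing R] [LinearOrder R] [IsStrictOrderedRing R]
  [CompatibleRing R] [Language.order.Structure R] [OrderedStructure Language.order R]

omit [IsStrictOrderedRing R] [OrderedStructure Language.order R] in
theorem DFA_term (hSEQ : S_SEQ) [IsDomain R] {n : ℕ} (t : LR.Term (Empty ⊕ Fin n)) :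
    ∀ (pos : Fin n → ℕ) (out : ℕ), ∃ φ : ℕ, ∀ ρ : ℕ → R, Sat R φ ρ ↔
      ρ out = t.realize (Sum.elim (default : Empty → R) (fun i => ρ (pos i))) := by
  induction t with
  | var v =>
    intro pos out
    rcases v with v | i
    · exact v.elim
    · exact ⟨feq out (pos i), fun ρ => by rw [(hSEQ R ρ).1]; rfl⟩
  | @func l f ts ih =>
    intro pos out
    rcases f with g | g
    · cases g with
      | add =>
        obtain ⟨φs, hs⟩ := ih 0 (fun i => pos i + 2) 1
        obtain ⟨φt, ht⟩ := ih 1 (fun i => pos i + 2) 0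
        refine ⟨fex (fex (fand φs (fand φt (fadd 1 0 (out + 2))))), fun ρ => ?_⟩
        have hr : (Term.func (L := LR) (l := 2) (Sum.inl ringFunc.add) ts).realize
            (Sum.elim (default : Empty → R) (fun i => ρ (pos i))) =
            (ts 0).realize (Sum.elim (default : Empty → R) (fun i => ρ (pos i))) +
            (ts 1).realize (Sum.elim (default : Empty → R) (fun i => ρ (pos i))) :=
          CompatibleRing.funMap_add (fun i => (ts i).realize _)
        rw [hr, (hSEQ R _).2.2.2.2.2.2]
        constructor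
        · rintro ⟨b, h⟩
          rw [(hSEQ R _).2.2.2.2.2.2] at h
          obtain ⟨c, h⟩ := h
          rw [(hSEQ R _).2.2.2.2.2.1, (hSEQ R _).2.2.2.2.2.1, hs, ht, (hSEQ R _).2.2.1] at h
          obtain ⟨h1, h2, h3⟩ := h
          change b = _ at h1
          change c = _ at h2
          change b + c = ρ out at h3
          rw [← h3, h1, h2]
          rfl
        · intro h
          refine ⟨(ts 0).realize (Sum.elim (default : Empty → R) (fun i => ρ (pos i))), ?_⟩
          rw [(hSEQ R _).2.2.2.2.2.2]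
          refine ⟨(ts 1).realize (Sum.elim (default : Empty → R) (fun i => ρ (pos i))), ?_⟩
          rw [(hSEQ R _).2.2.2.2.2.1, (hSEQ R _).2.2.2.2.2.1, hs, ht, (hSEQ R _).2.2.1]
          exact ⟨rfl, rfl, h.symm⟩
      | mul =>
        obtain ⟨φs, hs⟩ := ih 0 (fun i => pos i + 2) 1
        obtain ⟨φt, ht⟩ := ih 1 (fun i => pos i + 2) 0
        refine ⟨fex (fex (fand φs (fand φt (fmul 1 0 (out + 2))))), fun ρ => ?_⟩
        have hr : (Term.func (L := LR) (l := 2) (Sum.inl ringFunc.mul) ts).realize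
            (Sum.elim (default : Empty → R) (fun i => ρ (pos i))) =
            (ts 0).realize (Sum.elim (default : Empty → R) (fun i => ρ (pos i))) *
            (ts 1).realize (Sum.elim (default : Empty → R) (fun i => ρ (pos i))) :=
          CompatibleRing.funMap_mul (fun i => (ts i).realize _)
        rw [hr, (hSEQ R _).2.2.2.2.2.2]
        constructor
        · rintro ⟨b, h⟩
          rw [(hSEQ R _).2.2.2.2.2.2] at h
          obtain ⟨c, h⟩ := h
          rw [(hSEQ R _).2.2.2.2.2.1, (hSEQ R _).2.2.2.2.2.1, hs, ht, (hSEQ R _).2.2.2.1] at h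
          obtain ⟨h1, h2, h3⟩ := h
          change b = _ at h1
          change c = _ at h2
          change b * c = ρ out at h3
          rw [← h3, h1, h2]
          rfl
        · intro h
          refine ⟨(ts 0).realize (Sum.elim (default : Empty → R) (fun i => ρ (pos i))), ?_⟩
          rw [(hSEQ R _).2.2.2.2.2.2]
          refine ⟨(ts 1).realize (Sum.elim (default : Empty → R) (fun i => ρ (pos i))), ?_⟩
          rw [(hSEQ R _).2.2.2.2.2.1, (hSEQ R _).2.2.2.2.2.1, hs, ht, (hSEQ R _).2.2.2.1]
          exact ⟨rfl, rfl, h.symm⟩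
      | neg =>
        obtain ⟨φs, hs⟩ := ih 0 (fun i => pos i + 2) 1
        refine ⟨fex (fex (fand φs (fand (fadd 0 0 0) (fadd 1 (out + 2) 0)))), fun ρ => ?_⟩
        have hr : (Term.func (L := LR) (l := 1) (Sum.inl ringFunc.neg) ts).realize
            (Sum.elim (default : Empty → R) (fun i => ρ (pos i))) =
            - (ts 0).realize (Sum.elim (default : Empty → R) (fun i => ρ (pos i))) :=
          CompatibleRing.funMap_neg (fun i => (ts i).realize _)
        rw [hr, (hSEQ R _).2.2.2.2.2.2]
        constructor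
        · rintro ⟨b, h⟩
          rw [(hSEQ R _).2.2.2.2.2.2] at h
          obtain ⟨c, h⟩ := h
          rw [(hSEQ R _).2.2.2.2.2.1, (hSEQ R _).2.2.2.2.2.1, hs, (hSEQ R _).2.2.1,
            (hSEQ R _).2.2.1] at h
          obtain ⟨h1, h2, h3⟩ := h
          change b = _ at h1
          change c + c = c at h2
          change b + ρ out = c at h3
          have hc : c = 0 := by simpa using h2
          rw [hc] at h3
          rw [eq_neg_of_add_eq_zero_right h3, h1]
          rfl
        · intro h
          refine ⟨(ts 0).realize (Sum.elim (default : Empty → R) (fun i => ρ (pos i))), ?_⟩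
          rw [(hSEQ R _).2.2.2.2.2.2]
          refine ⟨0, ?_⟩
          rw [(hSEQ R _).2.2.2.2.2.1, (hSEQ R _).2.2.2.2.2.1, hs, (hSEQ R _).2.2.1,
            (hSEQ R _).2.2.1]
          refine ⟨rfl, ?_, ?_⟩
          · change (0 : R) + 0 = 0
            simp
          · change _ + ρ out = 0
            rw [h]
            exact add_neg_cancel _
      | zero =>
        refine ⟨fadd out out out, fun ρ => ?_⟩
        have hr : (Term.func (L := LR) (l := 0) (Sum.inl ringFunc.zero) ts).realize
            (Sum.elim (default : Empty → R) (fun i => ρ (pos i))) = 0 :=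
          CompatibleRing.funMap_zero (fun i => (ts i).realize _)
        rw [hr, (hSEQ R _).2.2.1]
        simp
      | one =>
        refine ⟨fand (fmul out out out) (fneg (fadd out out out)), fun ρ => ?_⟩
        have hr : (Term.func (L := LR) (l := 0) (Sum.inl ringFunc.one) ts).realize
            (Sum.elim (default : Empty → R) (fun i => ρ (pos i))) = 1 :=
          CompatibleRing.funMap_one (fun i => (ts i).realize _)
        rw [hr, (hSEQ R _).2.2.2.2.2.1, (hSEQ R _).2.2.2.1, (hSEQ R _).2.2.2.2.1, (hSEQ R _).2.2.1]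
        constructor
        · rintro ⟨h1, h2⟩
          have h3 : ρ out ≠ 0 := fun h => h2 (by rw [h]; simp)
          exact mul_left_cancel₀ h3 (by rw [h1, mul_one])
        · intro h
          rw [h]
          refine ⟨by simp, fun h2 => one_ne_zero (α := R) ?_⟩
          simp at h2
    · exact isEmptyElim g

theorem DFA_formula (hSEQ : S_SEQ) {n : ℕ} (ψ : LR.BoundedFormula Empty n) :
    ∀ (pos : Fin n → ℕ), ∃ φ : ℕ, ∀ ρ : ℕ → R, Sat R φ ρ ↔
      ψ.Realize (default : Empty → R) (fun i => ρ (pos i)) := by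
  induction ψ with
  | falsum =>
    intro pos
    refine ⟨fand (feq 0 0) (fneg (feq 0 0)), fun ρ => ?_⟩
    rw [(hSEQ R _).2.2.2.2.2.1, (hSEQ R _).2.2.2.2.1]
    constructor
    · rintro ⟨h1, h2⟩
      exact absurd h1 h2
    · intro h
      exact h.elim
  | equal t₁ t₂ =>
    intro pos
    obtain ⟨φ1, h1⟩ := DFA_term (R := R) hSEQ t₁ (fun i => pos i + 1) 0
    obtain ⟨φ2, h2⟩ := DFA_term (R := R) hSEQ t₂ (fun i => pos i + 1) 0
    refine ⟨fex (fand φ1 φ2), fun ρ => ?_⟩
    rw [(hSEQ R _).2.2.2.2.2.2]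
    constructor
    · rintro ⟨b, h⟩
      rw [(hSEQ R _).2.2.2.2.2.1, h1, h2] at h
      exact h.1.symm.trans h.2
    · intro h
      refine ⟨t₁.realize (Sum.elim (default : Empty → R) (fun i => ρ (pos i))), ?_⟩
      rw [(hSEQ R _).2.2.2.2.2.1, h1, h2]
      exact ⟨rfl, h⟩
  | @rel n l r ts =>
    intro pos
    rcases r with r | r
    · exact isEmptyElim r
    · cases r with
      | le =>
        obtain ⟨φ1, h1⟩ := DFA_term (R := R) hSEQ (ts 0) (fun i => pos i + 2) 1
        obtain ⟨φ2, h2⟩ := DFA_term (R := R) hSEQ (ts 1) (fun i => pos i + 2) 0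
        refine ⟨fex (fex (fand φ1 (fand φ2 (fneg (flt 0 1))))), fun ρ => ?_⟩
        have hr : (BoundedFormula.rel (L := LR) (l := 2) (Sum.inr orderRel.le) ts).Realize
            (default : Empty → R) (fun i => ρ (pos i)) ↔
            (ts 0).realize (Sum.elim (default : Empty → R) (fun i => ρ (pos i))) ≤
            (ts 1).realize (Sum.elim (default : Empty → R) (fun i => ρ (pos i))) :=
          relMap_leSymb (L := Language.order) (M := R)
            (fun i => (ts i).realize (Sum.elim (default : Empty → R) (fun i => ρ (pos i))))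
        rw [hr, (hSEQ R _).2.2.2.2.2.2]
        constructor
        · rintro ⟨b, h⟩
          rw [(hSEQ R _).2.2.2.2.2.2] at h
          obtain ⟨c, h⟩ := h
          rw [(hSEQ R _).2.2.2.2.2.1, (hSEQ R _).2.2.2.2.2.1, h1, h2, (hSEQ R _).2.2.2.2.1,
            (hSEQ R _).2.1] at h
          obtain ⟨h3, h4, h5⟩ := h
          change b = _ at h3
          change c = _ at h4
          change ¬ (c < b) at h5
          rw [not_lt, h3, h4] at h5
          exact h5
        · intro h
          refine ⟨(ts 0).realize (Sum.elim (default : Empty → R) (fun i => ρ (pos i))), ?_⟩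
          rw [(hSEQ R _).2.2.2.2.2.2]
          refine ⟨(ts 1).realize (Sum.elim (default : Empty → R) (fun i => ρ (pos i))), ?_⟩
          rw [(hSEQ R _).2.2.2.2.2.1, (hSEQ R _).2.2.2.2.2.1, h1, h2, (hSEQ R _).2.2.2.2.1,
            (hSEQ R _).2.1]
          exact ⟨rfl, rfl, not_lt.mpr h⟩
  | imp f₁ f₂ ih1 ih2 =>
    intro pos
    obtain ⟨φ1, h1⟩ := ih1 pos
    obtain ⟨φ2, h2⟩ := ih2 pos
    refine ⟨fneg (fand φ1 (fneg φ2)), fun ρ => ?_⟩
    rw [(hSEQ R _).2.2.2.2.1, (hSEQ R _).2.2.2.2.2.1, (hSEQ R _).2.2.2.2.1, h1, h2,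
      BoundedFormula.realize_imp]
    tauto
  | @all n f ih =>
    intro pos
    obtain ⟨φ1, h1⟩ := ih (Fin.snoc (α := fun _ => ℕ) (fun i => pos i + 1) 0)
    refine ⟨fneg (fex (fneg φ1)), fun ρ => ?_⟩
    have hpos : ∀ a : R, (fun j => cns a ρ ((Fin.snoc (α := fun _ => ℕ) (fun i => pos i + 1) 0 : Fin (n + 1) → ℕ) j)) =
        (Fin.snoc (fun i => ρ (pos i)) a : Fin (n + 1) → R) := by
      intro a
      funext j
      refine Fin.lastCases ?_ (fun i => ?_) j
      · rw [Fin.snoc_last, Fin.snoc_last]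
        rfl
      · rw [Fin.snoc_castSucc, Fin.snoc_castSucc]
        rfl
    rw [(hSEQ R _).2.2.2.2.1, (hSEQ R _).2.2.2.2.2.2, BoundedFormula.realize_all]
    constructor
    · intro h a
      by_contra hcon
      apply h
      refine ⟨a, ?_⟩
      rw [(hSEQ R _).2.2.2.2.1, h1, hpos]
      exact hcon
    · rintro h ⟨a, ha⟩
      rw [(hSEQ R _).2.2.2.2.1, h1, hpos] at ha
      exact ha (h a)

end

/-- block DFA -/
theorem p_DFA (hSEQ : S_SEQ) : S_DFA := by
  intro R _ _ _ _ _ _ Ds hD
  obtain ⟨m, ψ, b, hψ⟩ := Pool.Agent.Work.MP_e5ffe1_h93.def_repr (R := R) hD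
  obtain ⟨φ, hφ⟩ := DFA_formula (R := R) hSEQ ψ (Fin.snoc (α := fun _ => ℕ) (fun i => (i : ℕ) + 1) 0)
  refine ⟨φ, fun i => if h : i < m then b ⟨i, h⟩ else 0, ⟨m, fun i hi => dif_neg (by omega)⟩, fun x => ?_⟩
  rw [hψ, hφ]
  have h1 : (fun j => cns x (fun i => if h : i < m then b ⟨i, h⟩ else 0)
      ((Fin.snoc (α := fun _ => ℕ) (fun i : Fin m => (i : ℕ) + 1) 0 : Fin (m + 1) → ℕ) j)) =
      (Fin.snoc b x : Fin (m + 1) → R) := by
    funext j
    refine Fin.lastCases ?_ (fun i => ?_) j
    · rw [Fin.snoc_last, Fin.snoc_last]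
      rfl
    · rw [Fin.snoc_castSucc, Fin.snoc_castSucc]
      show (if h : (i : ℕ) < m then b ⟨i, h⟩ else 0) = b i
      rw [dif_pos i.2]
  rw [h1]

end Pool.E5
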