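import Pool.Agent.Work.MP_e5ffe1_all.Interface2

set_option autoImplicit false

namespace Pool.E5

open FirstOrder FirstOrder.Language FirstOrder.Ring

/-- product of terms -/
def DFB_mul {α : Type} (t s : LR.Term α) : LR.Term α :=
  Term.func (l := 2) (Sum.inl ringFunc.mul : LR.Functions 2) ![t, s]
/-- sum of terms -/
def DFB_add {α : Type} (t s : LR.Term α) : LR.Term α :=
  Term.func (l := 2) (Sum.inl ringFunc.add : LR.Functions 2) ![t, s]
/-- one -/
def DFB_one {α : Type} : LR.Term α :=
  Term.func (l := 0) (Sum.inl ringFunc.one : LR.Functions 0) ![]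

section
variable {R : Type} [CommRing R] [FirstOrder.Ring.CompatibleRing R] [FirstOrder.Language.order.Structure R]
variable {α : Type} (v : α → R)

theorem DFB_mul_r (t s : LR.Term α) : (DFB_mul t s).realize v = t.realize v * s.realize v := by
  have h := CompatibleRing.funMap_mul (R := R) (fun i => ((![t, s] : Fin 2 → LR.Term α) i).realize v)
  exact h

theorem DFB_add_r (t s : LR.Term α) : (DFB_add t s).realize v = t.realize v + s.realize v := by
  have h := CompatibleRing.funMap_add (R := R) (fun i => ((![t, s] : Fin 2 → LR.Term α) i).realize v)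
  exact h

theorem DFB_one_r : (DFB_one : LR.Term α).realize v = 1 := by
  have h := CompatibleRing.funMap_one (R := R) (fun i => ((![] : Fin 0 → LR.Term α) i).realize v)
  exact h

end

theorem p_DFB : S_DFB := by
  intro R _ _ _ _ _ _ b c
  rw [Set.definable_iff_exists_formula_sum]
  let φ : LR.Formula ((Set.univ : Set R) ⊕ Fin 1) :=
    ∃' (BoundedFormula.equal (L := LR) (α := (Set.univ : Set R) ⊕ Fin 1) (n := 1)
      (Term.var (Sum.inl (Sum.inl ⟨c, Set.mem_univ c⟩)))
      (DFB_mul (DFB_add DFB_one (DFB_mul (DFB_add (Term.var (Sum.inl (Sum.inr 0))) DFB_one)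
        (Term.var (Sum.inl (Sum.inl ⟨b, Set.mem_univ b⟩))))) (Term.var (Sum.inr 0))))
  refine ⟨φ, ?_⟩
  ext v
  change (1 + (v 0 + 1) * b) ∣ c ↔ φ.Realize (Sum.elim (↑) v)
  unfold φ
  rw [Formula.Realize, BoundedFormula.realize_ex]
  constructor
  · rintro ⟨y, hy⟩
    refine ⟨y, ?_⟩
    change c = _
    rw [DFB_mul_r, DFB_add_r, DFB_one_r, DFB_mul_r, DFB_add_r, DFB_one_r]
    exact hy
  · rintro ⟨y, hy⟩
    refine ⟨y, ?_⟩
    change c = _ at hy
    rw [DFB_mul_r, DFB_add_r, DFB_one_r, DFB_mul_r, DFB_add_r, DFB_one_r] at hy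
    exact hy

end Pool.E5
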