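import Pool.Agent.Work.MP_e5ffe1_all.Interface1

set_option autoImplicit false

/-!
# Block EGT (helper18)
-/

namespace Pool.E5

theorem EGT_form {n : ℕ} (h : n % 9 = 7) : n = ccons (hd n) (tl n) := by
  unfold hd tl ccons
  rw [if_pos h, if_pos h, Nat.pair_unpair]
  omega

theorem EGT_hd (a e : ℕ) : hd (ccons a e) = a := by
  unfold hd ccons
  have h1 : (9 * Nat.pair a e + 7) % 9 = 7 := by omega
  have h2 : (9 * Nat.pair a e + 7) / 9 = Nat.pair a e := by omega
  simp [h1, h2]

theorem EGT_tl (a e : ℕ) : tl (ccons a e) = e := by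
  unfold tl ccons
  have h1 : (9 * Nat.pair a e + 7) % 9 = 7 := by omega
  have h2 : (9 * Nat.pair a e + 7) / 9 = Nat.pair a e := by omega
  simp [h1, h2]

theorem EGT_tag (r n : ℕ) : ext r n % 9 = n % 9 := by
  rw [ext]
  by_cases h2 : n % 9 = 2
  · rw [if_pos h2]; unfold clab; omega
  · rw [if_neg h2]
    by_cases h5 : n % 9 = 5
    · rw [dif_pos h5]; unfold cneg; omega
    · rw [dif_neg h5]
      by_cases h6 : n % 9 = 6
      · rw [dif_pos h6]; unfold chen; omega
      · rw [dif_neg h6]
        by_cases h3 : n % 9 = 3 ∨ n % 9 = 4 ∨ n % 9 = 7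
        · rw [dif_pos h3]; omega
        · rw [dif_neg h3]

theorem p_EGT (hEXQ : S_EXQ) : S_EGT := by
  obtain ⟨_, _, _, _, _, _, _, _, _, _, _, _, _, _, _, hlc, _, hl0, _, _, _, _, _, _, _, hec, _,
    he0, _, _⟩ := hEXQ
  have hh : ∀ r n, hd (ext r n) = ext r (hd n) := by
    intro r n
    by_cases h : n % 9 = 7
    · conv_lhs => rw [EGT_form h, hec, EGT_hd]
    · have h' : ext r n % 9 ≠ 7 := by rw [EGT_tag]; exact h
      have e1 : hd (ext r n) = 0 := if_neg h'
      have e2 : hd n = 0 := if_neg h
      rw [e1, e2, he0]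
  have ht : ∀ r n, tl (ext r n) = ext r (tl n) := by
    intro r n
    by_cases h : n % 9 = 7
    · conv_lhs => rw [EGT_form h, hec, EGT_tl]
    · have h' : ext r n % 9 ≠ 7 := by rw [EGT_tag]; exact h
      have e1 : tl (ext r n) = 0 := if_neg h'
      have e2 : tl n = 0 := if_neg h
      rw [e1, e2, he0]
  have lh : ∀ k n, lvb k n = true → lvb k (hd n) = true ∧ lvb k (tl n) = true := by
    intro k n hn
    by_cases h : n % 9 = 7
    · rw [EGT_form h, hlc, Bool.and_eq_true] at hn
      exact hn
    · have e1 : hd n = 0 := if_neg h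
      have e2 : tl n = 0 := if_neg h
      rw [e1, e2]
      exact ⟨hl0 k, hl0 k⟩
  constructor
  · intro r e i
    unfold get
    have : tl^[i] (ext r e) = ext r (tl^[i] e) := by
      induction i with
      | zero => rfl
      | succ i ih => rw [Function.iterate_succ_apply', Function.iterate_succ_apply', ih, ht]
    rw [this, hh]
  · intro k e i he
    unfold get
    have : lvb k (tl^[i] e) = true := by
      induction i with
      | zero => exact he
      | succ i ih => rw [Function.iterate_succ_apply']; exact (lh k _ ih).2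
    exact (lh k _ this).1

end Pool.E5
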