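import Pool.Agent.Work.MP_e5ffe1_all.Interface2

set_option autoImplicit false

namespace Pool.E5

theorem p_ENV : S_ENV := by
  intro T D hD R _ _ q hq ρ hρ
  obtain ⟨m, hm⟩ := hρ
  induction m generalizing ρ with
  | zero =>
    refine ⟨D.zero, fun i => ?_⟩
    rw [hD.get_nil, hq.zero', hm i (Nat.zero_le _)]
  | succ m ih =>
    obtain ⟨e, he⟩ := ih (fun i => ρ (i + 1)) (fun i hi => hm (i + 1) (by omega))
    obtain ⟨t, ht⟩ := hq.surj (ρ 0)
    refine ⟨D.cons t e, fun i => ?_⟩
    cases i with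
    | zero => rw [hD.get_zero, ht]
    | succ i => rw [hD.get_succ, he]

end Pool.E5
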