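import Pool.Agent.Work.MP_e5ffe1_all.Interface1

set_option autoImplicit false

/-!
Block EVQ (helper39).
-/

namespace Pool.E5

theorem p_EVQ : S_EVQ := by
  intro J I
  have h0 : ev J I 0 = 0 := by
    rw [ev.eq_def J I 0]
    simp
  have h1 : ev J I co = 1 := by
    rw [ev.eq_def J I co]
    unfold co
    simp
  have h3 : ∀ a b, ev J I (cadd a b) = ev J I a + ev J I b := by
    intro a b
    rw [ev.eq_def J I (cadd a b)]
    have e : cadd a b / 9 = Nat.pair a b := by unfold cadd; omega
    have m : cadd a b % 9 = 3 := by unfold cadd; omega
    rw [if_neg (by omega), if_neg (by omega), dif_pos m, e, Nat.unpair_pair]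
  refine ⟨h0, h1, ?_, h3, ?_, ?_, ?_, ?_, ?_⟩
  · intro s
    rw [ev.eq_def J I (clab s)]
    have e : clab s / 9 = s := by unfold clab; omega
    have m : clab s % 9 = 2 := by unfold clab; omega
    rw [if_neg (by omega), if_pos m, e]
  · intro a b
    rw [ev.eq_def J I (cmul a b)]
    have e : cmul a b / 9 = Nat.pair a b := by unfold cmul; omega
    have m : cmul a b % 9 = 4 := by unfold cmul; omega
    rw [if_neg (by omega), if_neg (by omega), dif_neg (by omega), dif_pos m, e, Nat.unpair_pair]
  · intro a
    rw [ev.eq_def J I (cneg a)]
    have e : cneg a / 9 = a := by unfold cneg; omega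
    have m : cneg a % 9 = 5 := by unfold cneg; omega
    rw [if_neg (by omega), if_neg (by omega), dif_neg (by omega), dif_neg (by omega), dif_pos m, e]
  · intro φ e'
    rw [ev.eq_def J I (chen φ e')]
    have e : chen φ e' / 9 = Nat.pair φ e' := by unfold chen; omega
    have m : chen φ e' % 9 = 6 := by unfold chen; omega
    rw [if_neg (by omega), if_neg (by omega), dif_neg (by omega), dif_neg (by omega),
      dif_neg (by omega), dif_pos m, e, Nat.unpair_pair]
  · intro i
    rw [ev.eq_def J I (cpar i)]
    have e : cpar i / 9 = i := by unfold cpar; omega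
    have m : cpar i % 9 = 8 := by unfold cpar; omega
    rw [if_neg (by omega), if_neg (by omega), dif_neg (by omega), dif_neg (by omega),
      dif_neg (by omega), dif_neg (by omega), if_pos m, e]
  · intro n
    induction n with
    | zero => exact h0
    | succ n ih =>
      rw [num, h3, ih, h1]
      push_cast
      ring

end Pool.E5
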