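import Pool.Agent.Work.MP_e5ffe1_all.Interface1

/-!
# Block EXQ: equations of sz, lvb, ext
-/

set_option autoImplicit false

namespace Pool.E5

theorem EXQ_m (m t : ℕ) (h : t < 9) : (9 * m + t) % 9 = t := by omega
theorem EXQ_d (m t : ℕ) (h : t < 9) : (9 * m + t) / 9 = m := by omega
theorem EXQ_m0 (m : ℕ) : (9 * m + 5) % 9 = 5 := by omega

theorem EXQ_sz2 (n : ℕ) (h : n % 9 = 2) : sz n = 1 := by rw [sz, if_pos h]
theorem EXQ_sz5 (n : ℕ) (h : n % 9 = 5) : sz n = sz (n / 9) + 1 := by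
  rw [sz, if_neg (by omega), dif_pos h]
theorem EXQ_sz6 (n : ℕ) (h : n % 9 = 6) :
    sz n = (Nat.unpair (n / 9)).1 + sz (Nat.unpair (n / 9)).2 + 1 := by
  rw [sz, if_neg (by omega), dif_neg (by omega), dif_pos h]
theorem EXQ_sz7 (n : ℕ) (h : n % 9 = 3 ∨ n % 9 = 4 ∨ n % 9 = 7) :
    sz n = sz (Nat.unpair (n / 9)).1 + sz (Nat.unpair (n / 9)).2 + 1 := by
  rw [sz, if_neg (by omega), dif_neg (by omega), dif_neg (by omega), dif_pos h]
theorem EXQ_sz0 (n : ℕ) (h : n % 9 = 0 ∨ n % 9 = 1 ∨ n % 9 = 8) : sz n = n + 1 := by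
  rw [sz, if_neg (by omega), dif_neg (by omega), dif_neg (by omega), dif_neg (by omega)]

theorem EXQ_lv2 (k n : ℕ) (h : n % 9 = 2) :
    lvb k n = (decide (2 ^ k ≤ n / 9) && decide (n / 9 < 2 ^ (k + 1))) := by rw [lvb, if_pos h]
theorem EXQ_lv5 (k n : ℕ) (h : n % 9 = 5) : lvb k n = lvb k (n / 9) := by
  rw [lvb, if_neg (by omega), dif_pos h]
theorem EXQ_lv6 (k n : ℕ) (h : n % 9 = 6) : lvb k n = lvb k (Nat.unpair (n / 9)).2 := by
  rw [lvb, if_neg (by omega), dif_neg (by omega), dif_pos h]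
theorem EXQ_lv7 (k n : ℕ) (h : n % 9 = 3 ∨ n % 9 = 4 ∨ n % 9 = 7) :
    lvb k n = (lvb k (Nat.unpair (n / 9)).1 && lvb k (Nat.unpair (n / 9)).2) := by
  rw [lvb, if_neg (by omega), dif_neg (by omega), dif_neg (by omega), dif_pos h]
theorem EXQ_lv0 (k n : ℕ) (h : n % 9 = 0 ∨ n % 9 = 1 ∨ n % 9 = 8) : lvb k n = true := by
  rw [lvb, if_neg (by omega), dif_neg (by omega), dif_neg (by omega), dif_neg (by omega)]

theorem EXQ_ex2 (r n : ℕ) (h : n % 9 = 2) : ext r n = clab (chd r (n / 9)) := by rw [ext, if_pos h]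
theorem EXQ_ex5 (r n : ℕ) (h : n % 9 = 5) : ext r n = cneg (ext r (n / 9)) := by
  rw [ext, if_neg (by omega), dif_pos h]
theorem EXQ_ex6 (r n : ℕ) (h : n % 9 = 6) :
    ext r n = chen (Nat.unpair (n / 9)).1 (ext r (Nat.unpair (n / 9)).2) := by
  rw [ext, if_neg (by omega), dif_neg (by omega), dif_pos h]
theorem EXQ_ex7 (r n : ℕ) (h : n % 9 = 3 ∨ n % 9 = 4 ∨ n % 9 = 7) :
    ext r n = 9 * Nat.pair (ext r (Nat.unpair (n / 9)).1) (ext r (Nat.unpair (n / 9)).2) + n % 9 := by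
  rw [ext, if_neg (by omega), dif_neg (by omega), dif_neg (by omega), dif_pos h]
theorem EXQ_ex0 (r n : ℕ) (h : n % 9 = 0 ∨ n % 9 = 1 ∨ n % 9 = 8) : ext r n = n := by
  rw [ext, if_neg (by omega), dif_neg (by omega), dif_neg (by omega), dif_neg (by omega)]

theorem EXQ_szadd (a b : ℕ) : sz (cadd a b) = sz a + sz b + 1 := by
  unfold cadd
  rw [EXQ_sz7 _ (by omega), EXQ_d _ _ (by norm_num), Nat.unpair_pair]

theorem EXQ_lvadd (k a b : ℕ) : lvb k (cadd a b) = (lvb k a && lvb k b) := by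
  unfold cadd
  rw [EXQ_lv7 _ _ (by omega), EXQ_d _ _ (by norm_num), Nat.unpair_pair]

theorem EXQ_exadd (r a b : ℕ) : ext r (cadd a b) = cadd (ext r a) (ext r b) := by
  unfold cadd
  rw [EXQ_ex7 _ _ (by omega), EXQ_d _ _ (by norm_num), Nat.unpair_pair, EXQ_m _ _ (by norm_num)]

theorem p_EXQ : S_EXQ := by
  refine ⟨fun s => ?_, EXQ_szadd, fun a b => ?_, fun a => ?_, fun φ e => ?_, fun a e => ?_, fun i => ?_,
    ?_, ?_, fun n => ?_, fun k s => ?_, EXQ_lvadd, fun k a b => ?_, fun k a => ?_, fun k φ e => ?_,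
    fun k a e => ?_, fun k i => ?_, fun k => ?_, fun k => ?_, fun k n => ?_, fun r s => ?_, EXQ_exadd,
    fun r a b => ?_, fun r a => ?_, fun r φ e => ?_, fun r a e => ?_, fun r i => ?_, fun r => ?_,
    fun r => ?_, fun r n => ?_⟩
  · unfold clab
    exact EXQ_sz2 _ (by omega)
  · unfold cmul
    rw [EXQ_sz7 _ (by omega), EXQ_d _ _ (by norm_num), Nat.unpair_pair]
  · unfold cneg
    rw [EXQ_sz5 _ (by omega), EXQ_d _ _ (by norm_num)]
  · unfold chen
    rw [EXQ_sz6 _ (by omega), EXQ_d _ _ (by norm_num), Nat.unpair_pair]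
  · unfold ccons
    rw [EXQ_sz7 _ (by omega), EXQ_d _ _ (by norm_num), Nat.unpair_pair]
  · exact EXQ_sz0 _ (by unfold cpar; omega)
  · exact EXQ_sz0 _ (by omega)
  · exact EXQ_sz0 _ (by unfold co; omega)
  · induction n with
    | zero => exact EXQ_sz0 _ (by unfold num; omega)
    | succ n ih =>
      rw [num, EXQ_szadd, ih, EXQ_sz0 co (by unfold co; omega)]
      unfold co
      omega
  · unfold clab
    rw [EXQ_lv2 _ _ (by omega), EXQ_d _ _ (by norm_num), Bool.and_eq_true, decide_eq_true_iff,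
      decide_eq_true_iff]
  · unfold cmul
    rw [EXQ_lv7 _ _ (by omega), EXQ_d _ _ (by norm_num), Nat.unpair_pair]
  · unfold cneg
    rw [EXQ_lv5 _ _ (by omega), EXQ_d _ _ (by norm_num)]
  · unfold chen
    rw [EXQ_lv6 _ _ (by omega), EXQ_d _ _ (by norm_num), Nat.unpair_pair]
  · unfold ccons
    rw [EXQ_lv7 _ _ (by omega), EXQ_d _ _ (by norm_num), Nat.unpair_pair]
  · exact EXQ_lv0 _ _ (by unfold cpar; omega)
  · exact EXQ_lv0 _ _ (by omega)
  · exact EXQ_lv0 _ _ (by unfold co; omega)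
  · induction n with
    | zero => exact EXQ_lv0 _ _ (by unfold num; omega)
    | succ n ih =>
      rw [num, EXQ_lvadd, ih, EXQ_lv0 k co (by unfold co; omega)]
      rfl
  · unfold clab
    rw [EXQ_ex2 _ _ (by omega), EXQ_d _ _ (by norm_num)]
    rfl
  · unfold cmul
    rw [EXQ_ex7 _ _ (by omega), EXQ_d _ _ (by norm_num), Nat.unpair_pair, EXQ_m _ _ (by norm_num)]
  · unfold cneg
    rw [EXQ_ex5 _ _ (by omega), EXQ_d _ _ (by norm_num)]
    rfl
  · unfold chen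
    rw [EXQ_ex6 _ _ (by omega), EXQ_d _ _ (by norm_num), Nat.unpair_pair]
    rfl
  · unfold ccons
    rw [EXQ_ex7 _ _ (by omega), EXQ_d _ _ (by norm_num), Nat.unpair_pair, EXQ_m _ _ (by norm_num)]
  · exact EXQ_ex0 _ _ (by unfold cpar; omega)
  · exact EXQ_ex0 _ _ (by omega)
  · exact EXQ_ex0 _ _ (by unfold co; omega)
  · induction n with
    | zero => exact EXQ_ex0 _ _ (by unfold num; omega)
    | succ n ih => rw [num, EXQ_exadd, ih, EXQ_ex0 r co (by unfold co; omega)]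

end Pool.E5
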