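import Pool.Agent.Work.MP_e5ffe1_all.Interface1

/-!
Block FND: induction on formula codes.
-/

set_option autoImplicit false

namespace Pool.E5

theorem FND_pair (m : ℕ) : ∃ i j, m = Nat.pair i j ∧ i ≤ m ∧ j ≤ m :=
  ⟨(Nat.unpair m).1, (Nat.unpair m).2, (Nat.pair_unpair m).symm, Nat.unpair_left_le m,
    Nat.unpair_right_le m⟩

theorem p_FND : S_FND := by
  intro P h0 h1 h2 h3 h4 h5 h6 n
  induction n using Nat.strong_induction_on with
  | _ n ih =>
    have hn : n = 7 * (n / 7) + n % 7 := (Nat.div_add_mod n 7).symm
    have hlt : n % 7 < 7 := Nat.mod_lt _ (by norm_num)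
    obtain ⟨i, j, hij, hi, hj⟩ := FND_pair (n / 7)
    obtain ⟨j', k', hjk, -, -⟩ := FND_pair j
    have hcase : n % 7 = 0 ∨ n % 7 = 1 ∨ n % 7 = 2 ∨ n % 7 = 3 ∨ n % 7 = 4 ∨ n % 7 = 5 ∨
        n % 7 = 6 := by omega
    rcases hcase with h | h | h | h | h | h | h
    · have e : n = feq i j := by
        unfold feq
        rw [← hij]
        omega
      rw [e]
      exact h0 i j
    · have e : n = flt i j := by
        unfold flt
        rw [← hij]
        omega
      rw [e]
      exact h1 i j
    · have e : n = fadd i j' k' := by
        unfold fadd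
        rw [← hjk, ← hij]
        omega
      rw [e]
      exact h2 i j' k'
    · have e : n = fmul i j' k' := by
        unfold fmul
        rw [← hjk, ← hij]
        omega
      rw [e]
      exact h3 i j' k'
    · have e : n = fneg (n / 7) := by
        unfold fneg
        omega
      rw [e]
      exact h4 _ (ih _ (by omega))
    · have e : n = fand i j := by
        unfold fand
        rw [← hij]
        omega
      rw [e]
      exact h5 i j (ih _ (by omega)) (ih _ (by omega))
    · have e : n = fex (n / 7) := by
        unfold fex
        omega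
      rw [e]
      exact h6 _ (ih _ (by omega))

end Pool.E5
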