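import Pool.Agent.Work.MP_e5ffe1_all.Interface1

set_option autoImplicit false

/-!
# Block GET (helper60)
-/

namespace Pool.E5

theorem p_GET : S_GET := by
  have hhd : ∀ a e, hd (ccons a e) = a := by
    intro a e
    unfold hd ccons
    have h1 : (9 * Nat.pair a e + 7) % 9 = 7 := by omega
    have h2 : (9 * Nat.pair a e + 7) / 9 = Nat.pair a e := by omega
    simp [h1, h2]
  have htl : ∀ a e, tl (ccons a e) = e := by
    intro a e
    unfold tl ccons
    have h1 : (9 * Nat.pair a e + 7) % 9 = 7 := by omega
    have h2 : (9 * Nat.pair a e + 7) / 9 = Nat.pair a e := by omega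
    simp [h1, h2]
  have hhd0 : hd 0 = 0 := by
    simp [hd]
  have htl0 : tl 0 = 0 := by
    simp [tl]
  refine ⟨fun a e => ?_, fun a e i => ?_, fun i => ?_⟩
  · simp [get, hhd]
  · simp [get, htl, Function.iterate_succ]
  · have h : tl^[i] 0 = 0 := by
      induction i with
      | zero => rfl
      | succ i ih => rw [Function.iterate_succ_apply', ih, htl0]
    simp [get, h, hhd0]

end Pool.E5
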