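import Pool.Agent.Work.MP_e5ffe1_all.Interface1

/-! # Theorem E, block GRW -/

set_option autoImplicit false

namespace Pool.E5

theorem GRW_succ (m : ℕ) : stt (m + 1) =
    ((stt m).1 * MM m, (stt m).2.1 * MM m ^ (2 * (stt m).1),
      (tt m * (stt m).2.1 + (stt m).2.2) * MM m ^ (stt m).1) := rfl

theorem GRW_gen (l : ℕ) : ∀ m : ℕ, Gr l (stt m).1 (fun n => MM (m + n))
    (fun n => if n = 0 then tt m * (stt m).2.1 + (stt m).2.2 else tt (m + n) * (stt m).2.1) := by
  induction l with
  | zero => exact fun _ => trivial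
  | succ l ih =>
    intro m
    have h := ih (m + 1)
    rw [GRW_succ] at h
    refine ⟨?_, ?_⟩
    · exact le_of_eq rfl
    · have e1 : (fun n => MM (m + 1 + n)) = fun n => MM (m + (n + 1)) := by
        funext n
        rw [add_assoc, add_comm 1 n]
      have e2 : (fun n => if n = 0 then tt (m + 1) * ((stt m).2.1 * MM m ^ (2 * (stt m).1)) +
            (tt m * (stt m).2.1 + (stt m).2.2) * MM m ^ (stt m).1
          else tt (m + 1 + n) * ((stt m).2.1 * MM m ^ (2 * (stt m).1))) =
          (fun n => if n = 0 then (tt (m + 1) * (stt m).2.1) * MM m ^ (2 * (stt m).1) +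
            (tt m * (stt m).2.1 + (stt m).2.2) * MM m ^ (stt m).1
          else (tt (m + (n + 1)) * (stt m).2.1) * MM m ^ (2 * (stt m).1)) := by
        funext n
        by_cases hn : n = 0
        · rw [if_pos hn, if_pos hn, mul_assoc]
        · rw [if_neg hn, if_neg hn, mul_assoc, add_assoc, add_comm 1 n]
      simp only at h
      rw [e1, e2] at h
      simpa only [Nat.add_eq_zero_iff, one_ne_zero, and_false, if_false, add_zero, if_true] using h

theorem p_GRW : S_GRW := by
  intro l
  have h := GRW_gen l 0
  have e0 : stt 0 = (1, 1, 0) := rfl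
  have e1 : (fun n => MM (0 + n)) = MM := by
    funext n
    rw [zero_add]
  have e2 : (fun n => if n = 0 then tt 0 * (stt 0).2.1 + (stt 0).2.2
      else tt (0 + n) * (stt 0).2.1) = tt := by
    funext n
    rw [e0]
    by_cases hn : n = 0
    · rw [if_pos hn, hn, mul_one, add_zero]
    · rw [if_neg hn, mul_one, zero_add]
  rw [e1, e2] at h
  rw [e0] at h
  exact h

end Pool.E5
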