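import Pool.Agent.Work.MP_e5ffe1_all.Interface1

set_option autoImplicit false

namespace Pool.E5

theorem HOG_pre_succ (x : ℕ → Bool) (m : ℕ) :
    pre x (m + 1) = x 0 :: pre (fun i => x (i + 1)) m := by
  unfold pre
  rw [List.range_succ_eq_map, List.map_cons, List.map_map]
  rfl

/-- put a value in front -/
def HOG_sh (i : ℕ) (p : ℕ → ℕ) : ℕ → ℕ
  | 0 => i
  | n + 1 => p n

/-- the new choice function -/
def HOG_a {κ : Type} {N : ℕ} (A : κ → Bool → Fin N) (a' : κ × Fin N → List Bool → Bool → ℕ) (c : κ) :
    List Bool → Bool → ℕ
  | [], b => (A c b : ℕ)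
  | b' :: u, b => a' (c, A c b') u b

theorem HOG_key {κ : Type} {N : ℕ} (A : κ → Bool → Fin N) (a' : κ × Fin N → List Bool → Bool → ℕ)
    (c : κ) (x : ℕ → Bool) :
    pth (HOG_a A a' c) x =
      HOG_sh (A c (x 0)) (pth (a' (c, A c (x 0))) (fun i => x (i + 1))) := by
  funext m
  cases m with
  | zero => rfl
  | succ m =>
    change HOG_a A a' c (pre x (m + 1)) (x (m + 1)) =
      a' (c, A c (x 0)) (pre (fun i => x (i + 1)) m) (x (m + 1))
    rw [HOG_pre_succ]
    rfl

/-- the new tests -/
def HOG_T (T : ℕ → Type) (κ : Type) (N n : ℕ) : Type :=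
  (T (n + 1) × (κ → Bool → Fin N)) ⊕ {_x : T 0 × (κ → Fin N) // n = 0}

instance HOG_inst (T : ℕ → Type) [∀ n, Fintype (T n)] (κ : Type) [Fintype κ] [DecidableEq κ]
    (N n : ℕ) : Fintype (HOG_T T κ N n) := by
  unfold HOG_T
  infer_instance

theorem HOG_card (T : ℕ → Type) [∀ n, Fintype (T n)] (κ : Type) [Fintype κ] [DecidableEq κ]
    (N n : ℕ) : Fintype.card (HOG_T T κ N n) ≤
      Fintype.card (T (n + 1)) * N ^ (2 * Fintype.card κ) +
        (if n = 0 then Fintype.card (T 0) * N ^ Fintype.card κ else 0) := by
  have h1 : Fintype.card (HOG_T T κ N n) =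
      Fintype.card (T (n + 1) × (κ → Bool → Fin N)) +
        Fintype.card {_x : T 0 × (κ → Fin N) // n = 0} := by
    unfold HOG_inst HOG_T
    exact Fintype.card_sum
  rw [h1]
  apply Nat.add_le_add
  · apply le_of_eq
    rw [Fintype.card_prod, Fintype.card_fun, Fintype.card_fun, Fintype.card_fin, Fintype.card_bool,
      ← pow_mul]
  · split_ifs with h
    · refine (Fintype.card_subtype_le _).trans (le_of_eq ?_)
      rw [Fintype.card_prod, Fintype.card_fun, Fintype.card_fin]
    · have : IsEmpty {_x : T 0 × (κ → Fin N) // n = 0} := ⟨fun x => h x.2⟩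
      rw [Fintype.card_eq_zero]

/-- the new test predicates -/
def HOG_test {T : ℕ → Type} {κ : Type} {α : Type} (N : ℕ)
    (test : (n : ℕ) → T n → (κ → List Bool → α) → Prop) (n : ℕ) (τ : HOG_T T κ N n)
    (F : κ × Fin N → List Bool → α) : Prop :=
  match τ with
  | Sum.inl q => test (n + 1) q.1 (fun c u => F (c, q.2 c (u.headD false)) u.tail)
  | Sum.inr q => test 0 q.1.1 (fun c _ => F (c, q.1.2 c) [])

theorem p_HOG (hPRL : S_PRL) : S_HOG := by
  classical
  intro l
  induction l with
  | zero =>
    intro κ _ _ M t T _ α leaf test _ _ _ _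
    refine ⟨fun _ _ _ => 0, fun c u hu => absurd hu (Nat.not_lt_zero _), fun n hn => ?_⟩
    exact absurd hn (Nat.not_lt_zero _)
  | succ l ih =>
    intro κ _ _ M t T _ α leaf test h1 h2 h3 h4
    obtain ⟨hg1, hg2⟩ := h2
    set N := M 0 with hN
    obtain ⟨a', A1, A2⟩ := ih (κ × Fin N) (fun n => M (n + 1))
      (fun n => if n = 0 then t 1 * M 0 ^ (2 * Fintype.card κ) + t 0 * M 0 ^ Fintype.card κ
        else t (n + 1) * M 0 ^ (2 * Fintype.card κ))
      (HOG_T T κ N) α (fun c p => leaf c.1 (HOG_sh c.2 p)) (HOG_test N test)
      (by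
        intro n
        refine (HOG_card T κ N n).trans ?_
        by_cases hn : n = 0
        · subst hn
          rw [if_pos rfl, if_pos rfl]
          exact Nat.add_le_add (Nat.mul_le_mul_right _ (h1 _)) (Nat.mul_le_mul_right _ (h1 _))
        · rw [if_neg hn, if_neg hn, Nat.add_zero]
          exact Nat.mul_le_mul_right _ (h1 _))
      (by
        rw [Fintype.card_prod, Fintype.card_fin]
        exact hg2)
      (by
        intro c p p' hp
        apply h3
        intro i hi
        cases i with
        | zero => rfl
        | succ i => exact hp i (by omega))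
      (by
        intro n τ F F' hF
        rcases τ with ⟨τ, f⟩ | ⟨⟨τ, g⟩, hn⟩
        · apply h4
          intro c u hu
          cases u with
          | nil => simp at hu
          | cons b u =>
            change F (c, f c b) u = F' (c, f c b) u
            exact hF _ _ (by simpa using hu)
        · apply h4
          intro c u _
          exact hF _ _ (by simpa using hn.symm))
    -- level 0 does not depend on the reals
    have hB : ∀ (τ : T 0) (g : κ → Fin N) (Z : κ → ℕ → Bool),
        (test 0 τ (fun c _ => leaf c (HOG_sh (g c) (pth (a' (c, g c)) (Z c)))) ↔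
          test 0 τ (fun c _ => leaf c (HOG_sh (g c) (pth (a' (c, g c)) (fun _ => false))))) := by
      intro τ g Z
      by_cases hl : l = 0
      · apply h4
        intro c u _
        apply h3
        intro i hi
        have hi0 : i = 0 := by omega
        rw [hi0]
        rfl
      · exact A2 0 (Nat.pos_of_ne_zero hl) (Sum.inr ⟨(τ, g), rfl⟩) (fun c _ => Z c.1)
          (fun _ _ _ => false) (fun c u hu => by
            rw [List.length_eq_zero_iff.1 hu]
            rfl) (fun c u hu => by
            rw [List.length_eq_zero_iff.1 hu]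
            rfl)
    -- product Ramsey
    obtain ⟨A, hA1, hA2⟩ := hPRL κ (T 0 → Bool) N (2 ^ t 0)
      (fun g τ => decide (test 0 τ
        (fun c _ => leaf c (HOG_sh (g c) (pth (a' (c, g c)) (fun _ => false))))))
      (by
        rw [Fintype.card_fun, Fintype.card_bool]
        exact Nat.pow_le_pow_right (by norm_num) (h1 0))
      (Nat.one_le_two_pow) hg1
    refine ⟨HOG_a A a', ?_, ?_⟩
    · intro c u hu
      cases u with
      | nil =>
        refine ⟨fun h => hA1 c (Fin.ext h), fun b => (A c b).isLt⟩
      | cons b u =>
        exact A1 (c, A c b) u (by simpa using hu)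
    · intro n hn τ X Y hX hY
      cases n with
      | zero =>
        have hred : ∀ X : κ → List Bool → (ℕ → Bool),
            (test 0 τ (fun c u => leaf c (pth (HOG_a A a' c) (X c u))) ↔
              test 0 τ (fun c _ => leaf c (HOG_sh (A c (X c [] 0))
                (pth (a' (c, A c (X c [] 0))) (fun _ => false))))) := by
          intro X
          refine Iff.trans (h4 0 τ _ (fun c _ => leaf c (HOG_sh (A c (X c [] 0))
            (pth (a' (c, A c (X c [] 0))) (fun i => X c [] (i + 1))))) ?_)
            (hB τ (fun c => A c (X c [] 0)) (fun c i => X c [] (i + 1)))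
          intro c u hu
          rw [List.length_eq_zero_iff.1 hu, HOG_key]
        rw [hred X, hred Y]
        have h := congrFun (hA2 (fun c => X c [] 0) (fun c => Y c [] 0)) τ
        exact decide_eq_decide.1 h
      | succ m =>
        set bs : κ → Fin N → Bool := fun c i => if i = A c true then true else false with hbs
        have hbsA : ∀ c b, bs c (A c b) = b := by
          intro c b
          cases b
          · exact if_neg (hA1 c)
          · exact if_pos rfl
        have hred : ∀ X : κ → List Bool → (ℕ → Bool),
            (∀ c u, u.length = m + 1 → pre (X c u) (m + 1) = u) →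
            (test (m + 1) τ (fun c u => leaf c (pth (HOG_a A a' c) (X c u))) ↔
              HOG_test N test m (Sum.inl (τ, A)) (fun c u => leaf c.1 (HOG_sh c.2
                (pth (a' c) (fun i => X c.1 (bs c.1 c.2 :: u) (i + 1)))))) := by
          intro X hX
          apply h4
          intro c u hu
          cases u with
          | nil => simp at hu
          | cons b u =>
            have e := hX c (b :: u) hu
            rw [HOG_pre_succ] at e
            have e0 : X c (b :: u) 0 = b := (List.cons.inj e).1
            change leaf c (pth (HOG_a A a' c) (X c (b :: u))) =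
              leaf c (HOG_sh (A c b) (pth (a' (c, A c b))
                (fun i => X c (bs c (A c b) :: u) (i + 1))))
            rw [HOG_key, e0, hbsA]
        have hpre : ∀ X : κ → List Bool → (ℕ → Bool),
            (∀ c u, u.length = m + 1 → pre (X c u) (m + 1) = u) →
            ∀ (c : κ × Fin N) (u : List Bool), u.length = m →
              pre (fun i => X c.1 (bs c.1 c.2 :: u) (i + 1)) m = u := by
          intro X hX c u hu
          have e := hX c.1 (bs c.1 c.2 :: u) (by simp [hu])
          rw [HOG_pre_succ] at e
          exact (List.cons.inj e).2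
        rw [hred X hX, hred Y hY]
        exact A2 m (by omega) (Sum.inl (τ, A))
          (fun c u i => X c.1 (bs c.1 c.2 :: u) (i + 1))
          (fun c u i => Y c.1 (bs c.1 c.2 :: u) (i + 1)) (hpre X hX) (hpre Y hY)

end Pool.E5
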