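import Pool.Agent.Work.MP_e5ffe1_all.Interface1

/-! # Block HOM (helper22) -/

set_option autoImplicit false

namespace Pool.E5

/-- heap index of a list -/
def HOM_h (u : List Bool) : ℕ := u.foldl (fun s b => 2 * s + b.toNat) 1

/-- the list of length `n` with heap index `s` -/
def HOM_l : ℕ → ℕ → List Bool
  | 0, _ => []
  | n + 1, s => HOM_l n (s / 2) ++ [decide (s % 2 = 1)]

theorem HOM_h_append (u : List Bool) (b : Bool) : HOM_h (u ++ [b]) = 2 * HOM_h u + b.toNat := by
  simp [HOM_h]

theorem HOM_l_length (n s : ℕ) : (HOM_l n s).length = n := by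
  induction n generalizing s with
  | zero => rfl
  | succ n ih => simp [HOM_l, ih]

theorem HOM_h_l (n s : ℕ) (h1 : 2 ^ n ≤ s) (h2 : s < 2 ^ (n + 1)) : HOM_h (HOM_l n s) = s := by
  induction n generalizing s with
  | zero =>
    have h3 : s = 1 := by
      simp only [pow_zero, zero_add, pow_one] at h1 h2
      omega
    rw [h3]
    rfl
  | succ n ih =>
    rw [HOM_l, HOM_h_append]
    have h3 : 2 ^ (n + 1) = 2 * 2 ^ n := by ring
    have h4 : 2 ^ (n + 1 + 1) = 2 * 2 ^ (n + 1) := by ring
    have h5 := ih (s / 2) (by omega) (by omega)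
    rw [h5]
    rcases Nat.mod_two_eq_zero_or_one s with h6 | h6
    · simp only [h6, zero_ne_one, decide_false, Bool.toNat_false]
      omega
    · simp only [h6, decide_true, Bool.toNat_true]
      omega

theorem HOM_l_h (u : List Bool) : HOM_l u.length (HOM_h u) = u ∧
    2 ^ u.length ≤ HOM_h u ∧ HOM_h u < 2 ^ (u.length + 1) := by
  induction u using List.reverseRecOn with
  | nil =>
    refine ⟨rfl, ?_, ?_⟩
    · simp [HOM_h]
    · simp [HOM_h]
  | append_singleton u b ih =>
    obtain ⟨h1, h2, h3⟩ := ih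
    rw [List.length_append, List.length_singleton, HOM_h_append]
    have h4 : 2 ^ (u.length + 1) = 2 * 2 ^ u.length := by ring
    have h5 : 2 ^ (u.length + 1 + 1) = 2 * 2 ^ (u.length + 1) := by ring
    cases b with
    | false =>
      refine ⟨?_, ?_, ?_⟩
      · rw [HOM_l]
        have h6 : (2 * HOM_h u + false.toNat) / 2 = HOM_h u := by
          simp only [Bool.toNat_false]
          omega
        have h7 : (2 * HOM_h u + false.toNat) % 2 = 0 := by
          simp only [Bool.toNat_false]
          omega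
        rw [h6, h1, h7]
        simp
      · simp only [Bool.toNat_false]
        omega
      · simp only [Bool.toNat_false]
        omega
    | true =>
      refine ⟨?_, ?_, ?_⟩
      · rw [HOM_l]
        have h6 : (2 * HOM_h u + true.toNat) / 2 = HOM_h u := by
          simp only [Bool.toNat_true]
          omega
        have h7 : (2 * HOM_h u + true.toNat) % 2 = 1 := by
          simp only [Bool.toNat_true]
          omega
        rw [h6, h1, h7]
        simp
      · simp only [Bool.toNat_true]
        omega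
      · simp only [Bool.toNat_true]
        omega

theorem HOM_pre_length (x : ℕ → Bool) (n : ℕ) : (pre x n).length = n := by simp [pre]

theorem HOM_idx (x : ℕ → Bool) (n : ℕ) : HOM_h (pre x n) = idx x n := by
  induction n with
  | zero => rfl
  | succ n ih =>
    have h1 : pre x (n + 1) = pre x n ++ [x n] := by
      simp [pre, List.range_succ]
    rw [h1, HOM_h_append, ih]
    rfl

theorem HOM_l_idx (x : ℕ → Bool) (n : ℕ) : HOM_l n (idx x n) = pre x n := by
  have h1 := (HOM_l_h (pre x n)).1
  rw [HOM_pre_length, HOM_idx] at h1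
  exact h1

theorem HOM_idx_lev (x : ℕ → Bool) (n : ℕ) : 2 ^ n ≤ idx x n ∧ idx x n < 2 ^ (n + 1) := by
  have h1 := (HOM_l_h (pre x n)).2
  rw [HOM_pre_length, HOM_idx] at h1
  exact h1

theorem HOM_log (n s : ℕ) (h1 : 2 ^ n ≤ s) (h2 : s < 2 ^ (n + 1)) : Nat.log 2 s = n :=
  Nat.log_eq_of_pow_le_of_lt_pow h1 h2

theorem p_HOM (hHOG : S_HOG) (hGRW : S_GRW) : S_HOM := by
  intro l α leaf test hleaf htest
  obtain ⟨a', ha1, ha2⟩ := hHOG l Unit MM tt (fun n => Fin (tt n)) α (fun _ p => leaf p)
    (fun n τ F => test n τ.val (fun s => F () (HOM_l n s)))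
    (fun n => by simp) (by simpa using hGRW l) (fun _ p p' h => hleaf p p' h)
    (fun n τ F F' h => htest n τ.val _ _ (fun s _ _ => h () _ (HOM_l_length n s)))
  have hpth : ∀ x : ℕ → Bool, pth (a' ()) x =
      fun m => (fun s b => a' () (HOM_l (Nat.log 2 s) s) b) (idx x m) (x m) := by
    intro x
    funext m
    obtain ⟨h1, h2⟩ := HOM_idx_lev x m
    show a' () (pre x m) (x m) = a' () (HOM_l (Nat.log 2 (idx x m)) (idx x m)) (x m)
    rw [HOM_log m _ h1 h2, HOM_l_idx]
  refine ⟨fun s b => a' () (HOM_l (Nat.log 2 s) s) b, ?_, ?_⟩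
  · intro m hm s hs1 hs2
    have h1 := ha1 () (HOM_l m s) (by rw [HOM_l_length]; exact hm)
    rw [HOM_l_length] at h1
    simp only [HOM_log m s hs1 hs2]
    exact h1
  · intro n hn j hj X Y hX hY
    have key : ∀ Z : ℕ → (ℕ → Bool),
        (test n j (fun s => leaf (pth (a' ()) (Z (HOM_h (HOM_l n s))))) ↔
          test n j (fun s => leaf (fun m =>
            (fun s b => a' () (HOM_l (Nat.log 2 s) s) b) (idx (Z s) m) (Z s m)))) := by
      intro Z
      apply htest
      intro s hs1 hs2
      rw [HOM_h_l n s hs1 hs2, hpth]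
    have hpre : ∀ Z : ℕ → (ℕ → Bool),
        (∀ s, 2 ^ n ≤ s → s < 2 ^ (n + 1) → idx (Z s) n = s) →
        ∀ (_ : Unit) (u : List Bool), u.length = n → pre (Z (HOM_h u)) n = u := by
      intro Z hZ _ u hu
      obtain ⟨h1, h2, h3⟩ := HOM_l_h u
      rw [hu] at h1 h2 h3
      have h4 := hZ (HOM_h u) h2 h3
      rw [← HOM_l_idx, h4, h1]
    have h1 := ha2 n hn ⟨j, hj⟩ (fun _ u => X (HOM_h u)) (fun _ u => Y (HOM_h u))
      (hpre X hX) (hpre Y hY)
    exact (key X).symm.trans (h1.trans (key Y))

end Pool.E5
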