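import Pool.Agent.Work.MP_e5ffe1_all.Interface2

set_option autoImplicit false

namespace Pool.E5

theorem p_IND (hTRU : S_TRU) (hENV : S_ENV) (hSEQ : S_SEQ) : S_IND := by
  intro T D hD R _ _ _ q hq hdis φ ρ hρ h0 hstep x hx
  by_contra hnx
  obtain ⟨m, hm⟩ := id hρ
  have hψ : ∀ y : R, Sat R (fand (fneg φ) (fneg (flt 0 (m + 1)))) (cns y ρ) ↔
      ¬ Sat R φ (cns y ρ) ∧ ¬ y < 0 := by
    intro y
    obtain ⟨_, hlt, _, _, hneg, hand, _⟩ := hSEQ R (cns y ρ)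
    rw [hand, hneg, hneg, hlt]
    have h1 : cns y ρ (m + 1) = 0 := hm m le_rfl
    have h2 : cns y ρ 0 = y := rfl
    rw [h1, h2]
  obtain ⟨e, he⟩ := hENV T D hD R q hq ρ hρ
  have henv : ∀ t : T, (fun i => q (D.get (D.cons t e) i)) = cns (q t) ρ := by
    intro t
    funext i
    cases i with
    | zero =>
      have h1 := hD.get_zero t e
      rw [h1]
      rfl
    | succ i =>
      have h1 := hD.get_succ t e i
      rw [h1]
      exact he i
  have hV : ∀ t : T, D.V (fand (fneg φ) (fneg (flt 0 (m + 1)))) (D.cons t e) ↔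
      ¬ Sat R φ (cns (q t) ρ) ∧ ¬ q t < 0 := by
    intro t
    rw [hTRU T D hD R q hq, henv t]
    exact hψ (q t)
  have hwit : ∀ y : R, ¬ Sat R φ (cns y ρ) → ¬ y < 0 →
      (¬ Sat R φ (cns (q (D.hen (fand (fneg φ) (fneg (flt 0 (m + 1)))) e)) ρ) ∧
        ¬ q (D.hen (fand (fneg φ) (fneg (flt 0 (m + 1)))) e) < 0) ∧
      ¬ y * y < q (D.hen (fand (fneg φ) (fneg (flt 0 (m + 1)))) e) *
        q (D.hen (fand (fneg φ) (fneg (flt 0 (m + 1)))) e) := by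
    intro y h1 h2
    obtain ⟨t, rfl⟩ := hq.surj y
    obtain ⟨h3, h4⟩ := hD.wit (fand (fneg φ) (fneg (flt 0 (m + 1)))) t e ((hV t).mpr ⟨h1, h2⟩)
    refine ⟨(hV _).mp h3, ?_⟩
    rw [hq.lt', hq.mul', hq.mul'] at h4
    exact h4
  obtain ⟨⟨hh1, hh2⟩, -⟩ := hwit x hnx (not_lt.mpr hx)
  set h : R := q (D.hen (fand (fneg φ) (fneg (flt 0 (m + 1)))) e) with hh
  have hne : h ≠ 0 := by
    intro h3
    rw [h3] at hh1
    exact hh1 h0
  have hpos : 0 < h := lt_of_le_of_ne (not_lt.mp hh2) (Ne.symm hne)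
  have h1 : 1 ≤ h := hdis h hpos
  have hy0 : 0 ≤ h - 1 := sub_nonneg.mpr h1
  by_cases hy : Sat R φ (cns (h - 1) ρ)
  · have h2 := hstep (h - 1) hy0 hy
    rw [sub_add_cancel] at h2
    exact hh1 h2
  · obtain ⟨_, h3⟩ := hwit (h - 1) hy (not_lt.mpr hy0)
    apply h3
    have h4 : h - 1 < h := sub_lt_self h one_pos
    exact mul_self_lt_mul_self hy0 h4

end Pool.E5
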