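import Pool.Agent.Work.MP_e5ffe1_all.Interface2

set_option autoImplicit false

namespace Pool.E5

theorem p_INS : S_INS := by
  intro R _ _ _
  refine ⟨FirstOrder.Ring.compatibleRingOfRing R, FirstOrder.Language.orderStructure R, ?_⟩
  letI := FirstOrder.Language.orderStructure R
  exact ⟨fun _ => Iff.rfl⟩

end Pool.E5
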