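import Pool.Agent.Work.MP_e5ffe1_all.Interface1

/-!
# Theorem E, block ITP: interpretations in the integers (helper79)
-/

set_option autoImplicit false

namespace Pool.E5

/-- the real of a label: its bits, continued by `false` -/
def ITP_x (s i : ℕ) : Bool :=
  decide (i < Nat.log 2 s) && Nat.testBit s (Nat.log 2 s - 1 - i)

theorem ITP_idx_succ (x : ℕ → Bool) (n : ℕ) : idx x (n + 1) = 2 * idx x n + (x n).toNat := rfl

theorem ITP_level (x : ℕ → Bool) (n : ℕ) : 2 ^ n ≤ idx x n ∧ idx x n < 2 ^ (n + 1) := by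
  induction n with
  | zero => exact ⟨le_rfl, by show 1 < 2 ^ (0 + 1); norm_num⟩
  | succ n ih =>
    rw [ITP_idx_succ, pow_succ 2 n, pow_succ 2 (n + 1)]
    have h1 : (x n).toNat ≤ 1 := Bool.toNat_le _
    omega

theorem ITP_idx_x {s n : ℕ} (h1 : 2 ^ n ≤ s) (h2 : s < 2 ^ (n + 1)) (m : ℕ) (hm : m ≤ n) :
    idx (ITP_x s) m = s / 2 ^ (n - m) := by
  have hl : Nat.log 2 s = n := Nat.log_eq_of_pow_le_of_lt_pow h1 h2
  induction m with
  | zero =>
    show 1 = s / 2 ^ (n - 0)
    symm
    apply Nat.div_eq_of_lt_le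
    · rw [Nat.sub_zero, one_mul]
      exact h1
    · rw [Nat.sub_zero, show (1 + 1 : ℕ) = 2 from rfl, ← pow_succ']
      exact h2
  | succ m ih =>
    rw [ITP_idx_succ, ih (by omega)]
    have e1 : s / 2 ^ (n - m) = s / 2 ^ (n - (m + 1)) / 2 := by
      rw [Nat.div_div_eq_div_mul, ← pow_succ]
      congr 2
      omega
    have e2 : ITP_x s m = decide (s / 2 ^ (n - (m + 1)) % 2 = 1) := by
      unfold ITP_x
      rw [hl, Nat.testBit_eq_decide_div_mod_eq]
      have e3 : n - 1 - m = n - (m + 1) := by omega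
      rw [e3, decide_eq_true (show m < n by omega), Bool.true_and]
    rw [e1, e2]
    rcases Nat.mod_two_eq_zero_or_one (s / 2 ^ (n - (m + 1))) with h | h
    · rw [h]
      simp only [zero_ne_one, decide_false, Bool.toNat_false]
      omega
    · rw [h]
      simp only [decide_true, Bool.toNat_true]
      omega

theorem ITP_at {m q t i : ℕ} (hq1 : 2 ^ (m + 1) ≤ q) (hq2 : q < 2 ^ (m + 2)) (hi : i < 2 ^ t) :
    idx (ITP_x (q * 2 ^ t + i)) m = q / 2 ∧
      ITP_x (q * 2 ^ t + i) m = decide (q % 2 = 1) := by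
  have hn1 : 2 ^ (m + 1 + t) ≤ q * 2 ^ t + i := by
    rw [pow_add]
    have := Nat.mul_le_mul_right (2 ^ t) hq1
    omega
  have hn2 : q * 2 ^ t + i < 2 ^ (m + 1 + t + 1) := by
    have e1 : 2 ^ (m + 1 + t + 1) = 2 ^ (m + 2) * 2 ^ t := by
      rw [← pow_add]
      congr 1
      omega
    rw [e1]
    have h1 : (q + 1) * 2 ^ t ≤ 2 ^ (m + 2) * 2 ^ t := Nat.mul_le_mul_right _ hq2
    rw [add_mul, one_mul] at h1
    omega
  have hdiv : (q * 2 ^ t + i) / 2 ^ t = q := by
    apply Nat.div_eq_of_lt_le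
    · omega
    · rw [add_mul, one_mul]
      omega
  have hl : Nat.log 2 (q * 2 ^ t + i) = m + 1 + t := Nat.log_eq_of_pow_le_of_lt_pow hn1 hn2
  constructor
  · rw [ITP_idx_x hn1 hn2 m (by omega)]
    have e1 : m + 1 + t - m = t + 1 := by omega
    rw [e1, pow_succ, ← Nat.div_div_eq_div_mul, hdiv]
  · unfold ITP_x
    rw [hl, Nat.testBit_eq_decide_div_mod_eq]
    have e3 : m + 1 + t - 1 - m = t := by omega
    rw [e3, decide_eq_true (show m < m + 1 + t by omega), Bool.true_and, hdiv]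

theorem ITP_off (i : ℕ) : off (i + 1) = off i + MM i := rfl

theorem ITP_off_mono : Monotone off := monotone_nat_of_le_succ (fun i => by
  rw [ITP_off]
  omega)

/-- the blocks are disjoint -/
theorem ITP_block {i i' p p' : ℕ} (hp : p < MM i) (hp' : p' < MM i')
    (h : off i + p = off i' + p') : i = i' ∧ p = p' := by
  rcases Nat.lt_trichotomy i i' with h1 | rfl | h1
  · exfalso
    have h2 := ITP_off_mono (show i + 1 ≤ i' from h1)
    rw [ITP_off] at h2
    omega
  · exact ⟨rfl, by omega⟩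
  · exfalso
    have h2 := ITP_off_mono (show i' + 1 ≤ i from h1)
    rw [ITP_off] at h2
    omega

/-- evaluation of the divisibility formula -/
theorem ITP_be (hBFS : S_BFS) (hEVQ : S_EVQ) (hGET : S_GET) (J I : ℕ → ℤ) (c j : ℕ) :
    VI J I Bf (benv c (num j)) ↔ (1 + ((j : ℤ) + 1) * J 0) ∣ ev J I c := by
  obtain ⟨-, hco, -, -, -, -, -, hpar, hnum⟩ := hEVQ J I
  have g0 : get (benv c (num j)) 0 = c := hGET.1 _ _
  have g1 : get (benv c (num j)) 1 = num j := by
    show get (ccons c _) (0 + 1) = _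
    rw [hGET.2.1]
    exact hGET.1 _ _
  have g2 : get (benv c (num j)) 2 = cpar 0 := by
    show get (ccons c _) (1 + 1) = _
    rw [hGET.2.1]
    show get (ccons (num j) _) (0 + 1) = _
    rw [hGET.2.1]
    exact hGET.1 _ _
  have g3 : get (benv c (num j)) 3 = co := by
    show get (ccons c _) (2 + 1) = _
    rw [hGET.2.1]
    show get (ccons (num j) _) (1 + 1) = _
    rw [hGET.2.1]
    show get (ccons (cpar 0) _) (0 + 1) = _
    rw [hGET.2.1]
    exact hGET.1 _ _
  unfold VI
  rw [hBFS ℤ (fun i => ev J I (get (benv c (num j)) i)) (by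
    show ev J I (get (benv c (num j)) 3) = 1
    rw [g3, hco])]
  show (1 + (ev J I (get (benv c (num j)) 1) + 1) * ev J I (get (benv c (num j)) 2)) ∣
    ev J I (get (benv c (num j)) 0) ↔ _
  rw [g0, g1, g2, hpar, hnum]

theorem p_ITP (hHOM : S_HOM) (hCOP : S_COP) (hVEX : S_VEX) (hDEP : S_DEP) (hBDB : S_BDB)
    (hBFS : S_BFS) (hEVQ : S_EVQ) (hGET : S_GET) : S_ITP := by
  intro A N
  classical
  obtain ⟨b, hbN, hb0, hdiv⟩ := hCOP (off N + N + 1)
  obtain ⟨J, hJ0, hJ1⟩ : ∃ J : ℕ → ℤ, J 0 = b ∧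
      J 1 = b * ∏ k ∈ (Finset.range N).filter (fun k => k ∈ A), (1 + ((k : ℤ) + 1) * b) :=
    ⟨fun i => if i = 0 then b else
      b * ∏ k ∈ (Finset.range N).filter (fun k => k ∈ A), (1 + ((k : ℤ) + 1) * b), rfl, rfl⟩
  obtain ⟨leaf, hleaf⟩ : ∃ leaf : (ℕ → ℕ) → ℤ, ∀ p, leaf p =
      b * ∏ j ∈ (Finset.range N).image (fun i => off i + p i), (1 + ((j : ℤ) + 1) * b) :=
    ⟨_, fun p => rfl⟩
  have H := hHOM N ℤ leaf
    (fun n j F => lvb n (j % (Bd n n + 1)) = true →
      VI J F (j / (Bd n n + 1)) (j % (Bd n n + 1)))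
    (by
      intro p p' hpp
      rw [hleaf, hleaf]
      have e1 : (Finset.range N).image (fun i => off i + p i) =
          (Finset.range N).image (fun i => off i + p' i) := by
        apply Finset.image_congr
        intro i hi
        show off i + p i = off i + p' i
        rw [hpp i (Finset.mem_range.1 hi)]
      rw [e1])
    (by
      intro n j F F' hFF
      constructor
      · intro h hl
        exact (hDEP J F F' n _ _ hl hFF).1 (h hl)
      · intro h hl
        exact (hDEP J F F' n _ _ hl hFF).2 (h hl))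
  obtain ⟨a, ha1, ha2⟩ := H
  obtain ⟨I, hI⟩ : ∃ I : ℕ → ℤ, ∀ s, I s = leaf (fun m => a (idx (ITP_x s) m) (ITP_x s m)) :=
    ⟨_, fun s => rfl⟩
  have hp : ∀ s i, i < N → a (idx (ITP_x s) i) (ITP_x s i) < MM i := fun s i hi =>
    (ha1 i hi _ (ITP_level _ _).1 (ITP_level _ _).2).2 _
  have hId : ∀ s j, j < off N + N + 1 → ((1 + ((j : ℤ) + 1) * b) ∣ I s ↔
      ∃ i < N, off i + a (idx (ITP_x s) i) (ITP_x s i) = j) := by
    intro s j hj
    rw [hI, hleaf, hdiv _ j hj (by
      intro i hi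
      obtain ⟨i', hi', rfl⟩ := Finset.mem_image.1 hi
      have h1 := hp s i' (Finset.mem_range.1 hi')
      have h2 := ITP_off_mono (show i' + 1 ≤ N from Finset.mem_range.1 hi')
      rw [ITP_off] at h2
      show off i' + a (idx (ITP_x s) i') (ITP_x s i') < off N + N + 1
      omega), Finset.mem_image]
    constructor
    · rintro ⟨i, hi, h⟩
      exact ⟨i, Finset.mem_range.1 hi, h⟩
    · rintro ⟨i, hi, h⟩
      exact ⟨i, Finset.mem_range.2 hi, h⟩
  refine ⟨J, I, ?_, ?_, ?_, ?_⟩
  · intro k hk φ e r hl hs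
    rw [hVEX]
    have he : e ≤ Bd k k := hBDB k k e hl (by omega)
    have hj : φ * (Bd k k + 1) + e < tt k := by
      show φ * (Bd k k + 1) + e < (k + 1) * (Bd k k + 1)
      have h1 : (φ + 1) * (Bd k k + 1) ≤ (k + 1) * (Bd k k + 1) :=
        Nat.mul_le_mul_right _ (by omega)
      rw [add_mul, one_mul] at h1
      omega
    have h2 := ha2 k hk _ hj (fun s => ITP_x s) (fun s => ITP_x (chd r s))
      (by
        intro s h1 h2
        show idx (ITP_x s) k = s
        rw [ITP_idx_x h1 h2 k le_rfl, Nat.sub_self, pow_zero, Nat.div_one])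
      (by
        intro s h1 h2
        have hb : (Nat.testBit r s).toNat ≤ 1 := Bool.toNat_le _
        have e1 : chd r s = 2 * s + (Nat.testBit r s).toNat := rfl
        have h3 : 2 ^ (k + 1) ≤ chd r s := by
          rw [e1, pow_succ]
          omega
        have h4 : chd r s < 2 ^ (k + 1 + 1) := by
          rw [e1, pow_succ]
          omega
        show idx (ITP_x (chd r s)) k = s
        rw [ITP_idx_x h3 h4 k (by omega), show k + 1 - k = 1 by omega, pow_one, e1]
        omega)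
    have e1 : (φ * (Bd k k + 1) + e) / (Bd k k + 1) = φ := by
      apply Nat.div_eq_of_lt_le
      · omega
      · rw [add_mul, one_mul]
        omega
    have e2 : (φ * (Bd k k + 1) + e) % (Bd k k + 1) = e := by
      rw [mul_comm, Nat.mul_add_mod, Nat.mod_eq_of_lt (by omega)]
    simp only [e1, e2] at h2
    have f1 : (fun s => leaf (fun m => a (idx (ITP_x s) m) (ITP_x s m))) = I :=
      funext fun s => (hI s).symm
    have f2 : (fun s => leaf (fun m => a (idx (ITP_x (chd r s)) m) (ITP_x (chd r s) m))) =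
        fun s => I (chd r s) := funext fun s => (hI (chd r s)).symm
    rw [f1, f2] at h2
    exact ⟨fun h => h2.1 (fun _ => h) hl, fun h => h2.2 (fun _ => h) hl⟩
  · intro m hm s hs1 hs2
    have h0 := (ha1 m hm s hs1 hs2)
    have hjN : off m + a s false < off N + N + 1 := by
      have h1 := h0.2 false
      have h2 := ITP_off_mono (show m + 1 ≤ N from hm)
      rw [ITP_off] at h2
      omega
    refine ⟨off m + a s false, ?_, ?_⟩
    · rw [ITP_off]
      have := h0.2 false
      omega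
    intro i hi i' hi'
    have hlab : ∀ c, ev J I (clab c) = I c := (hEVQ J I).2.2.1
    rw [ITP_be hBFS hEVQ hGET, ITP_be hBFS hEVQ hGET, hlab, hlab, hJ0, hId _ _ hjN,
      hId _ _ hjN]
    have q1 : 2 ^ (m + 1) ≤ 2 * s := by
      rw [pow_succ]
      omega
    have q2 : 2 * s + 1 < 2 ^ (m + 2) := by
      rw [pow_succ 2 (m + 1)]
      omega
    obtain ⟨b1, b2⟩ := ITP_at (m := m) (q := 2 * s) (t := LL m - (m + 1)) (i := i) q1
      (by omega) hi
    obtain ⟨b3, b4⟩ := ITP_at (m := m) (q := 2 * s + 1) (t := LL m - (m + 1)) (i := i')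
      (by omega) q2 hi'
    have t1 : ∃ i_1 < N, off i_1 + a (idx (ITP_x (2 * s * DD m + i)) i_1)
        (ITP_x (2 * s * DD m + i) i_1) = off m + a s false := by
      refine ⟨m, hm, ?_⟩
      show off m + a (idx (ITP_x (2 * s * 2 ^ (LL m - (m + 1)) + i)) m)
        (ITP_x (2 * s * 2 ^ (LL m - (m + 1)) + i) m) = _
      rw [b1, b2]
      have e1 : 2 * s / 2 = s := by omega
      have e2 : 2 * s % 2 = 0 := by omega
      rw [e1, e2]
      simp
    have t2 : ¬ ∃ i_1 < N, off i_1 + a (idx (ITP_x ((2 * s + 1) * DD m + i')) i_1)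
        (ITP_x ((2 * s + 1) * DD m + i') i_1) = off m + a s false := by
      rintro ⟨i₁, hi₁, h⟩
      obtain ⟨rfl, h2⟩ := ITP_block (hp _ i₁ hi₁) (h0.2 false) h
      have h3 : a (idx (ITP_x ((2 * s + 1) * 2 ^ (LL i₁ - (i₁ + 1)) + i')) i₁)
        (ITP_x ((2 * s + 1) * 2 ^ (LL i₁ - (i₁ + 1)) + i') i₁) = a s false := h2
      rw [b3, b4] at h3
      have e1 : (2 * s + 1) / 2 = s := by omega
      have e2 : (2 * s + 1) % 2 = 1 := by omega
      rw [e1, e2] at h3
      simp only [decide_true] at h3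
      exact h0.1 h3.symm
    exact ⟨fun _ => t2, fun _ => t1⟩
  · intro m hm s k hs1 hs2 hkm
    rw [hI, hleaf]
    have h1 : (1 : ℤ) ≤ ∏ j ∈ (Finset.range N).image
        (fun i => off i + (fun m => a (idx (ITP_x s) m) (ITP_x s m)) i),
        (1 + ((j : ℤ) + 1) * b) := by
      refine Int.add_one_le_iff.2 (Finset.prod_pos fun j _ => ?_)
      have : (0 : ℤ) ≤ ((j : ℤ) + 1) * b := by positivity
      linarith
    have h2 : (k : ℤ) < b := by
      have : ((off N + N + 1 : ℕ) : ℤ) ≤ b := hbN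
      push_cast at this
      have h3 : (k : ℤ) < N := by exact_mod_cast (by omega : k < N)
      have h4 : (0 : ℤ) ≤ (off N : ℤ) := Int.natCast_nonneg _
      linarith
    nlinarith
  · intro k hk
    have hpar : ∀ i, ev J I (cpar i) = J i := (hEVQ J I).2.2.2.2.2.2.2.1
    rw [ITP_be hBFS hEVQ hGET, hpar, hJ0, hJ1, hdiv _ k (by omega) (by
      intro i hi
      have := Finset.mem_range.1 (Finset.mem_filter.1 hi).1
      omega), Finset.mem_filter, Finset.mem_range]
    exact ⟨fun h => h.2, fun h => ⟨hk, h⟩⟩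

end Pool.E5
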