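import Pool.Agent.Work.MP_e5ffe1_all.Interface2

/-! Block LIM of MP_e5ffe1_lc, Theorem E: the structure of sequences. -/

set_option autoImplicit false

namespace Pool.E5

open Filter

/-- a property which is eventually constant holds eventually or fails eventually -/
theorem LIM_dec {P : ℕ → Prop} (h : ∃ N, ∀ n ≥ N, (P n ↔ P (n + 1))) :
    (∀ᶠ n in atTop, P n) ∨ ∀ᶠ n in atTop, ¬ P n := by
  obtain ⟨N, hN⟩ := h
  have h1 : ∀ n, N ≤ n → (P N ↔ P n) := by
    intro n hn
    induction n, hn using Nat.le_induction with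
    | base => exact Iff.rfl
    | succ n hn ih => exact ih.trans (hN n hn)
  by_cases hP : P N
  · left
    exact eventually_atTop.2 ⟨N, fun n hn => (h1 n hn).1 hP⟩
  · right
    exact eventually_atTop.2 ⟨N, fun n hn hPn => hP ((h1 n hn).2 hPn)⟩

theorem LIM_not {P : ℕ → Prop} (h1 : ∀ᶠ n in atTop, ¬ P n) : ¬ ∀ᶠ n in atTop, P n := by
  intro h2
  obtain ⟨n, hn1, hn2⟩ := (h1.and h2).exists
  exact hn1 hn2

theorem p_LIM : S_LIM := by
  intro T D U h hD hV
  have hdec : ∀ φ, ∀ u ∈ U, (∀ᶠ n in atTop, D.V φ (u n)) ∨ ∀ᶠ n in atTop, ¬ D.V φ (u n) :=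
    fun φ u hu => LIM_dec (hV φ u hu)
  have hE : ∀ a b : U, (limD D U h).E a b ↔ ∀ᶠ n in atTop, D.E (a.1 n) (b.1 n) :=
    fun a b => Iff.rfl
  have hL : ∀ a b : U, (limD D U h).L a b ↔ ∀ᶠ n in atTop, D.L (a.1 n) (b.1 n) :=
    fun a b => Iff.rfl
  have hcc : ∀ a b : U, (fun n => D.cons (a.1 n) (D.cons (b.1 n) D.zero)) ∈ U :=
    fun a b => h.cons a.1 a.2 _ (h.cons b.1 b.2 _ h.zero)
  have hdE : ∀ a b : U, (∀ᶠ n in atTop, D.E (a.1 n) (b.1 n)) ∨
      ∀ᶠ n in atTop, ¬ D.E (a.1 n) (b.1 n) := fun a b => hdec (feq 0 1) _ (hcc a b)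
  have hdL : ∀ a b : U, (∀ᶠ n in atTop, D.L (a.1 n) (b.1 n)) ∨
      ∀ᶠ n in atTop, ¬ D.L (a.1 n) (b.1 n) := fun a b => hdec (flt 0 1) _ (hcc a b)
  have A1 : (limD D U h).Ax1 :=
    { get_zero := fun a e => Subtype.ext (funext fun n => hD.get_zero _ _)
      get_succ := fun a e i => Subtype.ext (funext fun n => hD.get_succ _ _ _)
      get_nil := fun i => Subtype.ext (funext fun n => hD.get_nil _)
      neg' := by
        intro φ e
        show (∀ᶠ n in atTop, D.V (fneg φ) (e.1 n)) ↔ ¬ ∀ᶠ n in atTop, D.V φ (e.1 n)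
        constructor
        · intro h1
          exact LIM_not (h1.mono fun n hn => (hD.neg' φ _).1 hn)
        · intro h1
          rcases hdec φ e.1 e.2 with h2 | h2
          · exact absurd h2 h1
          · exact h2.mono fun n hn => (hD.neg' φ _).2 hn
      and' := by
        intro φ ψ e
        show (∀ᶠ n in atTop, D.V (fand φ ψ) (e.1 n)) ↔
          (∀ᶠ n in atTop, D.V φ (e.1 n)) ∧ ∀ᶠ n in atTop, D.V ψ (e.1 n)
        rw [← eventually_and]
        exact eventually_congr (Eventually.of_forall fun n => hD.and' φ ψ _)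
      ex' := fun φ e => eventually_congr (Eventually.of_forall fun n => hD.ex' φ _)
      wit := by
        intro φ a e h1
        refine ⟨Eventually.mono h1 fun n hn => (hD.wit φ _ _ hn).1, ?_⟩
        exact LIM_not (Eventually.mono h1 fun n hn => (hD.wit φ _ _ hn).2)
      eq' := fun i j e => eventually_congr (Eventually.of_forall fun n => hD.eq' i j _)
      lt' := fun i j e => eventually_congr (Eventually.of_forall fun n => hD.lt' i j _)
      add' := fun i j k e => eventually_congr (Eventually.of_forall fun n => hD.add' i j k _)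
      mul' := fun i j k e => eventually_congr (Eventually.of_forall fun n => hD.mul' i j k _) }
  have A2 : (limD D U h).Ax2 :=
    { refl := fun a => Eventually.of_forall fun n => hD.refl _
      symm := fun a b h1 => Eventually.mono h1 fun n hn => hD.symm _ _ hn
      trans := fun a b c h1 h2 =>
        (Eventually.and h1 h2).mono fun n hn => hD.trans _ _ _ hn.1 hn.2
      congr_add := fun a b c h1 => Eventually.mono h1 fun n hn => hD.congr_add _ _ _ hn
      congr_mul := fun a b c h1 => Eventually.mono h1 fun n hn => hD.congr_mul _ _ _ hn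
      congr_neg := fun a b h1 => Eventually.mono h1 fun n hn => hD.congr_neg _ _ hn
      congr_lt := fun a b c h1 h2 =>
        (Eventually.and h1 h2).mono fun n hn => hD.congr_lt _ _ _ hn.1 hn.2
      congr_lt2 := fun a b c h1 h2 =>
        (Eventually.and h1 h2).mono fun n hn => hD.congr_lt2 _ _ _ hn.1 hn.2
      add_assoc := fun a b c => Eventually.of_forall fun n => hD.add_assoc _ _ _
      add_comm := fun a b => Eventually.of_forall fun n => hD.add_comm _ _
      zero_add := fun a => Eventually.of_forall fun n => hD.zero_add _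
      neg_add := fun a => Eventually.of_forall fun n => hD.neg_add _
      mul_assoc := fun a b c => Eventually.of_forall fun n => hD.mul_assoc _ _ _
      mul_comm := fun a b => Eventually.of_forall fun n => hD.mul_comm _ _
      one_mul := fun a => Eventually.of_forall fun n => hD.one_mul _
      distrib := fun a b c => Eventually.of_forall fun n => hD.distrib _ _ _ }
  have A3 : (limD D U h).Ax3 :=
    { irrefl := fun a => LIM_not (Eventually.of_forall fun n => hD.irrefl _)
      lt_trans := fun a b c h1 h2 =>
        (Eventually.and h1 h2).mono fun n hn => hD.lt_trans _ _ _ hn.1 hn.2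
      tri := by
        intro a b
        rcases hdL a b with h1 | h1
        · exact Or.inl h1
        rcases hdE a b with h2 | h2
        · exact Or.inr (Or.inl h2)
        refine Or.inr (Or.inr ?_)
        exact (h1.and h2).mono fun n hn => by
          rcases hD.tri (a.1 n) (b.1 n) with h3 | h3 | h3
          · exact absurd h3 hn.1
          · exact absurd h3 hn.2
          · exact h3
      add_lt := fun a b c h1 => Eventually.mono h1 fun n hn => hD.add_lt _ _ _ hn
      mul_pos := fun a b h1 h2 =>
        (Eventually.and h1 h2).mono fun n hn => hD.mul_pos _ _ hn.1 hn.2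
      zero_lt_one := Eventually.of_forall fun n => hD.zero_lt_one
      discr := fun a h1 => LIM_not (Eventually.mono h1 fun n hn => hD.discr _ hn) }
  exact { toAx1 := A1, toAx2 := A2, toAx3 := A3 }

end Pool.E5
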