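import Pool.Agent.Work.MP_e5ffe1_all.Interface1

/-! Block LWS (helper9): least witnesses. -/

set_option autoImplicit false

namespace Pool.E5

theorem p_LWS : S_LWS := by
  classical
  intro P a ha
  have h : ∃ n : ℕ, ∃ b : ℤ, P b ∧ b.natAbs = n := ⟨a.natAbs, a, ha, rfl⟩
  have e : lw P = (Nat.find_spec h).choose := by
    unfold lw
    rw [dif_pos h]
  have hs := (Nat.find_spec h).choose_spec
  rw [← e] at hs
  refine ⟨hs.1, fun hlt => ?_⟩
  have h2 : Nat.find h ≤ a.natAbs := Nat.find_min' h ⟨a, ha, rfl⟩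
  rw [← hs.2] at h2
  have h3 : (lw P) * (lw P) ≤ a * a := Int.natAbs_le_iff_mul_self_le.1 h2
  omega

end Pool.E5
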