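import Pool.Agent.Work.MP_e5ffe1_all.Interface1

/-!
# PEX: the map `ext` is primitive recursive (helper91)
-/

set_option autoImplicit false

namespace Pool.E5

/-- the step of the recursion -/
def PEX_g (r : ℕ) (l : List ℕ) : ℕ :=
  if l.length % 9 = 2 then 9 * (2 * (l.length / 9) + r / 2 ^ (l.length / 9) % 2) + 2
  else if l.length % 9 = 5 then 9 * l.getD (l.length / 9) 0 + 5
  else if l.length % 9 = 6 then
    9 * Nat.pair (Nat.unpair (l.length / 9)).1 (l.getD (Nat.unpair (l.length / 9)).2 0) + 6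
  else if (l.length % 9 = 3 ∨ l.length % 9 = 4) ∨ l.length % 9 = 7 then
    9 * Nat.pair (l.getD (Nat.unpair (l.length / 9)).1 0) (l.getD (Nat.unpair (l.length / 9)).2 0) +
      l.length % 9
  else l.length

theorem PEX_getD (f : ℕ → ℕ) (n i : ℕ) (h : i < n) : ((List.range n).map f).getD i 0 = f i := by
  rw [List.getD_eq_getElem?_getD, List.getElem?_map, List.getElem?_range h]
  rfl

theorem PEX_rec (r n : ℕ) : PEX_g r ((List.range n).map (ext r)) = ext r n := by
  have h1 := Nat.unpair_left_le (n / 9)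
  have h2 := Nat.unpair_right_le (n / 9)
  unfold PEX_g
  rw [List.length_map, List.length_range, ext]
  by_cases c2 : n % 9 = 2
  · rw [if_pos c2, if_pos c2, clab, chd, Nat.toNat_testBit]
  rw [if_neg c2, if_neg c2]
  by_cases c5 : n % 9 = 5
  · rw [if_pos c5, dif_pos c5, cneg, PEX_getD _ _ _ (by omega)]
  rw [if_neg c5, dif_neg c5]
  by_cases c6 : n % 9 = 6
  · rw [if_pos c6, dif_pos c6, chen, PEX_getD _ _ _ (by omega)]
  rw [if_neg c6, dif_neg c6]
  by_cases c3 : n % 9 = 3 ∨ n % 9 = 4 ∨ n % 9 = 7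
  · rw [if_pos (or_assoc.2 c3), dif_pos c3, PEX_getD _ _ _ (by omega), PEX_getD _ _ _ (by omega)]
  rw [if_neg (fun h => c3 (or_assoc.1 h)), dif_neg c3]

theorem PEX_pow : Primrec₂ (fun a b : ℕ => a ^ b) := Primrec₂.unpaired'.1 Nat.Primrec.pow

theorem PEX_primrec : Primrec₂ PEX_g := by
  have hl : Primrec (fun p : ℕ × List ℕ => p.2.length) := Primrec.list_length.comp Primrec.snd
  have hm : Primrec (fun p : ℕ × List ℕ => p.2.length % 9) := Primrec.nat_mod.comp hl (Primrec.const 9)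
  have hd : Primrec (fun p : ℕ × List ℕ => p.2.length / 9) := Primrec.nat_div.comp hl (Primrec.const 9)
  have hu : Primrec (fun p : ℕ × List ℕ => Nat.unpair (p.2.length / 9)) := Primrec.unpair.comp hd
  have hu1 := Primrec.fst.comp hu
  have hu2 := Primrec.snd.comp hu
  have hg : ∀ {f : ℕ × List ℕ → ℕ}, Primrec f → Primrec (fun p : ℕ × List ℕ => p.2.getD (f p) 0) :=
    fun hf => (Primrec.list_getD 0).comp Primrec.snd hf
  have h9 : ∀ {f : ℕ × List ℕ → ℕ} (k : ℕ), Primrec f → Primrec (fun p : ℕ × List ℕ => 9 * f p + k) :=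
    fun k hf => Primrec.nat_add.comp (Primrec.nat_mul.comp (Primrec.const 9) hf) (Primrec.const k)
  have hp : ∀ k : ℕ, PrimrecPred (fun p : ℕ × List ℕ => p.2.length % 9 = k) :=
    fun k => Primrec.eq.comp hm (Primrec.const k)
  have hb : Primrec (fun p : ℕ × List ℕ => p.1 / 2 ^ (p.2.length / 9) % 2) :=
    Primrec.nat_mod.comp (Primrec.nat_div.comp Primrec.fst (PEX_pow.comp (Primrec.const 2) hd))
      (Primrec.const 2)
  refine Primrec.ite (hp 2) ?_ (Primrec.ite (hp 5) ?_ (Primrec.ite (hp 6) ?_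
    (Primrec.ite (((hp 3).or (hp 4)).or (hp 7)) ?_ hl)))
  · exact h9 2 (Primrec.nat_add.comp (Primrec.nat_mul.comp (Primrec.const 2) hd) hb)
  · exact h9 5 (hg hd)
  · exact h9 6 (Primrec₂.natPair.comp hu1 (hg hu2))
  · exact Primrec.nat_add.comp (Primrec.nat_mul.comp (Primrec.const 9)
      (Primrec₂.natPair.comp (hg hu1) (hg hu2))) hm

theorem p_PEX : S_PEX := by
  refine Primrec.nat_strong_rec ext (g := fun r l => some (PEX_g r l)) ?_ ?_
  · exact Primrec.option_some.comp₂ PEX_primrec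
  · intro r n
    exact congrArg some (PEX_rec r n)

end Pool.E5
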