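import Pool.Agent.Work.MP_e5ffe1_all.Interface1

/-!
# PGR: the growth functions are primitive recursive
-/

set_option autoImplicit false

namespace Pool.E5

theorem PGR_pow : Primrec₂ (fun a b : ℕ => a ^ b) := Primrec₂.unpaired'.1 Nat.Primrec.pow

theorem PGR_pr : Primrec₂ pr := by
  have h1 : Primrec fun y : (ℕ × ℕ) × (ℕ × ℕ) => max y.2.2 (y.1.2 ^ (y.2.2 ^ y.2.1) + 1) :=
    Primrec.nat_max.comp (Primrec.snd.comp Primrec.snd)
      (Primrec.succ.comp (PGR_pow.comp (Primrec.snd.comp Primrec.fst)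
        (PGR_pow.comp (Primrec.snd.comp Primrec.snd) (Primrec.fst.comp Primrec.snd))))
  have h : Primrec fun a : ℕ × ℕ =>
      Nat.rec (motive := fun _ => ℕ) 2 (fun q p => max p (a.2 ^ (p ^ q) + 1)) a.1 :=
    Primrec.nat_rec' (f := fun a : ℕ × ℕ => a.1) (g := fun _ => 2)
      (h := fun (a : ℕ × ℕ) (x : ℕ × ℕ) => max x.2 (a.2 ^ (x.2 ^ x.1) + 1))
      Primrec.fst (Primrec.const 2) h1
  exact h

theorem PGR_Bd : Primrec₂ Bd := by
  have h1 : Primrec fun y : (ℕ × ℕ) × (ℕ × ℕ) => 9 * (y.2.2 + 1) ^ 2 + 9 :=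
    Primrec.nat_add.comp (Primrec.nat_mul.comp (Primrec.const 9)
      (PGR_pow.comp (Primrec.succ.comp (Primrec.snd.comp Primrec.snd)) (Primrec.const 2)))
      (Primrec.const 9)
  have h0 : Primrec fun a : ℕ × ℕ => 9 * 2 ^ (a.1 + 1) + 9 :=
    Primrec.nat_add.comp (Primrec.nat_mul.comp (Primrec.const 9)
      (PGR_pow.comp (Primrec.const 2) (Primrec.succ.comp Primrec.fst))) (Primrec.const 9)
  have h : Primrec fun a : ℕ × ℕ =>
      Nat.rec (motive := fun _ => ℕ) (9 * 2 ^ (a.1 + 1) + 9) (fun _ p => 9 * (p + 1) ^ 2 + 9) a.2 :=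
    Primrec.nat_rec' (f := fun a : ℕ × ℕ => a.2) (g := fun a => 9 * 2 ^ (a.1 + 1) + 9)
      (h := fun (_ : ℕ × ℕ) (x : ℕ × ℕ) => 9 * (x.2 + 1) ^ 2 + 9)
      Primrec.snd h0 h1
  exact h

theorem PGR_tt : Primrec tt :=
  Primrec.nat_mul.comp Primrec.succ (Primrec.succ.comp (PGR_Bd.comp Primrec.id Primrec.id))

/-- the exponent -/
def PGR_ex (y : ℕ × (ℕ × ℕ × ℕ)) : ℕ := tt y.1 * y.2.2.1 + y.2.2.2

theorem PGR_exP : Primrec PGR_ex :=
  Primrec.nat_add.comp (Primrec.nat_mul.comp (PGR_tt.comp Primrec.fst)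
    (Primrec.fst.comp (Primrec.snd.comp Primrec.snd)))
    (Primrec.snd.comp (Primrec.snd.comp Primrec.snd))

/-- the factor -/
def PGR_fa (y : ℕ × (ℕ × ℕ × ℕ)) : ℕ := pr y.2.1 (2 ^ PGR_ex y)

theorem PGR_faP : Primrec PGR_fa :=
  PGR_pr.comp (Primrec.fst.comp Primrec.snd) (PGR_pow.comp (Primrec.const 2) PGR_exP)

theorem PGR_stt : Primrec stt := by
  have h1 : Primrec fun y : ℕ × (ℕ × ℕ × ℕ) => ((y.2.1 * PGR_fa y,
      y.2.2.1 * PGR_fa y ^ (2 * y.2.1), PGR_ex y * PGR_fa y ^ y.2.1) : ℕ × ℕ × ℕ) := by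
    have e1 : Primrec fun y : ℕ × (ℕ × ℕ × ℕ) => y.2.1 := Primrec.fst.comp Primrec.snd
    have e2 : Primrec fun y : ℕ × (ℕ × ℕ × ℕ) => y.2.2.1 :=
      Primrec.fst.comp (Primrec.snd.comp Primrec.snd)
    exact Primrec.pair (Primrec.nat_mul.comp e1 PGR_faP)
      (Primrec.pair (Primrec.nat_mul.comp e2 (PGR_pow.comp PGR_faP
        (Primrec.nat_mul.comp (Primrec.const 2) e1)))
        (Primrec.nat_mul.comp PGR_exP (PGR_pow.comp PGR_faP e1)))
  have h2 : Primrec₂ fun (i : ℕ) (s : ℕ × ℕ × ℕ) => ((s.1 * PGR_fa (i, s),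
      s.2.1 * PGR_fa (i, s) ^ (2 * s.1), PGR_ex (i, s) * PGR_fa (i, s) ^ s.1) : ℕ × ℕ × ℕ) := h1
  exact Primrec.nat_rec₁ ((1, 1, 0) : ℕ × ℕ × ℕ) h2

theorem PGR_MM : Primrec MM := by
  have h : Primrec fun m => PGR_fa (m, stt m) := PGR_faP.comp (Primrec.pair Primrec.id PGR_stt)
  exact h

theorem PGR_off : Primrec off := by
  have h1 : Primrec₂ fun (i o : ℕ) => o + MM i :=
    Primrec.nat_add.comp Primrec.snd (PGR_MM.comp Primrec.fst)
  exact Primrec.nat_rec₁ 0 h1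

theorem PGR_LL : Primrec LL := by
  have h1 : Primrec fun m : ℕ => Bf + 3 * off (m + 1) + 18 + m + 1 :=
    Primrec.succ.comp (Primrec.nat_add.comp (Primrec.nat_add.comp
      (Primrec.nat_add.comp (Primrec.const Bf) (Primrec.nat_mul.comp (Primrec.const 3)
        (PGR_off.comp Primrec.succ))) (Primrec.const 18)) Primrec.id)
  exact h1

theorem p_PGR : S_PGR := by
  refine ⟨PGR_off, PGR_LL, ?_⟩
  have h : Primrec fun m : ℕ => 2 ^ (LL m - (m + 1)) :=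
    PGR_pow.comp (Primrec.const 2) (Primrec.nat_sub.comp PGR_LL Primrec.succ)
  exact h

end Pool.E5
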