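import Pool.Agent.Work.MP_e5ffe1_all.Interface1

/-!
# Block PLV: `lvb` is primitive recursive
-/

set_option autoImplicit false

namespace Pool.E5

/-- the step function -/
def PLV_g (k : ℕ) (l : List Bool) : Bool :=
  if l.length % 9 = 2 then decide (2 ^ k ≤ l.length / 9) && decide (l.length / 9 < 2 ^ (k + 1))
  else if l.length % 9 = 5 then l.getD (l.length / 9) true
  else if l.length % 9 = 6 then l.getD (Nat.unpair (l.length / 9)).2 true
  else if l.length % 9 = 3 ∨ l.length % 9 = 4 ∨ l.length % 9 = 7 then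
    l.getD (Nat.unpair (l.length / 9)).1 true && l.getD (Nat.unpair (l.length / 9)).2 true
  else true

theorem PLV_get (f : ℕ → Bool) (n i : ℕ) (h : i < n) :
    ((List.range n).map f).getD i true = f i := by
  rw [List.getD_eq_getElem?_getD, List.getElem?_map, List.getElem?_range h]
  rfl

theorem PLV_step (k n : ℕ) : PLV_g k ((List.range n).map (lvb k)) = lvb k n := by
  conv_rhs => rw [lvb]
  unfold PLV_g
  simp only [List.length_map, List.length_range]
  have h1 := Nat.unpair_left_le (n / 9)
  have h2 := Nat.unpair_right_le (n / 9)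
  split_ifs with a b c d
  · rfl
  · exact PLV_get _ _ _ (by omega)
  · exact PLV_get _ _ _ (by omega)
  · rw [PLV_get _ _ _ (by omega), PLV_get _ _ _ (by omega)]
  · rfl

theorem PLV_prim : Primrec₂ PLV_g := by
  have n : Primrec (fun p : ℕ × List Bool => p.2.length) := Primrec.list_length.comp Primrec.snd
  have m : Primrec (fun p : ℕ × List Bool => p.2.length % 9) :=
    Primrec.nat_mod.comp n (Primrec.const 9)
  have d : Primrec (fun p : ℕ × List Bool => p.2.length / 9) :=
    Primrec.nat_div.comp n (Primrec.const 9)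
  have u1 : Primrec (fun p : ℕ × List Bool => (Nat.unpair (p.2.length / 9)).1) :=
    Primrec.fst.comp (Primrec.unpair.comp d)
  have u2 : Primrec (fun p : ℕ × List Bool => (Nat.unpair (p.2.length / 9)).2) :=
    Primrec.snd.comp (Primrec.unpair.comp d)
  have hc : ∀ c : ℕ, PrimrecPred (fun p : ℕ × List Bool => p.2.length % 9 = c) := fun c =>
    Primrec.eq.comp m (Primrec.const c)
  have hg : ∀ {f : ℕ × List Bool → ℕ}, Primrec f →
      Primrec (fun p : ℕ × List Bool => p.2.getD (f p) true) := fun hf =>
    (Primrec.list_getD true).comp Primrec.snd hf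
  have hp : Primrec₂ (fun a b : ℕ => a ^ b) := Primrec₂.unpaired'.1 Nat.Primrec.pow
  have hp1 : Primrec (fun p : ℕ × List Bool => 2 ^ p.1) :=
    hp.comp (Primrec.const 2) Primrec.fst
  have hp2 : Primrec (fun p : ℕ × List Bool => 2 ^ (p.1 + 1)) :=
    hp.comp (Primrec.const 2) (Primrec.succ.comp Primrec.fst)
  have hA : Primrec (fun p : ℕ × List Bool => decide (2 ^ p.1 ≤ p.2.length / 9) &&
      decide (p.2.length / 9 < 2 ^ (p.1 + 1))) :=
    Primrec.and.comp (Primrec.nat_le.comp hp1 d).decide (Primrec.nat_lt.comp d hp2).decide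
  change Primrec (fun p : ℕ × List Bool => PLV_g p.1 p.2)
  unfold PLV_g
  refine Primrec.ite (hc 2) hA (Primrec.ite (hc 5) (hg d) (Primrec.ite (hc 6) (hg u2)
    (Primrec.ite (PrimrecPred.or (hc 3) (PrimrecPred.or (hc 4) (hc 7)))
      (Primrec.and.comp (hg u1) (hg u2)) (Primrec.const true))))

theorem p_PLV : S_PLV := by
  refine Primrec.nat_strong_rec lvb (g := fun k l => some (PLV_g k l)) ?_ ?_
  · exact Primrec.option_some.comp₂ PLV_prim
  · intro k n
    rw [PLV_step]

end Pool.E5
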