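import Pool.Agent.Work.MP_e5ffe1_all.Interface1

/-!
# PRL: product Ramsey for pairs (helper91)
-/

set_option autoImplicit false

namespace Pool.E5

theorem PRL_pr_succ (q r : ℕ) : pr (q + 1) r = max (pr q r) (r ^ (pr q r ^ q) + 1) := rfl

theorem PRL_fin (Q : ℕ) : ∀ (γ : Type) [Fintype γ] (N r : ℕ) (C : (Fin Q → Fin N) → γ),
    Fintype.card γ ≤ r → 1 ≤ r → pr Q r ≤ N →
    ∃ a : Fin Q → Bool → Fin N, (∀ c, a c false ≠ a c true) ∧
      ∀ f g : Fin Q → Bool, C (fun c => a c (f c)) = C (fun c => a c (g c)) := by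
  classical
  induction Q with
  | zero =>
    intro γ _ N r C _ _ _
    refine ⟨fun c => c.elim0, fun c => c.elim0, fun f g => ?_⟩
    congr 1
    funext c
    exact c.elim0
  | succ Q ih =>
    intro γ _ N r C hγ hr hN
    rw [PRL_pr_succ] at hN
    have hn1 : pr Q r ≤ N := (le_max_left _ _).trans hN
    have hn2 : r ^ (pr Q r ^ Q) < N := lt_of_lt_of_le (Nat.lt_succ_self _) ((le_max_right _ _).trans hN)
    let Φ : Fin N → ((Fin Q → Fin (pr Q r)) → γ) :=
      fun y h => C (Fin.cons y (fun i => Fin.castLE hn1 (h i)))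
    have hcard : Fintype.card ((Fin Q → Fin (pr Q r)) → γ) < Fintype.card (Fin N) := by
      rw [Fintype.card_fun, Fintype.card_fun, Fintype.card_fin, Fintype.card_fin, Fintype.card_fin]
      exact lt_of_le_of_lt (Nat.pow_le_pow_left hγ _) hn2
    obtain ⟨y, y', hyy, hΦ⟩ := Fintype.exists_ne_map_eq_of_card_lt Φ hcard
    obtain ⟨a', ha1, ha2⟩ := ih γ (pr Q r) r (Φ y) hγ hr le_rfl
    refine ⟨Fin.cons (fun b => if b then y' else y) (fun i b => Fin.castLE hn1 (a' i b)), ?_, ?_⟩
    · intro c
      refine Fin.cases ?_ (fun i => ?_) c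
      · simpa using hyy
      · simp only [Fin.cons_succ]
        intro h
        exact ha1 i (Fin.castLE_injective hn1 h)
    · have key : ∀ f : Fin (Q + 1) → Bool,
          C (fun c => (Fin.cons (fun b => if b then y' else y)
            (fun i b => Fin.castLE hn1 (a' i b)) : Fin (Q + 1) → Bool → Fin N) c (f c)) =
          Φ y (fun i => a' i (f i.succ)) := by
        intro f
        have h1 : (fun c => (Fin.cons (fun b => if b then y' else y)
            (fun i b => Fin.castLE hn1 (a' i b)) : Fin (Q + 1) → Bool → Fin N) c (f c)) =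
            Fin.cons (if f 0 then y' else y) (fun i => Fin.castLE hn1 (a' i (f i.succ))) := by
          funext c
          refine Fin.cases ?_ (fun i => ?_) c
          · simp
          · simp
        rw [h1]
        by_cases hf : f 0 = true
        · rw [if_pos hf]
          exact (congrFun hΦ (fun i => a' i (f i.succ))).symm
        · rw [if_neg hf]
      intro f g
      rw [key f, key g]
      exact ha2 (fun i => f i.succ) (fun i => g i.succ)

theorem p_PRL : S_PRL := by
  intro κ _ _ γ _ N r C hγ hr hN
  let e := Fintype.equivFin κ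
  obtain ⟨a, h1, h2⟩ := PRL_fin (Fintype.card κ) γ N r (fun h => C (fun c => h (e c))) hγ hr hN
  refine ⟨fun c b => a (e c) b, fun c => h1 (e c), fun f g => ?_⟩
  have h3 := h2 (fun i => f (e.symm i)) (fun i => g (e.symm i))
  simpa using h3

end Pool.E5
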