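import Pool.Agent.Work.MP_e5ffe1_all.Interface1

set_option autoImplicit false

namespace Pool.E5

theorem PSZ_getD {σ : Type} (f : ℕ → σ) (d : σ) {n i : ℕ} (hi : i < n) :
    ((List.range n).map f).getD i d = f i := by
  rw [List.getD_eq_getElem?_getD, List.getElem?_map, List.getElem?_range hi]
  rfl

theorem PSZ_gen {σ : Type} [Primcodable σ] (f : ℕ → σ) (g : List σ → σ) (hg : Primrec g)
    (H : ∀ n, g ((List.range n).map f) = f n) : Primrec f := by
  have h1 : Primrec₂ (fun (_ : Unit) (l : List σ) => some (g l)) :=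
    Primrec.option_some.comp (hg.comp Primrec.snd)
  have h2 : Primrec₂ (fun (_ : Unit) n => f n) :=
    Primrec.nat_strong_rec _ h1 fun _ n => by rw [H n]
  exact h2.comp (Primrec.const ()) Primrec.id

theorem p_PSZ : S_PSZ := by
  have hlen : Primrec (fun l : List ℕ => l.length) := Primrec.list_length
  have hm : Primrec fun l : List ℕ => l.length % 9 := Primrec.nat_mod.comp hlen (Primrec.const 9)
  have hd : Primrec fun l : List ℕ => l.length / 9 := Primrec.nat_div.comp hlen (Primrec.const 9)
  have hu := Primrec.unpair.comp hd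
  have hu1 := Primrec.fst.comp hu
  have hu2 := Primrec.snd.comp hu
  have hget : ∀ {h : List ℕ → ℕ}, Primrec h → Primrec fun l : List ℕ => l.getD (h l) 0 :=
    fun hh => (Primrec.list_getD 0).comp Primrec.id hh
  have heq : ∀ c : ℕ, PrimrecPred fun l : List ℕ => l.length % 9 = c :=
    fun c => Primrec.eq.comp hm (Primrec.const c)
  have hG : Primrec (fun l : List ℕ =>
      if l.length % 9 = 2 then 1
      else if l.length % 9 = 5 then l.getD (l.length / 9) 0 + 1
      else if l.length % 9 = 6 then
        (Nat.unpair (l.length / 9)).1 + l.getD (Nat.unpair (l.length / 9)).2 0 + 1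
      else if l.length % 9 = 3 ∨ l.length % 9 = 4 ∨ l.length % 9 = 7 then
        l.getD (Nat.unpair (l.length / 9)).1 0 + l.getD (Nat.unpair (l.length / 9)).2 0 + 1
      else l.length + 1) := by
    refine Primrec.ite (heq 2) (Primrec.const 1) ?_
    refine Primrec.ite (heq 5) (Primrec.succ.comp (hget hd)) ?_
    refine Primrec.ite (heq 6) (Primrec.succ.comp (Primrec.nat_add.comp hu1 (hget hu2))) ?_
    refine Primrec.ite ((heq 3).or ((heq 4).or (heq 7)))
      (Primrec.succ.comp (Primrec.nat_add.comp (hget hu1) (hget hu2))) ?_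
    exact Primrec.succ.comp hlen
  refine PSZ_gen sz _ hG fun n => ?_
  simp only [List.length_map, List.length_range]
  have h1 := Nat.unpair_left_le (n / 9)
  have h2 := Nat.unpair_right_le (n / 9)
  rw [sz]
  split_ifs with a b c d
  · rfl
  · rw [PSZ_getD sz 0 (by omega)]
  · rw [PSZ_getD sz 0 (by omega)]
  · rw [PSZ_getD sz 0 (by omega), PSZ_getD sz 0 (by omega)]
  · rfl

end Pool.E5
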