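import Pool.Agent.Work.MP_e5ffe1_all.Interface1

/-! # SEQ: the equations of Sat -/

set_option autoImplicit false

namespace Pool.E5

theorem SEQ_ne {n k m : ℕ} (h : n % 7 = k) (hk : k ≠ m) : ¬ n % 7 = m := fun h' => hk (h ▸ h')

theorem p_SEQ : S_SEQ := by
  intro R _ _ ρ
  refine ⟨?_, ?_, ?_, ?_, ?_, ?_, ?_⟩
  · intro i j
    have e1 : feq i j % 7 = 0 := by unfold feq; omega
    have e2 : feq i j / 7 = Nat.pair i j := by unfold feq; omega
    rw [Sat, if_pos e1, e2, Nat.unpair_pair]
  · intro i j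
    have e1 : flt i j % 7 = 1 := by unfold flt; omega
    have e2 : flt i j / 7 = Nat.pair i j := by unfold flt; omega
    rw [Sat, if_neg (SEQ_ne e1 (by decide)), if_pos e1, e2, Nat.unpair_pair]
  · intro i j k
    have e1 : fadd i j k % 7 = 2 := by unfold fadd; omega
    have e2 : fadd i j k / 7 = Nat.pair i (Nat.pair j k) := by unfold fadd; omega
    rw [Sat, if_neg (SEQ_ne e1 (by decide)), if_neg (SEQ_ne e1 (by decide)), if_pos e1, e2,
      Nat.unpair_pair]
    simp only [Nat.unpair_pair]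
  · intro i j k
    have e1 : fmul i j k % 7 = 3 := by unfold fmul; omega
    have e2 : fmul i j k / 7 = Nat.pair i (Nat.pair j k) := by unfold fmul; omega
    rw [Sat, if_neg (SEQ_ne e1 (by decide)), if_neg (SEQ_ne e1 (by decide)),
      if_neg (SEQ_ne e1 (by decide)), if_pos e1, e2, Nat.unpair_pair]
    simp only [Nat.unpair_pair]
  · intro φ
    have e1 : fneg φ % 7 = 4 := by unfold fneg; omega
    have e2 : fneg φ / 7 = φ := by unfold fneg; omega
    rw [Sat, if_neg (SEQ_ne e1 (by decide)), if_neg (SEQ_ne e1 (by decide)),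
      if_neg (SEQ_ne e1 (by decide)), if_neg (SEQ_ne e1 (by decide)), dif_pos e1, e2]
  · intro φ ψ
    have e1 : fand φ ψ % 7 = 5 := by unfold fand; omega
    have e2 : fand φ ψ / 7 = Nat.pair φ ψ := by unfold fand; omega
    rw [Sat, if_neg (SEQ_ne e1 (by decide)), if_neg (SEQ_ne e1 (by decide)),
      if_neg (SEQ_ne e1 (by decide)), if_neg (SEQ_ne e1 (by decide)),
      dif_neg (SEQ_ne e1 (by decide)), dif_pos e1, e2, Nat.unpair_pair]
  · intro φ
    have e1 : fex φ % 7 = 6 := by unfold fex; omega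
    have e2 : fex φ / 7 = φ := by unfold fex; omega
    rw [Sat, if_neg (SEQ_ne e1 (by decide)), if_neg (SEQ_ne e1 (by decide)),
      if_neg (SEQ_ne e1 (by decide)), if_neg (SEQ_ne e1 (by decide)),
      dif_neg (SEQ_ne e1 (by decide)), dif_neg (SEQ_ne e1 (by decide)), dif_pos e1, e2]

end Pool.E5
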