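import Pool.Agent.Work.MP_e5ffe1_all.Interface2

/-!
# Theorem E: block STB (terms along branches: level, size, extension)
-/

set_option autoImplicit false

namespace Pool.E5

theorem STB_idx (x : ℕ → Bool) (n : ℕ) : 2 ^ n ≤ idx x n ∧ idx x n < 2 ^ (n + 1) := by
  induction n with
  | zero => exact ⟨le_rfl, by norm_num [idx]⟩
  | succ n ih =>
    have h : idx x (n + 1) = 2 * idx x n + (x n).toNat := rfl
    have hb : (x n).toNat ≤ 1 := Bool.toNat_le _
    rw [h, pow_succ, pow_succ 2 (n + 1)]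
    omega

theorem p_STB (hEXQ : S_EXQ) : S_STB := by
  obtain ⟨s1, s2, s3, s4, s5, s6, s7, s8, s9, s10, l1, l2, l3, l4, l5, l6, l7, l8, l9, l10,
    e1, e2, e3, e4, e5, e6, e7, e8, e9, e10⟩ := hEXQ
  intro X u hu
  induction hu with
  | zero =>
    exact ⟨fun n => l8 n, ⟨1, fun n => s8⟩, ∅, Set.finite_empty, fun n r _ => (e8 r).symm⟩
  | one =>
    exact ⟨fun n => l9 n, ⟨2, fun n => s9⟩, ∅, Set.finite_empty, fun n r _ => (e9 r).symm⟩
  | par i =>
    exact ⟨fun n => l7 n i, ⟨_, fun n => s7 i⟩, ∅, Set.finite_empty, fun n r _ => (e7 r i).symm⟩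
  | lab x hx =>
    refine ⟨fun n => (l1 n _).mpr (STB_idx x n), ⟨1, fun n => s1 _⟩, {x}, Set.finite_singleton x, ?_⟩
    intro n r h
    have h1 := h x (Set.mem_singleton x)
    show clab (idx x (n + 1)) = ext r (clab (idx x n))
    rw [e1]
    unfold chd
    rw [h1]
    rfl
  | add u w _ _ ihu ihw =>
    obtain ⟨a1, ⟨k, a2⟩, F, hF, a3⟩ := ihu
    obtain ⟨b1, ⟨k', b2⟩, F', hF', b3⟩ := ihw
    refine ⟨fun n => ?_, ⟨k + k' + 1, fun n => ?_⟩, F ∪ F', hF.union hF', fun n r h => ?_⟩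
    · show lvb n (cadd (u n) (w n)) = true
      rw [l2, a1, b1]; rfl
    · show sz (cadd (u n) (w n)) = _
      rw [s2, a2, b2]
    · show cadd (u (n + 1)) (w (n + 1)) = ext r (cadd (u n) (w n))
      rw [e2, a3 n r fun x hx => h x (Or.inl hx), b3 n r fun x hx => h x (Or.inr hx)]
  | mul u w _ _ ihu ihw =>
    obtain ⟨a1, ⟨k, a2⟩, F, hF, a3⟩ := ihu
    obtain ⟨b1, ⟨k', b2⟩, F', hF', b3⟩ := ihw
    refine ⟨fun n => ?_, ⟨k + k' + 1, fun n => ?_⟩, F ∪ F', hF.union hF', fun n r h => ?_⟩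
    · show lvb n (cmul (u n) (w n)) = true
      rw [l3, a1, b1]; rfl
    · show sz (cmul (u n) (w n)) = _
      rw [s3, a2, b2]
    · show cmul (u (n + 1)) (w (n + 1)) = ext r (cmul (u n) (w n))
      rw [e3, a3 n r fun x hx => h x (Or.inl hx), b3 n r fun x hx => h x (Or.inr hx)]
  | neg u _ ihu =>
    obtain ⟨a1, ⟨k, a2⟩, F, hF, a3⟩ := ihu
    refine ⟨fun n => ?_, ⟨k + 1, fun n => ?_⟩, F, hF, fun n r h => ?_⟩
    · show lvb n (cneg (u n)) = true
      rw [l4, a1]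
    · show sz (cneg (u n)) = _
      rw [s4, a2]
    · show cneg (u (n + 1)) = ext r (cneg (u n))
      rw [e4, a3 n r h]
  | hen φ u _ ihu =>
    obtain ⟨a1, ⟨k, a2⟩, F, hF, a3⟩ := ihu
    refine ⟨fun n => ?_, ⟨φ + k + 1, fun n => ?_⟩, F, hF, fun n r h => ?_⟩
    · show lvb n (chen φ (u n)) = true
      rw [l5, a1]
    · show sz (chen φ (u n)) = _
      rw [s5, a2]
    · show chen φ (u (n + 1)) = ext r (chen φ (u n))
      rw [e5, a3 n r h]
  | cons u w _ _ ihu ihw =>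
    obtain ⟨a1, ⟨k, a2⟩, F, hF, a3⟩ := ihu
    obtain ⟨b1, ⟨k', b2⟩, F', hF', b3⟩ := ihw
    refine ⟨fun n => ?_, ⟨k + k' + 1, fun n => ?_⟩, F ∪ F', hF.union hF', fun n r h => ?_⟩
    · show lvb n (ccons (u n) (w n)) = true
      rw [l6, a1, b1]; rfl
    · show sz (ccons (u n) (w n)) = _
      rw [s6, a2, b2]
    · show ccons (u (n + 1)) (w (n + 1)) = ext r (ccons (u n) (w n))
      rw [e6, a3 n r fun x hx => h x (Or.inl hx), b3 n r fun x hx => h x (Or.inr hx)]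

end Pool.E5
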