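import Pool.Agent.Work.MP_e5ffe1_all.Interface2

/-! # Block STV: stability of the truth values along sequences of terms -/

set_option autoImplicit false

namespace Pool.E5

theorem STV_idx_succ (x : ℕ → Bool) (n : ℕ) : idx x (n + 1) = 2 * idx x n + (x n).toNat := rfl

theorem STV_idx_inj (x y : ℕ → Bool) (n : ℕ) (h : idx x n = idx y n) : ∀ i < n, x i = y i := by
  induction n with
  | zero =>
    intro i hi
    omega
  | succ n ih =>
    rw [STV_idx_succ, STV_idx_succ] at h
    have h1 : (x n).toNat ≤ 1 := by cases x n <;> simp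
    have h2 : (y n).toNat ≤ 1 := by cases y n <;> simp
    have h3 : idx x n = idx y n := by omega
    have h4 : (x n).toNat = (y n).toNat := by omega
    intro i hi
    rcases Nat.lt_succ_iff_lt_or_eq.1 hi with h5 | h5
    · exact ih h3 i h5
    · subst h5
      revert h4
      cases x i <;> cases y i <;> simp

theorem STV_bits (S : Finset ℕ) : ∃ r : ℕ, ∀ s, Nat.testBit r s = decide (s ∈ S) := by
  classical
  induction S using Finset.induction_on with
  | empty => exact ⟨0, fun s => by simp⟩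
  | insert a S _ ih =>
    obtain ⟨r, hr⟩ := ih
    refine ⟨r ||| 2 ^ a, fun s => ?_⟩
    rw [Nat.testBit_or, hr, Nat.testBit_two_pow]
    by_cases h1 : s ∈ S
    · simp [h1]
    · by_cases h2 : a = s
      · simp [h2]
      · have h3 : ¬ s = a := fun h => h2 h.symm
        simp [h1, h2, h3]

theorem STV_sep (F : Set (ℕ → Bool)) (hF : F.Finite) :
    ∃ N : ℕ, ∀ n, N ≤ n → ∀ x ∈ F, ∀ y ∈ F, idx x n = idx y n → x = y := by
  classical
  let m : (ℕ → Bool) × (ℕ → Bool) → ℕ := fun p =>
    if h : ∃ m, p.1 m ≠ p.2 m then Nat.find h + 1 else 0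
  have hfin : (m '' (F ×ˢ F)).Finite := (hF.prod hF).image m
  obtain ⟨N, hN⟩ := hfin.bddAbove
  refine ⟨N, fun n hn x hx y hy hxy => ?_⟩
  by_contra hne
  have hex : ∃ m, x m ≠ y m := by
    by_contra h
    push Not at h
    exact hne (funext h)
  have h1 : m (x, y) = Nat.find hex + 1 := by
    show (if h : ∃ m, x m ≠ y m then Nat.find h + 1 else 0) = _
    rw [dif_pos hex]
  have h2 : m (x, y) ≤ N := hN ⟨(x, y), ⟨hx, hy⟩, rfl⟩
  exact Nat.find_spec hex (STV_idx_inj x y n hxy (Nat.find hex) (by omega))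

theorem p_STV (hSTB : S_STB) (hEXQ : S_EXQ) : S_STV := by
  classical
  intro v hcoh X u hu
  obtain ⟨hl, ⟨k, hk⟩, F, hF, hext⟩ := hSTB X u hu
  obtain ⟨N, hN⟩ := STV_sep F hF
  obtain ⟨-, -, -, -, -, hszc, -, -, -, hszn, -, -, -, -, -, hlvc, -, -, -, hlvn, -, -, -, -, -,
    hexc, -, -, -, hexn⟩ := hEXQ
  refine ⟨N + k + 2, fun φ j n hn => ?_⟩
  obtain ⟨r, hr⟩ := STV_bits ((hF.toFinset.filter (fun x => x n = true)).image (fun x => idx x n))
  have hu1 : u (n + 1) = ext r (u n) := by
    apply hext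
    intro x hx
    rw [hr]
    cases hxn : x n with
    | true =>
      apply decide_eq_true
      exact Finset.mem_image.2 ⟨x, Finset.mem_filter.2 ⟨hF.mem_toFinset.2 hx, hxn⟩, rfl⟩
    | false =>
      apply decide_eq_false
      intro hmem
      obtain ⟨y, hy, hyx⟩ := Finset.mem_image.1 hmem
      obtain ⟨hyF, hyn⟩ := Finset.mem_filter.1 hy
      have : y = x := hN n (by omega) y (hF.mem_toFinset.1 hyF) x hx hyx
      subst this
      rw [hxn] at hyn
      exact Bool.noConfusion hyn
  constructor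
  · have h1 := hcoh (n + 1) n (Nat.lt_succ_self n) φ (ccons (num j) (u n)) r
      (by rw [hlvc, hlvn, hl n]; rfl) (by rw [hszc, hszn, hk n]; omega)
    rw [h1, hexc, hexn, hu1]
  · have h1 := hcoh (n + 1) n (Nat.lt_succ_self n) φ (u n) r (hl n) (by rw [hk n]; omega)
    rw [h1, hu1]

end Pool.E5
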