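import Pool.Agent.Work.MP_e5ffe1_all.Interface2
import Pool.Agent.Work.MP_e5ffe1_lc_helper93.Comp

set_option autoImplicit false

namespace Pool.E5

open Filter
open Pool.Agent.Work.MP_e5ffe1_h93 (TR orc ch ch_of_mem ch_of_notMem orc_self)

theorem TRC_mono {Z : Set ℕ} {O : Set (ℕ →. ℕ)} {f : ℕ → ℕ} (hf : TR (orc Z) f)
    (h : TR O (ch Z)) : TR O f :=
  Nat.RecursiveIn.subst hf (fun g hg => by
    rw [Set.mem_singleton_iff.1 hg]
    exact h)

theorem TRC_pr {O : Set (ℕ →. ℕ)} {f : ℕ → ℕ} (hf : Primrec f) : TR O f :=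
  TR.of_primrec (Primrec.nat_iff.1 hf)

theorem TRC_bin {O : Set (ℕ →. ℕ)} {h : ℕ → ℕ → ℕ} (hh : Primrec₂ h) {f g : ℕ → ℕ}
    (hf : TR O f) (hg : TR O g) : TR O (fun n => h (f n) (g n)) := by
  have h1 : TR O (fun n => h n.unpair.1 n.unpair.2) :=
    TRC_pr (hh.comp (Primrec.fst.comp Primrec.unpair) (Primrec.snd.comp Primrec.unpair))
  refine (h1.comp (hf.pair hg)).of_eq (fun n => ?_)
  simp

theorem TRC_pair (c : ℕ) : Primrec₂ (fun a b : ℕ => 9 * Nat.pair a b + c) :=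
  Primrec.nat_add.comp
    (Primrec.nat_mul.comp (Primrec.const 9) (Primrec₂.natPair.comp Primrec.fst Primrec.snd))
    (Primrec.const c)

theorem TRC_un (c : ℕ) : Primrec (fun a : ℕ => 9 * a + c) :=
  Primrec.nat_add.comp (Primrec.nat_mul.comp (Primrec.const 9) Primrec.id) (Primrec.const c)

theorem TRC_idx {O : Set (ℕ →. ℕ)} {x : ℕ → Bool} (h : TR O (ch {n : ℕ | x n = true})) :
    TR O (idx x) := by
  have h1 : TR O (fun p => 2 * (Nat.unpair p).2 + ch {n : ℕ | x n = true} (Nat.unpair p).1) := by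
    have e : Primrec₂ (fun a b : ℕ => 2 * a + b) :=
      Primrec.nat_add.comp (Primrec.nat_mul.comp (Primrec.const 2) Primrec.fst) Primrec.snd
    exact TRC_bin e TR.right (h.comp TR.left)
  refine (TR.rec0 1 h1).of_eq (fun n => ?_)
  induction n with
  | zero => rfl
  | succ n ih =>
    have e1 : idx x (n + 1) = 2 * idx x n + (x n).toNat := rfl
    have e2 : ch {n : ℕ | x n = true} n = (x n).toNat := by
      by_cases hx : x n = true
      · rw [ch_of_mem (show n ∈ {n : ℕ | x n = true} from hx), hx]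
        rfl
      · rw [ch_of_notMem (show n ∉ {n : ℕ | x n = true} from hx)]
        have hx' : x n = false := by simpa using hx
        rw [hx']
        rfl
    simp only [Nat.unpair_pair] at ih ⊢
    rw [ih, e1, e2]

theorem TRC_uu {S : Set (Set ℕ)} (hS : Sc S) : ∀ u, UU (XS S) u → ∃ Z ∈ S, TR (orc Z) u := by
  obtain ⟨Z0, hZ0⟩ := hS.ne
  have join : ∀ {u w : ℕ → ℕ} {Z1 Z2 : Set ℕ}, TR (orc Z1) u → TR (orc Z2) w →
      TR (orc (J Z1 Z2)) u ∧ TR (orc (J Z1 Z2)) w := by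
    intro u w Z1 Z2 h1 h2
    exact ⟨TRC_mono h1 (Pool.Agent.Work.MP_e5ffe1_h93.le_iff.1
      (Pool.Agent.Work.MP_e5ffe1_h93.le_J_left Z1 Z2)),
      TRC_mono h2 (Pool.Agent.Work.MP_e5ffe1_h93.le_iff.1
      (Pool.Agent.Work.MP_e5ffe1_h93.le_J_right Z1 Z2))⟩
  intro u hu
  induction hu with
  | zero => exact ⟨Z0, hZ0, TR.const 0⟩
  | one => exact ⟨Z0, hZ0, TR.const co⟩
  | par i => exact ⟨Z0, hZ0, TR.const (cpar i)⟩
  | lab x hx => exact ⟨_, hx, (TRC_pr (TRC_un 2)).comp (TRC_idx (orc_self _))⟩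
  | add u w _ _ ih1 ih2 =>
    obtain ⟨Z1, hZ1, h1⟩ := ih1
    obtain ⟨Z2, hZ2, h2⟩ := ih2
    obtain ⟨h3, h4⟩ := join h1 h2
    exact ⟨_, hS.join _ hZ1 _ hZ2, TRC_bin (TRC_pair 3) h3 h4⟩
  | mul u w _ _ ih1 ih2 =>
    obtain ⟨Z1, hZ1, h1⟩ := ih1
    obtain ⟨Z2, hZ2, h2⟩ := ih2
    obtain ⟨h3, h4⟩ := join h1 h2
    exact ⟨_, hS.join _ hZ1 _ hZ2, TRC_bin (TRC_pair 4) h3 h4⟩
  | neg u _ ih =>
    obtain ⟨Z1, hZ1, h1⟩ := ih
    exact ⟨_, hZ1, (TRC_pr (TRC_un 5)).comp h1⟩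
  | hen φ u _ ih =>
    obtain ⟨Z1, hZ1, h1⟩ := ih
    exact ⟨_, hZ1, TRC_bin (TRC_pair 6) (TR.const φ) h1⟩
  | cons u w _ _ ih1 ih2 =>
    obtain ⟨Z1, hZ1, h1⟩ := ih1
    obtain ⟨Z2, hZ2, h2⟩ := ih2
    obtain ⟨h3, h4⟩ := join h1 h2
    exact ⟨_, hS.join _ hZ1 _ hZ2, TRC_bin (TRC_pair 7) h3 h4⟩

/-- block TRC -/
theorem p_TRC (hSTV : S_STV) (hPGT : S_PGT) : S_TRC := by
  intro S hS v hv hcoh u hu φ
  obtain ⟨Z, hZ, hZu⟩ := TRC_uu hS u hu
  obtain ⟨n1, hn1⟩ := hSTV v hcoh (XS S) u hu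
  have hst : ∀ j n, n1 + φ + 3 * j ≤ n →
      v (Nat.pair φ (ccons (num j) (u n))) =
        v (Nat.pair φ (ccons (num j) (u (n1 + φ + 3 * j)))) := by
    intro j n hn
    induction n, hn using Nat.le_induction with
    | base => rfl
    | succ n hn ih => rw [← (hn1 φ j n hn).1]; exact ih
  have hmem : ∀ j, (∀ᶠ n in atTop, v (Nat.pair φ (ccons (num j) (u n))) = true) ↔
      v (Nat.pair φ (ccons (num j) (u (n1 + φ + 3 * j)))) = true := by
    intro j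
    constructor
    · intro h
      obtain ⟨n, h1, h2⟩ := (h.and (eventually_ge_atTop (n1 + φ + 3 * j))).exists
      rw [← hst j n h2]
      exact h1
    · intro h
      refine eventually_atTop.2 ⟨n1 + φ + 3 * j, fun n hn => ?_⟩
      rw [hst j n hn]
      exact h
  have hW := hS.join Z hZ _ hv
  refine hS.tr _ hW _ ?_
  refine Pool.Agent.Work.MP_e5ffe1_h93.le_iff.2 ?_
  have hu' : TR (orc (J Z {n : ℕ | v n = true})) u :=
    TRC_mono hZu (Pool.Agent.Work.MP_e5ffe1_h93.le_iff.1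
      (Pool.Agent.Work.MP_e5ffe1_h93.le_J_left _ _))
  have hv' : TR (orc (J Z {n : ℕ | v n = true})) (ch {n : ℕ | v n = true}) :=
    Pool.Agent.Work.MP_e5ffe1_h93.le_iff.1 (Pool.Agent.Work.MP_e5ffe1_h93.le_J_right _ _)
  have hlin : Primrec (fun j : ℕ => n1 + φ + 3 * j) :=
    Primrec.nat_add.comp (Primrec.const _) (Primrec.nat_mul.comp (Primrec.const 3) Primrec.id)
  have h1 : TR (orc (J Z {n : ℕ | v n = true})) (fun j => u (n1 + φ + 3 * j)) :=
    hu'.comp (TRC_pr hlin)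
  have h2 : TR (orc (J Z {n : ℕ | v n = true}))
      (fun j => ccons (num j) (u (n1 + φ + 3 * j))) :=
    TRC_bin (TRC_pair 7) (TRC_pr hPGT.2) h1
  have h3 : TR (orc (J Z {n : ℕ | v n = true}))
      (fun j => Nat.pair φ (ccons (num j) (u (n1 + φ + 3 * j)))) :=
    (TR.const φ).pair h2
  refine (hv'.comp h3).of_eq (fun j => ?_)
  by_cases hj : v (Nat.pair φ (ccons (num j) (u (n1 + φ + 3 * j)))) = true
  · rw [ch_of_mem (show Nat.pair φ (ccons (num j) (u (n1 + φ + 3 * j))) ∈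
      {n : ℕ | v n = true} from hj), ch_of_mem]
    exact (hmem j).2 hj
  · rw [ch_of_notMem (show Nat.pair φ (ccons (num j) (u (n1 + φ + 3 * j))) ∉
      {n : ℕ | v n = true} from hj), ch_of_notMem]
    exact fun h => hj ((hmem j).1 h)

end Pool.E5
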