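import Pool.Agent.Work.MP_e5ffe1_all.Interface2

set_option autoImplicit false

namespace Pool.E5

theorem TRU_cns {T : Type} (D : Dt T) (hA : D.Ax) {R : Type} (q : T → R) (t e : T) :
    (fun i => q (D.get (D.cons t e) i)) = cns (q t) (fun i => q (D.get e i)) := by
  funext i
  cases i with
  | zero => simp only [cns, hA.get_zero]
  | succ i => simp only [cns, hA.get_succ]

theorem p_TRU (hSEQ : S_SEQ) (hFND : S_FND) : S_TRU := by
  intro T D hA R _ _ q hq
  refine hFND (fun φ => ∀ e, D.V φ e ↔ Sat R φ (fun i => q (D.get e i))) ?_ ?_ ?_ ?_ ?_ ?_ ?_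
  · intro i j e
    rw [(hSEQ R _).1, hA.eq', hq.eq']
  · intro i j e
    rw [(hSEQ R _).2.1, hA.lt', hq.lt']
  · intro i j k e
    rw [(hSEQ R _).2.2.1, hA.add', hq.eq', hq.add']
  · intro i j k e
    rw [(hSEQ R _).2.2.2.1, hA.mul', hq.eq', hq.mul']
  · intro φ ih e
    rw [(hSEQ R _).2.2.2.2.1, hA.neg', ih]
  · intro φ ψ ih1 ih2 e
    rw [(hSEQ R _).2.2.2.2.2.1, hA.and', ih1, ih2]
  · intro φ ih e
    rw [(hSEQ R _).2.2.2.2.2.2, hA.ex']
    constructor
    · intro h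
      refine ⟨q (D.hen φ e), ?_⟩
      rw [ih, TRU_cns D hA q] at h
      exact h
    · rintro ⟨a, ha⟩
      obtain ⟨t, rfl⟩ := hq.surj a
      rw [← TRU_cns D hA q, ← ih] at ha
      exact (hA.wit φ t e ha).1

end Pool.E5
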