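import Pool.Agent.Work.MP_e5ffe1_all.Interface1

/-!
# UA2: the axioms, part 2, are uniformly checkable
-/

set_option autoImplicit false

namespace Pool.E5

/-- equality, as a Boolean -/
def UA2_E (v : ℕ → Bool) (a b : ℕ) : Bool := v (Nat.pair (feq 0 1) (ccons a (ccons b 0)))
/-- order, as a Boolean -/
def UA2_L (v : ℕ → Bool) (a b : ℕ) : Bool := v (Nat.pair (flt 0 1) (ccons a (ccons b 0)))
/-- implication -/
def UA2_im (x y : Bool) : Bool := !x || y

theorem UA2_im_iff (x y : Bool) : UA2_im x y = true ↔ (x = true → y = true) := by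
  cases x <;> cases y <;> simp [UA2_im]

theorem UA2_E_iff (v : ℕ → Bool) (a b : ℕ) : (VD v).E a b ↔ UA2_E v a b = true := Iff.rfl
theorem UA2_L_iff (v : ℕ → Bool) (a b : ℕ) : (VD v).L a b ↔ UA2_L v a b = true := Iff.rfl

/-- the first eight clauses -/
def UA2_G1 (v : ℕ → Bool) (a b c : ℕ) : Bool :=
  UA2_E v a a && (UA2_im (UA2_E v a b) (UA2_E v b a) &&
  (UA2_im (UA2_E v a b) (UA2_im (UA2_E v b c) (UA2_E v a c)) &&
  (UA2_im (UA2_E v a b) (UA2_E v (cadd a c) (cadd b c)) &&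
  (UA2_im (UA2_E v a b) (UA2_E v (cmul a c) (cmul b c)) &&
  (UA2_im (UA2_E v a b) (UA2_E v (cneg a) (cneg b)) &&
  (UA2_im (UA2_E v a b) (UA2_im (UA2_L v a c) (UA2_L v b c)) &&
  UA2_im (UA2_E v a b) (UA2_im (UA2_L v c a) (UA2_L v c b))))))))

/-- the last eight clauses -/
def UA2_G2 (v : ℕ → Bool) (a b c : ℕ) : Bool :=
  UA2_E v (cadd (cadd a b) c) (cadd a (cadd b c)) &&
  (UA2_E v (cadd a b) (cadd b a) && (UA2_E v (cadd 0 a) a &&
  (UA2_E v (cadd (cneg a) a) 0 &&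
  (UA2_E v (cmul (cmul a b) c) (cmul a (cmul b c)) &&
  (UA2_E v (cmul a b) (cmul b a) && (UA2_E v (cmul co a) a &&
  UA2_E v (cmul a (cadd b c)) (cadd (cmul a b) (cmul a c))))))))

theorem UA2_Ax (v : ℕ → Bool) :
    (∀ a b c, (UA2_G1 v a b c && UA2_G2 v a b c) = true) ↔ (VD v).Ax2 := by
  simp only [UA2_G1, UA2_G2, Bool.and_eq_true, UA2_im_iff]
  constructor
  · intro h
    exact
      { refl := fun a => (h a a a).1.1
        symm := fun a b => (h a b a).1.2.1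
        trans := fun a b c => (h a b c).1.2.2.1
        congr_add := fun a b c => (h a b c).1.2.2.2.1
        congr_mul := fun a b c => (h a b c).1.2.2.2.2.1
        congr_neg := fun a b => (h a b a).1.2.2.2.2.2.1
        congr_lt := fun a b c => (h a b c).1.2.2.2.2.2.2.1
        congr_lt2 := fun a b c => (h a b c).1.2.2.2.2.2.2.2
        add_assoc := fun a b c => (h a b c).2.1
        add_comm := fun a b => (h a b a).2.2.1
        zero_add := fun a => (h a a a).2.2.2.1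
        neg_add := fun a => (h a a a).2.2.2.2.1
        mul_assoc := fun a b c => (h a b c).2.2.2.2.2.1
        mul_comm := fun a b => (h a b a).2.2.2.2.2.2.1
        one_mul := fun a => (h a a a).2.2.2.2.2.2.2.1
        distrib := fun a b c => (h a b c).2.2.2.2.2.2.2.2 }
  · intro h a b c
    exact ⟨⟨h.refl a, h.symm a b, h.trans a b c, h.congr_add a b c, h.congr_mul a b c,
      h.congr_neg a b, h.congr_lt a b c, h.congr_lt2 a b c⟩,
      h.add_assoc a b c, h.add_comm a b, h.zero_add a, h.neg_add a, h.mul_assoc a b c,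
      h.mul_comm a b, h.one_mul a, h.distrib a b c⟩

theorem UA2_pad {f g : ℕ → ℕ} (hf : Primrec f) (hg : Primrec g) :
    Primrec fun n => cadd (f n) (g n) :=
  Primrec.nat_add.comp (Primrec.nat_mul.comp (Primrec.const 9) (Primrec₂.natPair.comp hf hg))
    (Primrec.const 3)

theorem UA2_pmu {f g : ℕ → ℕ} (hf : Primrec f) (hg : Primrec g) :
    Primrec fun n => cmul (f n) (g n) :=
  Primrec.nat_add.comp (Primrec.nat_mul.comp (Primrec.const 9) (Primrec₂.natPair.comp hf hg))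
    (Primrec.const 4)

theorem UA2_pco {f g : ℕ → ℕ} (hf : Primrec f) (hg : Primrec g) :
    Primrec fun n => ccons (f n) (g n) :=
  Primrec.nat_add.comp (Primrec.nat_mul.comp (Primrec.const 9) (Primrec₂.natPair.comp hf hg))
    (Primrec.const 7)

theorem UA2_pne {f : ℕ → ℕ} (hf : Primrec f) : Primrec fun n => cneg (f n) :=
  Primrec.nat_add.comp (Primrec.nat_mul.comp (Primrec.const 9) hf) (Primrec.const 5)

/-- components -/
def UA2_A (n : ℕ) : ℕ := (Nat.unpair n).1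
def UA2_B (n : ℕ) : ℕ := (Nat.unpair (Nat.unpair n).2).1
def UA2_C (n : ℕ) : ℕ := (Nat.unpair (Nat.unpair n).2).2

theorem UA2_pA : Primrec UA2_A := Primrec.fst.comp Primrec.unpair
theorem UA2_pB : Primrec UA2_B :=
  Primrec.fst.comp (Primrec.unpair.comp (Primrec.snd.comp Primrec.unpair))
theorem UA2_pC : Primrec UA2_C :=
  Primrec.snd.comp (Primrec.unpair.comp (Primrec.snd.comp Primrec.unpair))

theorem UA2_uE (h : S_UCC) {f g : ℕ → ℕ} (hf : Primrec f) (hg : Primrec g) :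
    UC (fun v n => UA2_E v (f n) (g n)) :=
  h.1 _ (Primrec₂.natPair.comp (Primrec.const (feq 0 1))
    (UA2_pco hf (UA2_pco hg (Primrec.const 0))))

theorem UA2_uL (h : S_UCC) {f g : ℕ → ℕ} (hf : Primrec f) (hg : Primrec g) :
    UC (fun v n => UA2_L v (f n) (g n)) :=
  h.1 _ (Primrec₂.natPair.comp (Primrec.const (flt 0 1))
    (UA2_pco hf (UA2_pco hg (Primrec.const 0))))

theorem UA2_uim (h : S_UCC) {g g' : (ℕ → Bool) → ℕ → Bool} (hg : UC g) (hg' : UC g') :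
    UC (fun v n => UA2_im (g v n) (g' v n)) :=
  h.2.2.2.2.1 _ _ (h.2.2.1 _ hg) hg'

theorem UA2_uand (h : S_UCC) {g g' : (ℕ → Bool) → ℕ → Bool} (hg : UC g) (hg' : UC g') :
    UC (fun v n => g v n && g' v n) :=
  h.2.2.2.1 _ _ hg hg'

theorem UA2_u1 (h : S_UCC) : UC (fun v n => UA2_G1 v (UA2_A n) (UA2_B n) (UA2_C n)) := by
  have hab := UA2_uE h UA2_pA UA2_pB
  exact UA2_uand h (UA2_uE h UA2_pA UA2_pA) (UA2_uand h (UA2_uim h hab (UA2_uE h UA2_pB UA2_pA))
    (UA2_uand h (UA2_uim h hab (UA2_uim h (UA2_uE h UA2_pB UA2_pC) (UA2_uE h UA2_pA UA2_pC)))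
    (UA2_uand h (UA2_uim h hab (UA2_uE h (UA2_pad UA2_pA UA2_pC) (UA2_pad UA2_pB UA2_pC)))
    (UA2_uand h (UA2_uim h hab (UA2_uE h (UA2_pmu UA2_pA UA2_pC) (UA2_pmu UA2_pB UA2_pC)))
    (UA2_uand h (UA2_uim h hab (UA2_uE h (UA2_pne UA2_pA) (UA2_pne UA2_pB)))
    (UA2_uand h (UA2_uim h hab (UA2_uim h (UA2_uL h UA2_pA UA2_pC) (UA2_uL h UA2_pB UA2_pC)))
    (UA2_uim h hab (UA2_uim h (UA2_uL h UA2_pC UA2_pA) (UA2_uL h UA2_pC UA2_pB)))))))))

theorem UA2_u2 (h : S_UCC) : UC (fun v n => UA2_G2 v (UA2_A n) (UA2_B n) (UA2_C n)) := by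
  have a := UA2_pA
  have b := UA2_pB
  have c := UA2_pC
  exact UA2_uand h (UA2_uE h (UA2_pad (UA2_pad a b) c) (UA2_pad a (UA2_pad b c)))
    (UA2_uand h (UA2_uE h (UA2_pad a b) (UA2_pad b a))
    (UA2_uand h (UA2_uE h (UA2_pad (Primrec.const 0) a) a)
    (UA2_uand h (UA2_uE h (UA2_pad (UA2_pne a) a) (Primrec.const 0))
    (UA2_uand h (UA2_uE h (UA2_pmu (UA2_pmu a b) c) (UA2_pmu a (UA2_pmu b c)))
    (UA2_uand h (UA2_uE h (UA2_pmu a b) (UA2_pmu b a))
    (UA2_uand h (UA2_uE h (UA2_pmu (Primrec.const co) a) a)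
    (UA2_uE h (UA2_pmu a (UA2_pad b c)) (UA2_pad (UA2_pmu a b) (UA2_pmu a c)))))))))

theorem p_UA2 (hUCC : S_UCC) : S_UA2 := by
  refine ⟨fun v n => UA2_G1 v (UA2_A n) (UA2_B n) (UA2_C n) &&
    UA2_G2 v (UA2_A n) (UA2_B n) (UA2_C n), UA2_uand hUCC (UA2_u1 hUCC) (UA2_u2 hUCC),
    fun v => ?_⟩
  rw [← UA2_Ax]
  constructor
  · intro h a b c
    have := h (Nat.pair a (Nat.pair b c))
    simpa only [UA2_A, UA2_B, UA2_C, Nat.unpair_pair] using this
  · intro h n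
    exact h _ _ _

end Pool.E5
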