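import Pool.Agent.Work.MP_e5ffe1_all.Interface1

/-!
# Block UA3
-/

set_option autoImplicit false

namespace Pool.E5

/-- position of the comparison -/
def UA3_pL (a b : ℕ) : ℕ := Nat.pair (flt 0 1) (ccons a (ccons b 0))
/-- position of the equation -/
def UA3_pE (a b : ℕ) : ℕ := Nat.pair (feq 0 1) (ccons a (ccons b 0))

theorem UA3_cc {f g : ℕ → ℕ} (hf : Primrec f) (hg : Primrec g) :
    Primrec (fun n => ccons (f n) (g n)) :=
  Primrec.nat_add.comp (Primrec.nat_mul.comp (Primrec.const 9) (Primrec₂.natPair.comp hf hg))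
    (Primrec.const 7)

theorem UA3_ca {f g : ℕ → ℕ} (hf : Primrec f) (hg : Primrec g) :
    Primrec (fun n => cadd (f n) (g n)) :=
  Primrec.nat_add.comp (Primrec.nat_mul.comp (Primrec.const 9) (Primrec₂.natPair.comp hf hg))
    (Primrec.const 3)

theorem UA3_cm {f g : ℕ → ℕ} (hf : Primrec f) (hg : Primrec g) :
    Primrec (fun n => cmul (f n) (g n)) :=
  Primrec.nat_add.comp (Primrec.nat_mul.comp (Primrec.const 9) (Primrec₂.natPair.comp hf hg))
    (Primrec.const 4)

theorem UA3_prL {f g : ℕ → ℕ} (hf : Primrec f) (hg : Primrec g) :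
    Primrec (fun n => UA3_pL (f n) (g n)) :=
  Primrec₂.natPair.comp (Primrec.const _) (UA3_cc hf (UA3_cc hg (Primrec.const 0)))

theorem UA3_prE {f g : ℕ → ℕ} (hf : Primrec f) (hg : Primrec g) :
    Primrec (fun n => UA3_pE (f n) (g n)) :=
  Primrec₂.natPair.comp (Primrec.const _) (UA3_cc hf (UA3_cc hg (Primrec.const 0)))

theorem UA3_n (x : Bool) : (!x) = true ↔ ¬ x = true := by cases x <;> simp
theorem UA3_i2 (x y z : Bool) : (!x || (!y || z)) = true ↔ (x = true → y = true → z = true) := by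
  cases x <;> cases y <;> cases z <;> simp
theorem UA3_i1 (x y : Bool) : (!x || y) = true ↔ (x = true → y = true) := by
  cases x <;> cases y <;> simp
theorem UA3_o3 (x y z : Bool) : (x || (y || z)) = true ↔ (x = true ∨ y = true ∨ z = true) := by
  cases x <;> cases y <;> cases z <;> simp
theorem UA3_d (x y : Bool) : (!x || !y) = true ↔ (x = true → ¬ y = true) := by
  cases x <;> cases y <;> simp

/-- the clause -/
def UA3_g (v : ℕ → Bool) (a b c : ℕ) : Bool :=
  (!(v (UA3_pL a a))) && ((!(v (UA3_pL a b)) || (!(v (UA3_pL b c)) || v (UA3_pL a c))) &&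
    ((v (UA3_pL a b) || (v (UA3_pE a b) || v (UA3_pL b a))) &&
      ((!(v (UA3_pL a b)) || v (UA3_pL (cadd a c) (cadd b c))) &&
        ((!(v (UA3_pL 0 a)) || (!(v (UA3_pL 0 b)) || v (UA3_pL 0 (cmul a b)))) &&
          (v (UA3_pL 0 co) && (!(v (UA3_pL 0 a)) || !(v (UA3_pL a co))))))))

theorem UA3_iff (v : ℕ → Bool) (a b c : ℕ) : UA3_g v a b c = true ↔
    (¬ (VD v).L a a) ∧ ((VD v).L a b → (VD v).L b c → (VD v).L a c) ∧
    ((VD v).L a b ∨ (VD v).E a b ∨ (VD v).L b a) ∧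
    ((VD v).L a b → (VD v).L ((VD v).add a c) ((VD v).add b c)) ∧
    ((VD v).L (VD v).zero a → (VD v).L (VD v).zero b → (VD v).L (VD v).zero ((VD v).mul a b)) ∧
    (VD v).L (VD v).zero (VD v).one ∧ ((VD v).L (VD v).zero a → ¬ (VD v).L a (VD v).one) := by
  unfold UA3_g
  rw [Bool.and_eq_true, Bool.and_eq_true, Bool.and_eq_true, Bool.and_eq_true, Bool.and_eq_true,
    Bool.and_eq_true, UA3_n, UA3_i2, UA3_o3, UA3_i1, UA3_i2, UA3_d]
  exact Iff.rfl

theorem p_UA3 (hUCC : S_UCC) : S_UA3 := by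
  obtain ⟨q, _, neg, and', or', _, _⟩ := hUCC
  have ha : Primrec (fun n : ℕ => (Nat.unpair n).1) := Primrec.fst.comp Primrec.unpair
  have hs : Primrec (fun n : ℕ => (Nat.unpair n).2) := Primrec.snd.comp Primrec.unpair
  have hb : Primrec (fun n : ℕ => (Nat.unpair (Nat.unpair n).2).1) := ha.comp hs
  have hc : Primrec (fun n : ℕ => (Nat.unpair (Nat.unpair n).2).2) := hs.comp hs
  have h0 : Primrec (fun _ : ℕ => (0 : ℕ)) := Primrec.const 0
  have h1 : Primrec (fun _ : ℕ => co) := Primrec.const co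
  refine ⟨fun v n => UA3_g v (Nat.unpair n).1 (Nat.unpair (Nat.unpair n).2).1
    (Nat.unpair (Nat.unpair n).2).2, ?_, ?_⟩
  · unfold UA3_g
    refine and' _ _ (neg _ (q _ (UA3_prL ha ha))) ?_
    refine and' _ _ (or' _ _ (neg _ (q _ (UA3_prL ha hb))) (or' _ _ (neg _ (q _ (UA3_prL hb hc)))
      (q _ (UA3_prL ha hc)))) ?_
    refine and' _ _ (or' _ _ (q _ (UA3_prL ha hb)) (or' _ _ (q _ (UA3_prE ha hb))
      (q _ (UA3_prL hb ha)))) ?_
    refine and' _ _ (or' _ _ (neg _ (q _ (UA3_prL ha hb)))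
      (q _ (UA3_prL (UA3_ca ha hc) (UA3_ca hb hc)))) ?_
    refine and' _ _ (or' _ _ (neg _ (q _ (UA3_prL h0 ha))) (or' _ _ (neg _ (q _ (UA3_prL h0 hb)))
      (q _ (UA3_prL h0 (UA3_cm ha hb))))) ?_
    refine and' _ _ (q _ (UA3_prL h0 h1)) ?_
    exact or' _ _ (neg _ (q _ (UA3_prL h0 ha))) (neg _ (q _ (UA3_prL ha h1)))
  · intro v
    constructor
    · intro h
      have h' : ∀ a b c, UA3_g v a b c = true := by
        intro a b c
        have := h (Nat.pair a (Nat.pair b c))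
        simpa only [Nat.unpair_pair] using this
      exact {
        irrefl := fun a => ((UA3_iff v a 0 0).1 (h' a 0 0)).1
        lt_trans := fun a b c => ((UA3_iff v a b c).1 (h' a b c)).2.1
        tri := fun a b => ((UA3_iff v a b 0).1 (h' a b 0)).2.2.1
        add_lt := fun a b c => ((UA3_iff v a b c).1 (h' a b c)).2.2.2.1
        mul_pos := fun a b => ((UA3_iff v a b 0).1 (h' a b 0)).2.2.2.2.1
        zero_lt_one := ((UA3_iff v 0 0 0).1 (h' 0 0 0)).2.2.2.2.2.1
        discr := fun a => ((UA3_iff v a 0 0).1 (h' a 0 0)).2.2.2.2.2.2 }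
    · intro h n
      exact (UA3_iff v _ _ _).2 ⟨h.irrefl _, h.lt_trans _ _ _, h.tri _ _, h.add_lt _ _ _,
        h.mul_pos _ _, h.zero_lt_one, h.discr _⟩

end Pool.E5
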