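import Pool.Agent.Work.MP_e5ffe1_all.Interface1

/-! Block UBG of MP_e5ffe1_lc, Theorem E. -/

set_option autoImplicit false

namespace Pool.E5

def UBG_m (n : ℕ) : ℕ := (Nat.unpair n).1
def UBG_s (n : ℕ) : ℕ := (Nat.unpair (Nat.unpair n).2).1
def UBG_k (n : ℕ) : ℕ := (Nat.unpair (Nat.unpair n).2).2

theorem UBG_pow {f g : ℕ → ℕ} (hf : Primrec f) (hg : Primrec g) :
    Primrec (fun n => f n ^ g n) :=
  (Primrec₂.unpaired'.1 Nat.Primrec.pow).comp hf hg

theorem UBG_cons {f g : ℕ → ℕ} (hf : Primrec f) (hg : Primrec g) :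
    Primrec (fun n => ccons (f n) (g n)) :=
  Primrec.nat_add.comp (Primrec.nat_mul.comp (Primrec.const 9) (Primrec₂.natPair.comp hf hg))
    (Primrec.const 7)

theorem UBG_lab {f : ℕ → ℕ} (hf : Primrec f) : Primrec (fun n => clab (f n)) :=
  Primrec.nat_add.comp (Primrec.nat_mul.comp (Primrec.const 9) hf) (Primrec.const 2)

theorem p_UBG (hUCC : S_UCC) (hPGT : S_PGT) : S_UBG := by
  obtain ⟨u1, u2, u3, u4, u5, u6, u7⟩ := hUCC
  have hl : Primrec (fun n : ℕ => (Nat.unpair n).1) := Primrec.fst.comp Primrec.unpair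
  have hr : Primrec (fun n : ℕ => (Nat.unpair n).2) := Primrec.snd.comp Primrec.unpair
  have hm : Primrec UBG_m := hl
  have hs : Primrec UBG_s := hl.comp hr
  have hk : Primrec UBG_k := hr.comp hr
  have c1 : Primrec (fun n => decide (2 ^ UBG_m n ≤ UBG_s n)) :=
    (Primrec.nat_le.comp (UBG_pow (Primrec.const 2) hm) hs).decide
  have c2 : Primrec (fun n => decide (UBG_s n < 2 ^ (UBG_m n + 1))) :=
    (Primrec.nat_lt.comp hs (UBG_pow (Primrec.const 2) (Primrec.succ.comp hm))).decide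
  have c3 : Primrec (fun n => decide (UBG_k n ≤ UBG_m n)) := (Primrec.nat_le.comp hk hm).decide
  have hC : Primrec (fun n => decide (2 ^ UBG_m n ≤ UBG_s n) &&
      (decide (UBG_s n < 2 ^ (UBG_m n + 1)) && decide (UBG_k n ≤ UBG_m n))) :=
    Primrec.and.comp c1 (Primrec.and.comp c2 c3)
  have hp : Primrec (fun n => Nat.pair (flt 0 1)
      (ccons (num (UBG_k n)) (ccons (clab (UBG_s n)) 0))) :=
    Primrec₂.natPair.comp (Primrec.const _)
      (UBG_cons (hPGT.2.comp hk) (UBG_cons (UBG_lab hs) (Primrec.const 0)))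
  refine ⟨fun v n => !(decide (2 ^ UBG_m n ≤ UBG_s n) &&
      (decide (UBG_s n < 2 ^ (UBG_m n + 1)) && decide (UBG_k n ≤ UBG_m n))) ||
    v (Nat.pair (flt 0 1) (ccons (num (UBG_k n)) (ccons (clab (UBG_s n)) 0))),
    u5 _ _ (u3 _ (u2 _ hC)) (u1 _ hp), ?_, ?_⟩
  · intro v hv N m _ s k h1 h2 h3
    have := hv (Nat.pair m (Nat.pair s k))
    simp only [UBG_m, UBG_s, UBG_k, Nat.unpair_pair, h1, h2, h3, decide_true, Bool.and_self,
      Bool.not_true, Bool.false_or] at this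
    exact this
  · intro v N hB n hn
    by_cases h : 2 ^ UBG_m n ≤ UBG_s n ∧ UBG_s n < 2 ^ (UBG_m n + 1) ∧ UBG_k n ≤ UBG_m n
    · have h4 : v (Nat.pair (flt 0 1) (ccons (num (UBG_k n)) (ccons (clab (UBG_s n)) 0))) = true :=
        hB (UBG_m n) (lt_of_le_of_lt (Nat.unpair_left_le n) hn) (UBG_s n) (UBG_k n) h.1 h.2.1 h.2.2
      simp [h4]
    · have h4 : (decide (2 ^ UBG_m n ≤ UBG_s n) &&
          (decide (UBG_s n < 2 ^ (UBG_m n + 1)) && decide (UBG_k n ≤ UBG_m n))) = false := by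
        rw [Bool.eq_false_iff]
        intro h1
        rw [Bool.and_eq_true, Bool.and_eq_true, decide_eq_true_eq, decide_eq_true_eq,
          decide_eq_true_eq] at h1
        exact h h1
      simp only [h4, Bool.not_false, Bool.true_or]

end Pool.E5
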