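import Pool.Agent.Work.MP_e5ffe1_all.Interface1

/-! Block UBI of theorem E, MP_e5ffe1_lc (helper12). -/

set_option autoImplicit false

namespace Pool.E5

def UBI_f (n : ℕ) : ℕ := (Nat.unpair n).1
def UBI_s (n : ℕ) : ℕ := (Nat.unpair n).2

theorem UBI_f_pair (a b : ℕ) : UBI_f (Nat.pair a b) = a := by
  unfold UBI_f
  rw [Nat.unpair_pair]

theorem UBI_s_pair (a b : ℕ) : UBI_s (Nat.pair a b) = b := by
  unfold UBI_s
  rw [Nat.unpair_pair]

theorem UBI_pf : Primrec UBI_f := Primrec.fst.comp Primrec.unpair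
theorem UBI_ps : Primrec UBI_s := Primrec.snd.comp Primrec.unpair

/-- position of the clause for the first descendant -/
def UBI_p (n : ℕ) : ℕ :=
  Nat.pair Bf (benv (clab (2 * UBI_s (UBI_s (UBI_s (UBI_s n))) * DD (UBI_f (UBI_s (UBI_s (UBI_s n)))) +
    UBI_f (UBI_s n))) (num (UBI_f (UBI_s (UBI_s n)))))
/-- position of the clause for the second descendant -/
def UBI_q (n : ℕ) : ℕ :=
  Nat.pair Bf (benv (clab ((2 * UBI_s (UBI_s (UBI_s (UBI_s n))) + 1) *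
    DD (UBI_f (UBI_s (UBI_s (UBI_s n)))) + UBI_f n)) (num (UBI_f (UBI_s (UBI_s n)))))

theorem UBI_ccons {f h : ℕ → ℕ} (hf : Primrec f) (hh : Primrec h) :
    Primrec (fun n => ccons (f n) (h n)) :=
  Primrec.nat_add.comp (Primrec.nat_mul.comp (Primrec.const 9) (Primrec₂.natPair.comp hf hh))
    (Primrec.const 7)

theorem UBI_clab {f : ℕ → ℕ} (hf : Primrec f) : Primrec (fun n => clab (f n)) :=
  Primrec.nat_add.comp (Primrec.nat_mul.comp (Primrec.const 9) hf) (Primrec.const 2)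

theorem UBI_benv {f h : ℕ → ℕ} (hf : Primrec f) (hh : Primrec h) :
    Primrec (fun n => benv (f n) (h n)) :=
  UBI_ccons hf (UBI_ccons hh (Primrec.const _))

theorem UBI_pow : Primrec₂ (fun a b : ℕ => a ^ b) := Primrec₂.unpaired'.1 Nat.Primrec.pow

theorem UBI_pp (hDD : Primrec DD) (hnum : Primrec num) : Primrec UBI_p := by
  have h1 : Primrec (fun n => UBI_f (UBI_s (UBI_s (UBI_s n)))) :=
    UBI_pf.comp (UBI_ps.comp (UBI_ps.comp UBI_ps))
  have h2 : Primrec (fun n => UBI_s (UBI_s (UBI_s (UBI_s n)))) :=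
    UBI_ps.comp (UBI_ps.comp (UBI_ps.comp UBI_ps))
  have h3 : Primrec (fun n => num (UBI_f (UBI_s (UBI_s n)))) :=
    hnum.comp (UBI_pf.comp (UBI_ps.comp UBI_ps))
  exact Primrec₂.natPair.comp (Primrec.const Bf) (UBI_benv (UBI_clab (Primrec.nat_add.comp
    (Primrec.nat_mul.comp (Primrec.nat_mul.comp (Primrec.const 2) h2) (hDD.comp h1))
    (UBI_pf.comp UBI_ps))) h3)

theorem UBI_pq (hDD : Primrec DD) (hnum : Primrec num) : Primrec UBI_q := by
  have h1 : Primrec (fun n => UBI_f (UBI_s (UBI_s (UBI_s n)))) :=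
    UBI_pf.comp (UBI_ps.comp (UBI_ps.comp UBI_ps))
  have h2 : Primrec (fun n => UBI_s (UBI_s (UBI_s (UBI_s n)))) :=
    UBI_ps.comp (UBI_ps.comp (UBI_ps.comp UBI_ps))
  have h3 : Primrec (fun n => num (UBI_f (UBI_s (UBI_s n)))) :=
    hnum.comp (UBI_pf.comp (UBI_ps.comp UBI_ps))
  exact Primrec₂.natPair.comp (Primrec.const Bf) (UBI_benv (UBI_clab (Primrec.nat_add.comp
    (Primrec.nat_mul.comp (Primrec.nat_add.comp (Primrec.nat_mul.comp (Primrec.const 2) h2)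
      (Primrec.const 1)) (hDD.comp h1)) UBI_pf)) h3)

/-- the level test -/
def UBI_l (n : ℕ) : Bool :=
  decide (2 ^ UBI_f n ≤ UBI_s n) && decide (UBI_s n < 2 ^ (UBI_f n + 1))

theorem UBI_pl : Primrec UBI_l := by
  have h1 : Primrec (fun n => decide (2 ^ UBI_f n ≤ UBI_s n)) :=
    (Primrec.nat_le.comp (UBI_pow.comp (Primrec.const 2) UBI_pf) UBI_ps).decide
  have h2 : Primrec (fun n => decide (UBI_s n < 2 ^ (UBI_f n + 1))) :=
    (Primrec.nat_lt.comp UBI_ps (UBI_pow.comp (Primrec.const 2)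
      (Primrec.succ.comp UBI_pf))).decide
  exact Primrec.and.comp h1 h2

def UBI_g3 (v : ℕ → Bool) (n : ℕ) : Bool := !(v (UBI_p n) == v (UBI_q n))
def UBI_h2 (n : ℕ) : ℕ := DD (UBI_f (UBI_s (UBI_s n)))
def UBI_g2 (v : ℕ → Bool) (n : ℕ) : Bool :=
  decide (∀ k < UBI_h2 n, UBI_g3 v (Nat.pair k n) = true)
def UBI_h1 (n : ℕ) : ℕ := DD (UBI_f (UBI_s n))
def UBI_g1 (v : ℕ → Bool) (n : ℕ) : Bool :=
  decide (∀ k < UBI_h1 n, UBI_g2 v (Nat.pair k n) = true)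
def UBI_h0 (n : ℕ) : ℕ := off (UBI_f n + 1)
def UBI_g0 (v : ℕ → Bool) (n : ℕ) : Bool :=
  decide (∃ k < UBI_h0 n, UBI_g1 v (Nat.pair k n) = true)
def UBI_g (v : ℕ → Bool) (n : ℕ) : Bool := !(UBI_l n) || UBI_g0 v n

theorem UBI_spec (v : ℕ → Bool) (m s : ℕ) : UBI_g v (Nat.pair m s) = true ↔
    (2 ^ m ≤ s → s < 2 ^ (m + 1) → ∃ j < off (m + 1), ∀ i < DD m, ∀ i' < DD m,
      v (Nat.pair Bf (benv (clab (2 * s * DD m + i)) (num j))) ≠
        v (Nat.pair Bf (benv (clab ((2 * s + 1) * DD m + i')) (num j)))) := by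
  have e3 : ∀ i' i j, UBI_g3 v (Nat.pair i' (Nat.pair i (Nat.pair j (Nat.pair m s)))) = true ↔
      v (Nat.pair Bf (benv (clab (2 * s * DD m + i)) (num j))) ≠
        v (Nat.pair Bf (benv (clab ((2 * s + 1) * DD m + i')) (num j))) := by
    intro i' i j
    unfold UBI_g3 UBI_p UBI_q
    simp only [UBI_f_pair, UBI_s_pair, Bool.not_eq_true', beq_eq_false_iff_ne]
  have e2 : ∀ i j, UBI_g2 v (Nat.pair i (Nat.pair j (Nat.pair m s))) = true ↔ ∀ i' < DD m,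
      v (Nat.pair Bf (benv (clab (2 * s * DD m + i)) (num j))) ≠
        v (Nat.pair Bf (benv (clab ((2 * s + 1) * DD m + i')) (num j))) := by
    intro i j
    unfold UBI_g2 UBI_h2
    simp only [UBI_f_pair, UBI_s_pair, decide_eq_true_iff, e3]
  have e1 : ∀ j, UBI_g1 v (Nat.pair j (Nat.pair m s)) = true ↔ ∀ i < DD m, ∀ i' < DD m,
      v (Nat.pair Bf (benv (clab (2 * s * DD m + i)) (num j))) ≠
        v (Nat.pair Bf (benv (clab ((2 * s + 1) * DD m + i')) (num j))) := by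
    intro j
    unfold UBI_g1 UBI_h1
    simp only [UBI_f_pair, UBI_s_pair, decide_eq_true_iff, e2]
  have e0 : UBI_g0 v (Nat.pair m s) = true ↔ ∃ j < off (m + 1), ∀ i < DD m, ∀ i' < DD m,
      v (Nat.pair Bf (benv (clab (2 * s * DD m + i)) (num j))) ≠
        v (Nat.pair Bf (benv (clab ((2 * s + 1) * DD m + i')) (num j))) := by
    unfold UBI_g0 UBI_h0
    simp only [UBI_f_pair, decide_eq_true_iff, e1]
  have el : UBI_l (Nat.pair m s) = true ↔ 2 ^ m ≤ s ∧ s < 2 ^ (m + 1) := by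
    unfold UBI_l
    simp only [UBI_f_pair, UBI_s_pair, Bool.and_eq_true, decide_eq_true_iff]
  unfold UBI_g
  rw [Bool.or_eq_true, e0, Bool.not_eq_true', ← Bool.not_eq_true, el, ← imp_iff_not_or, and_imp]

theorem p_UBI (hUCC : S_UCC) (hUCA : S_UCA) (hPGR : S_PGR) (hPGT : S_PGT) : S_UBI := by
  obtain ⟨c1, c2, c3, c4, c5, c6, c7⟩ := hUCC
  obtain ⟨a1, a2⟩ := hUCA
  obtain ⟨hoff, -, hDD⟩ := hPGR
  obtain ⟨-, hnum⟩ := hPGT
  have u3 : UC UBI_g3 := c3 _ (c6 _ _ (c1 _ (UBI_pp hDD hnum)) (c1 _ (UBI_pq hDD hnum)))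
  have u2 : UC UBI_g2 :=
    a1 _ UBI_h2 u3 (hDD.comp (UBI_pf.comp (UBI_ps.comp UBI_ps)))
  have u1 : UC UBI_g1 := a1 _ UBI_h1 u2 (hDD.comp (UBI_pf.comp UBI_ps))
  have u0 : UC UBI_g0 := a2 _ UBI_h0 u1 (hoff.comp (Primrec.succ.comp UBI_pf))
  have u : UC UBI_g := c5 _ _ (c3 _ (c2 _ UBI_pl)) u0
  refine ⟨UBI_g, u, ?_, ?_⟩
  · intro v hv N m _ s h1 h2
    exact (UBI_spec v m s).1 (hv _) h1 h2
  · intro v N hB n hn
    have hm : (Nat.unpair n).1 < N := (Nat.unpair_left_le n).trans_lt hn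
    have h := (UBI_spec v (Nat.unpair n).1 (Nat.unpair n).2).2
      (fun h1 h2 => hB _ hm _ h1 h2)
    rwa [Nat.pair_unpair] at h

end Pool.E5
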