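import Pool.Agent.Work.MP_e5ffe1_all.Interface1

/-! # UCA: bounded quantifiers -/

set_option autoImplicit false

namespace Pool.E5

/-- the enlarged bound -/
def UCA_bd (b : ℕ → ℕ) (n m : ℕ) : ℕ := Nat.rec 0 (fun k acc => acc + b (Nat.pair k n)) m

theorem UCA_bd_succ (b : ℕ → ℕ) (n m : ℕ) :
    UCA_bd b n (m + 1) = UCA_bd b n m + b (Nat.pair m n) := rfl

theorem UCA_le (b : ℕ → ℕ) (n m k : ℕ) (hk : k < m) : b (Nat.pair k n) ≤ UCA_bd b n m := by
  induction m with
  | zero => omega
  | succ m ih =>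
    rw [UCA_bd_succ]
    rcases Nat.lt_succ_iff_lt_or_eq.1 hk with h | h
    · have := ih h
      omega
    · rw [h]
      omega

theorem UCA_aux (g : (ℕ → Bool) → ℕ → Bool) (h : ℕ → ℕ) (hg : UC g) (hh : Primrec h) :
    ∃ (b' : ℕ → ℕ) (R : ℕ → ℕ × List Bool → Prop), Primrec b' ∧ PrimrecRel R ∧
      ∀ (v : ℕ → Bool) (n k : ℕ), k < h n →
        (g v (Nat.pair k n) = true ↔ R k (n, (List.range (b' n)).map v)) := by
  obtain ⟨b, Q, hb, hQ, hgQ⟩ := hg
  refine ⟨fun n => UCA_bd b n (h n),
    fun k p => Q (Nat.pair k p.1) (p.2.take (b (Nat.pair k p.1))) = true, ?_, ?_, ?_⟩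
  · have h3 : Primrec₂ fun (n : ℕ) (p : ℕ × ℕ) => p.2 + b (Nat.pair p.1 n) :=
      (Primrec.nat_add.comp (Primrec.snd.comp Primrec.snd)
        (hb.comp (Primrec₂.natPair.comp (Primrec.fst.comp Primrec.snd) Primrec.fst)))
    exact Primrec.nat_rec' hh (Primrec.const 0) h3
  · have h1 : Primrec fun q : ℕ × (ℕ × List Bool) => Nat.pair q.1 q.2.1 :=
      Primrec₂.natPair.comp Primrec.fst (Primrec.fst.comp Primrec.snd)
    have h2 : Primrec fun q : ℕ × (ℕ × List Bool) => q.2.2.take (b (Nat.pair q.1 q.2.1)) :=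
      Primrec.list_take.comp (hb.comp h1) (Primrec.snd.comp Primrec.snd)
    exact Primrec.eq.comp (hQ.comp h1 h2) (Primrec.const true)
  · intro v n k hk
    have h1 : ((List.range (UCA_bd b n (h n))).map v).take (b (Nat.pair k n)) =
        (List.range (b (Nat.pair k n))).map v := by
      rw [← List.map_take, List.take_range, min_eq_left (UCA_le b n (h n) k hk)]
    show g v (Nat.pair k n) = true ↔ Q (Nat.pair k n)
      (((List.range (UCA_bd b n (h n))).map v).take (b (Nat.pair k n))) = true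
    rw [h1, hgQ]

theorem p_UCA : S_UCA := by
  classical
  constructor
  · intro g h hg hh
    obtain ⟨b', R, hb', hR, hgR⟩ := UCA_aux g h hg hh
    have hP : PrimrecPred fun p : ℕ × List Bool => ∀ k ∈ List.range (h p.1), R k p :=
      hR.forall_mem_list.comp (Primrec.list_range.comp (hh.comp Primrec.fst)) Primrec.id
    refine ⟨b', fun n l => decide (∀ k ∈ List.range (h n), R k (n, l)), hb', hP.decide, ?_⟩
    intro v n
    refine decide_eq_decide.2 ?_
    constructor
    · intro h1 k hk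
      rw [List.mem_range] at hk
      exact (hgR v n k hk).1 (h1 k hk)
    · intro h1 k hk
      exact (hgR v n k hk).2 (h1 k (List.mem_range.2 hk))
  · intro g h hg hh
    obtain ⟨b', R, hb', hR, hgR⟩ := UCA_aux g h hg hh
    have hP : PrimrecPred fun p : ℕ × List Bool => ∃ k ∈ List.range (h p.1), R k p :=
      hR.exists_mem_list.comp (Primrec.list_range.comp (hh.comp Primrec.fst)) Primrec.id
    refine ⟨b', fun n l => decide (∃ k ∈ List.range (h n), R k (n, l)), hb', hP.decide, ?_⟩
    intro v n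
    refine decide_eq_decide.2 ?_
    constructor
    · rintro ⟨k, hk, h1⟩
      exact ⟨k, List.mem_range.2 hk, (hgR v n k hk).1 h1⟩
    · rintro ⟨k, hk, h1⟩
      rw [List.mem_range] at hk
      exact ⟨k, hk, (hgR v n k hk).2 h1⟩

end Pool.E5
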