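import Pool.Agent.Work.MP_e5ffe1_all.Interface1

/-! Block UCC of MP_e5ffe1_lc, Theorem E. -/

set_option autoImplicit false

namespace Pool.E5

/-- the restriction of a list to its first entries, as a primitive recursive function -/
def UCC_tk (b : ℕ → ℕ) (n : ℕ) (l : List Bool) : List Bool :=
  (List.range (b n)).map (fun i => l.getD i false)

lemma UCC_tk_primrec {b : ℕ → ℕ} (hb : Primrec b) : Primrec₂ (UCC_tk b) := by
  unfold UCC_tk
  refine Primrec.list_map (Primrec.list_range.comp (hb.comp Primrec.fst)) ?_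
  exact (Primrec.list_getD false).comp (Primrec.snd.comp Primrec.fst) Primrec.snd

lemma UCC_tk_eq (b : ℕ → ℕ) (v : ℕ → Bool) (n B : ℕ) (h : b n ≤ B) :
    UCC_tk b n ((List.range B).map v) = (List.range (b n)).map v := by
  unfold UCC_tk
  apply List.map_congr_left
  intro i hi
  rw [List.mem_range] at hi
  rw [List.getD_eq_getElem?_getD, List.getElem?_map, List.getElem?_range (lt_of_lt_of_le hi h)]
  rfl

lemma UCC_bin (op : Bool → Bool → Bool) {g g' : (ℕ → Bool) → ℕ → Bool} (h : UC g) (h' : UC g') :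
    UC (fun v n => op (g v n) (g' v n)) := by
  obtain ⟨b, Q, hb, hQ, hg⟩ := h
  obtain ⟨b', Q', hb', hQ', hg'⟩ := h'
  refine ⟨fun n => b n + b' n, fun n l => op (Q n (UCC_tk b n l)) (Q' n (UCC_tk b' n l)),
    Primrec.nat_add.comp hb hb', ?_, ?_⟩
  · exact (Primrec.dom_bool₂ op).comp
      (hQ.comp Primrec.fst ((UCC_tk_primrec hb).comp Primrec.fst Primrec.snd))
      (hQ'.comp Primrec.fst ((UCC_tk_primrec hb').comp Primrec.fst Primrec.snd))
  · intro v n
    simp only
    rw [UCC_tk_eq b v n _ (Nat.le_add_right _ _), UCC_tk_eq b' v n _ (Nat.le_add_left _ _),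
      ← hg, ← hg']

theorem p_UCC : S_UCC := by
  refine ⟨?_, ?_, ?_, ?_, ?_, ?_, ?_⟩
  · intro p hp
    refine ⟨fun n => p n + 1, fun n l => l.getD (p n) false, Primrec.succ.comp hp, ?_, ?_⟩
    · exact (Primrec.list_getD false).comp Primrec.snd (hp.comp Primrec.fst)
    · intro v n
      simp only
      rw [List.getD_eq_getElem?_getD, List.getElem?_map, List.getElem?_range (Nat.lt_succ_self _)]
      rfl
  · intro h hh
    exact ⟨fun _ => 0, fun n _ => h n, Primrec.const 0, hh.comp Primrec.fst, fun _ _ => rfl⟩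
  · rintro g ⟨b, Q, hb, hQ, hg⟩
    refine ⟨b, fun n l => !(Q n l), hb, Primrec.not.comp hQ, fun v n => by simp only; rw [hg]⟩
  · intro g g' h h'
    exact UCC_bin and h h'
  · intro g g' h h'
    exact UCC_bin or h h'
  · intro g g' h h'
    exact UCC_bin (fun a b => a == b) h h'
  · rintro g h ⟨b, Q, hb, hQ, hg⟩ hh
    exact ⟨fun n => b (h n), fun n l => Q (h n) l, hb.comp hh,
      hQ.comp (hh.comp Primrec.fst) Primrec.snd, fun v n => hg v (h n)⟩

end Pool.E5
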