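import Pool.Agent.Work.MP_e5ffe1_all.Interface2

set_option autoImplicit false

namespace Pool.E5

theorem UCL20_get (hGET : S_GET) (e : ℕ) (he : e % 9 ≠ 7) (i : ℕ) : get e i = 0 := by
  have h0 : hd e = 0 := by unfold hd; rw [if_neg he]
  have h1 : tl e = 0 := by unfold tl; rw [if_neg he]
  cases i with
  | zero => exact h0
  | succ i =>
    have h2 : get e (i + 1) = get (tl e) i := by
      unfold get
      rw [Function.iterate_succ_apply]
    rw [h2, h1]
    exact hGET.2.2 i

theorem p_UCL20 (hGET : S_GET) : S_UCL := by
  intro X v
  refine ⟨UU.zero, UU.one, fun u hu w hw => UU.add u w hu hw, fun u hu w hw => UU.mul u w hu hw,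
    fun u hu => UU.neg u hu, fun φ u hu => UU.hen φ u hu, fun u hu w hw => UU.cons u w hu hw, ?_⟩
  have hz : ∀ (u : ℕ → ℕ) (i : ℕ), (∀ n, u n % 9 ≠ 7) → UU X (fun n => get (u n) i) := by
    intro u i h
    have : (fun n => get (u n) i) = fun _ => 0 := by
      funext n
      exact UCL20_get hGET _ (h n) i
    rw [this]
    exact UU.zero
  intro u hu
  show ∀ i, UU X (fun n => get (u n) i)
  induction hu with
  | zero => intro i; exact hz _ i (fun n => by norm_num)
  | one => intro i; exact hz _ i (fun n => by unfold co; norm_num)
  | par j => intro i; exact hz _ i (fun n => by unfold cpar; omega)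
  | lab x hx => intro i; exact hz _ i (fun n => by unfold clab; omega)
  | add u w _ _ _ _ => intro i; exact hz _ i (fun n => by unfold cadd; omega)
  | mul u w _ _ _ _ => intro i; exact hz _ i (fun n => by unfold cmul; omega)
  | neg u _ _ => intro i; exact hz _ i (fun n => by unfold cneg; omega)
  | hen φ u _ _ => intro i; exact hz _ i (fun n => by unfold chen; omega)
  | cons u w hu hw ih1 ih2 =>
    intro i
    cases i with
    | zero =>
      have : (fun n => get (ccons (u n) (w n)) 0) = u := by
        funext n
        exact hGET.1 _ _
      rw [this]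
      exact hu
    | succ i =>
      have : (fun n => get (ccons (u n) (w n)) (i + 1)) = fun n => get (w n) i := by
        funext n
        exact hGET.2.1 _ _ _
      rw [this]
      exact ih2 i

end Pool.E5
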