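import Pool.Agent.Work.MP_e5ffe1_all.Interface1

/-! Block UCO of MP_e5ffe1_lc, Theorem E. -/

set_option autoImplicit false

namespace Pool.E5

def UCO_k (n : ℕ) : ℕ := (Nat.unpair n).1
def UCO_f (n : ℕ) : ℕ := (Nat.unpair (Nat.unpair n).2).1
def UCO_e (n : ℕ) : ℕ := (Nat.unpair (Nat.unpair (Nat.unpair n).2).2).1
def UCO_r (n : ℕ) : ℕ := (Nat.unpair (Nat.unpair (Nat.unpair n).2).2).2

theorem p_UCO (hUCC : S_UCC) (hPSZ : S_PSZ) (hPLV : S_PLV) (hPEX : S_PEX) : S_UCO := by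
  obtain ⟨u1, u2, u3, u4, u5, u6, u7⟩ := hUCC
  have hl : Primrec (fun n : ℕ => (Nat.unpair n).1) := Primrec.fst.comp Primrec.unpair
  have hr : Primrec (fun n : ℕ => (Nat.unpair n).2) := Primrec.snd.comp Primrec.unpair
  have hk : Primrec UCO_k := hl
  have hf : Primrec UCO_f := hl.comp hr
  have he : Primrec UCO_e := hl.comp (hr.comp hr)
  have hrr : Primrec UCO_r := hr.comp (hr.comp hr)
  have hle : Primrec (fun n => decide (UCO_f n + sz (UCO_e n) ≤ UCO_k n)) :=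
    (Primrec.nat_le.comp (Primrec.nat_add.comp hf (Primrec.comp hPSZ he)) hk).decide
  have hC : Primrec (fun n => lvb (UCO_k n) (UCO_e n) &&
      decide (UCO_f n + sz (UCO_e n) ≤ UCO_k n)) :=
    Primrec.and.comp (Primrec₂.comp hPLV hk he) hle
  have hp1 : Primrec (fun n => Nat.pair (UCO_f n) (UCO_e n)) := Primrec₂.natPair.comp hf he
  have hp2 : Primrec (fun n => Nat.pair (UCO_f n) (ext (UCO_r n) (UCO_e n))) :=
    Primrec₂.natPair.comp hf (Primrec₂.comp hPEX hrr he)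
  refine ⟨fun v n => !(lvb (UCO_k n) (UCO_e n) && decide (UCO_f n + sz (UCO_e n) ≤ UCO_k n)) ||
    (v (Nat.pair (UCO_f n) (UCO_e n)) == v (Nat.pair (UCO_f n) (ext (UCO_r n) (UCO_e n)))),
    u5 _ _ (u3 _ (u2 _ hC)) (u6 _ _ (u1 _ hp1) (u1 _ hp2)), ?_, ?_⟩
  · intro v hv N k _ φ e r hlv hsz
    have := hv (Nat.pair k (Nat.pair φ (Nat.pair e r)))
    simp only [UCO_k, UCO_f, UCO_e, UCO_r, Nat.unpair_pair, hlv, hsz, decide_true, Bool.and_self,
      Bool.not_true, Bool.false_or, beq_iff_eq] at this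
    exact this
  · intro v N hC n hn
    by_cases h : lvb (UCO_k n) (UCO_e n) = true ∧ UCO_f n + sz (UCO_e n) ≤ UCO_k n
    · have := hC (UCO_k n) (lt_of_le_of_lt (Nat.unpair_left_le n) hn) (UCO_f n) (UCO_e n) (UCO_r n)
        h.1 h.2
      simp [this]
    · have : (lvb (UCO_k n) (UCO_e n) && decide (UCO_f n + sz (UCO_e n) ≤ UCO_k n)) = false := by
        rw [Bool.eq_false_iff]
        intro h1
        rw [Bool.and_eq_true, decide_eq_true_eq] at h1
        exact h h1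
      simp [this]

end Pool.E5
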