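import Pool.Agent.Work.MP_e5ffe1_all.Interface2
import Pool.Agent.Work.MP_e5ffe1_lc_helper93.Comp

set_option autoImplicit false

namespace Pool.E5

open Pool.Agent.Work.MP_e5ffe1_h93 (ch TR orc le_iff orc_self ch_of_mem ch_of_notMem st ch_st)

theorem UCTx_P : Nat.Primrec (fun q : ℕ => Encodable.encode
    (((Encodable.decode (α := List Bool) (Nat.unpair (Nat.unpair q).1).2).getD []) ++
      [(Nat.unpair q).2 == 1])) := by
  refine Primrec.nat_iff.1 (Primrec.encode.comp (Primrec.list_append.comp ?_ ?_))
  · exact Primrec.option_getD.comp (Primrec.decode.comp (Primrec.snd.comp (Primrec.unpair.comp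
      (Primrec.fst.comp Primrec.unpair)))) (Primrec.const [])
  · exact Primrec.list_cons.comp (Primrec.beq.comp (Primrec.snd.comp Primrec.unpair)
      (Primrec.const 1)) (Primrec.const [])

theorem UCTx_list {O : Set (ℕ →. ℕ)} {v : ℕ → Bool} (h : TR O (ch (st v))) :
    TR O (fun n => Encodable.encode ((List.range n).map v)) := by
  have h1 := (TR.of_primrec (O := O) UCTx_P).comp (TR.id.pair (h.comp TR.left))
  refine (TR.rec0 (Encodable.encode ([] : List Bool)) h1).of_eq (fun n => ?_)
  induction n with
  | zero => rfl
  | succ n ih =>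
    simp only [Nat.unpair_pair] at ih ⊢
    rw [ih, Encodable.encodek, ch_st, List.range_succ, List.map_append]
    cases hv : v n <;> simp [hv]

theorem p_UCT : S_UCT := by
  rintro g ⟨b, Q, hb, hQ, hg⟩ v
  have hle : TR (orc {n : ℕ | v n = true}) (ch {n : ℕ | g v n = true}) := by
    have h0 : TR (orc (st v)) (ch (st v)) := orc_self _
    have hL := UCTx_list h0
    have hR : Nat.Primrec (fun q : ℕ =>
        bif Q (Nat.unpair q).1 ((Encodable.decode (α := List Bool) (Nat.unpair q).2).getD [])
          then 1 else 0) := by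
      refine Primrec.nat_iff.1 (Primrec.cond (hQ.comp (Primrec.fst.comp Primrec.unpair)
        (Primrec.option_getD.comp (Primrec.decode.comp (Primrec.snd.comp Primrec.unpair))
          (Primrec.const []))) (Primrec.const 1) (Primrec.const 0))
    have h1 := (TR.of_primrec (O := orc (st v)) hR).comp
      (TR.id.pair (hL.comp (TR.of_primrec (Primrec.nat_iff.1 hb))))
    refine h1.of_eq (fun n => ?_)
    rw [Nat.unpair_pair, Encodable.encodek]
    change (bif Q n ((List.range (b n)).map v) then 1 else 0) = _
    rw [← hg v n]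
    by_cases h : g v n = true
    · rw [h, ch_of_mem (X := {n : ℕ | g v n = true}) h]
      rfl
    · rw [ch_of_notMem (X := {n : ℕ | g v n = true}) h]
      rw [Bool.not_eq_true] at h
      rw [h]
      rfl
  exact le_iff.mpr hle

end Pool.E5
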