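import Pool.Agent.Work.MP_e5ffe1_all.Interface1

set_option autoImplicit false

namespace Pool.E5

theorem VAL_primrec_posA (hnum : Primrec num) : Primrec posA := by
  have hc : ∀ f g : ℕ → ℕ, Primrec f → Primrec g → Primrec (fun k => ccons (f k) (g k)) := by
    intro f g hf hg
    unfold ccons
    exact Primrec.nat_add.comp (Primrec.nat_mul.comp (Primrec.const 9)
      (Primrec₂.natPair.comp hf hg)) (Primrec.const 7)
  have h1 : Primrec (fun k => benv (cpar 1) (num k)) := by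
    unfold benv
    exact hc _ _ (Primrec.const _) (hc _ _ hnum (Primrec.const _))
  exact Primrec₂.natPair.comp (Primrec.const Bf) h1

theorem p_VAL (hITP : S_ITP) (hVAX : S_VAX) (hEVQ : S_EVQ) (hUCC : S_UCC) (hPGT : S_PGT)
    (hUA1 : S_UA1) (hUA2 : S_UA2) (hUA3 : S_UA3) (hUCO : S_UCO) (hUBI : S_UBI) (hUBG : S_UBG)
    (hWKL : S_WKL) : S_VAL := by
  intro S hS A hA
  obtain ⟨-, -, -, hand, -⟩ := hUCC
  obtain ⟨g1, u1, a1⟩ := hUA1
  obtain ⟨g2, u2, a2⟩ := hUA2
  obtain ⟨g3, u3, a3⟩ := hUA3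
  obtain ⟨g4, u4, a4, b4⟩ := hUCO
  obtain ⟨g5, u5, a5, b5⟩ := hUBI
  obtain ⟨g6, u6, a6, b6⟩ := hUBG
  have hu := hand _ _ u1 (hand _ _ u2 (hand _ _ u3 (hand _ _ u4 (hand _ _ u5 u6))))
  have key : ∀ N, ∃ v : ℕ → Bool,
      (∀ n < N, (g1 v n && (g2 v n && (g3 v n && (g4 v n && (g5 v n && g6 v n))))) = true) ∧
      ∀ k < N, (v (posA k) = true ↔ k ∈ A) := by
    intro N
    obtain ⟨J', I, t1, t2, t3, t4⟩ := hITP A N
    classical
    obtain ⟨v, hv⟩ : ∃ v : ℕ → Bool, ∀ φ e, v (Nat.pair φ e) = true ↔ VI J' I φ e :=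
      ⟨fun n => decide (VI J' I (Nat.unpair n).1 (Nat.unpair n).2), fun φ e => by simp⟩
    obtain ⟨hax, hL, hE⟩ := hVAX J' I v hv
    have hcoh : CohN v N := by
      intro k hk φ e r h1 h2
      have h := t1 k hk φ e r h1 h2
      rw [Bool.eq_iff_iff, hv, hv]
      exact h
    have hbit : BitN v N := by
      intro m hm s h1 h2
      obtain ⟨j, hj, hjj⟩ := t2 m hm s h1 h2
      refine ⟨j, hj, fun i hi i' hi' => ?_⟩
      have h := hjj i hi i' hi'
      rw [← hv, ← hv] at h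
      intro hcon
      rw [hcon] at h
      tauto
    have hbig : BigN v N := by
      intro m hm s k h1 h2 h3
      rw [hL]
      obtain ⟨-, -, e3, -, -, -, -, -, e9⟩ := hEVQ J' I
      rw [e9, e3]
      exact t3 m hm s k h1 h2 h3
    refine ⟨v, fun n hn => ?_, fun k hk => ?_⟩
    · have c1 := (a1 v).2 hax.toAx1 n
      have c2 := (a2 v).2 hax.toAx2 n
      have c3 := (a3 v).2 hax.toAx3 n
      have c4 := b4 v N hcoh n hn
      have c5 := b5 v N hbit n hn
      have c6 := b6 v N hbig n hn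
      simp [c1, c2, c3, c4, c5, c6]
    · have h := t4 k hk
      rw [← hv] at h
      exact h
  obtain ⟨v, hvS, hvg, hvA⟩ := hWKL S hS _ hu posA (VAL_primrec_posA hPGT.2) A hA key
  have hall : ∀ n, g1 v n = true ∧ g2 v n = true ∧ g3 v n = true ∧ g4 v n = true ∧
      g5 v n = true ∧ g6 v n = true := by
    intro n
    have h := hvg n
    simp only [Bool.and_eq_true] at h
    exact h
  refine ⟨v, hvS, ⟨?_, ?_, ?_, ?_⟩, hvA⟩
  · have q1 := (a1 v).1 fun n => (hall n).1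
    have q2 := (a2 v).1 fun n => (hall n).2.1
    have q3 := (a3 v).1 fun n => (hall n).2.2.1
    exact ⟨q1, q2, q3⟩
  · exact a4 v fun n => (hall n).2.2.2.1
  · exact a5 v fun n => (hall n).2.2.2.2.1
  · exact a6 v fun n => (hall n).2.2.2.2.2

end Pool.E5
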