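import Pool.Agent.Work.MP_e5ffe1_all.Interface1

/-!
# Theorem E: block VAX (a valuation read off the integers satisfies the axioms)
-/

set_option autoImplicit false

namespace Pool.E5

theorem p_VAX (hGET : S_GET) (hSEQ : S_SEQ) (hLWS : S_LWS) (hEVQ : S_EVQ) : S_VAX := by
  intro J I v hv
  obtain ⟨g0, gs, gn⟩ := hGET
  obtain ⟨v0, v1, vl, va, vm, vn, vh, vp, vnum⟩ := hEVQ J I
  have env0 : (fun i => ev J I (get 0 i)) = fun _ => 0 := by
    funext i
    rw [gn, v0]
  have envc : ∀ a e, (fun i => ev J I (get (ccons a e) i)) = cns (ev J I a) (fun i => ev J I (get e i)) := by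
    intro a e
    funext i
    cases i with
    | zero => rw [g0]; rfl
    | succ i => rw [gs]; rfl
  have hV : ∀ φ e, (VD v).V φ e ↔ Sat ℤ φ (fun i => ev J I (get e i)) := hv
  have hVc : ∀ φ a e, (VD v).V φ (ccons a e) ↔ Sat ℤ φ (cns (ev J I a) (fun i => ev J I (get e i))) := by
    intro φ a e
    rw [hV, envc]
  have hE : ∀ a b, (VD v).E a b ↔ ev J I a = ev J I b := by
    intro a b
    show (VD v).V (feq 0 1) (ccons a (ccons b 0)) ↔ _
    rw [hV, (hSEQ ℤ _).1, g0, gs, g0]
  have hL : ∀ a b, (VD v).L a b ↔ ev J I a < ev J I b := by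
    intro a b
    show (VD v).V (flt 0 1) (ccons a (ccons b 0)) ↔ _
    rw [hV, (hSEQ ℤ _).2.1, g0, gs, g0]
  have hw : ∀ φ e, ev J I (chen φ e) = lw (fun a => Sat ℤ φ (cns a (fun i => ev J I (get e i)))) := vh
  have ax1 : (VD v).Ax1 := by
    refine ⟨g0, gs, gn, ?_, ?_, ?_, ?_, ?_, ?_, ?_, ?_⟩
    · intro φ e
      rw [hV, hV, (hSEQ ℤ _).2.2.2.2.1]
    · intro φ ψ e
      rw [hV, hV, hV, (hSEQ ℤ _).2.2.2.2.2.1]
    · intro φ e
      show (VD v).V (fex φ) e ↔ (VD v).V φ (ccons (chen φ e) e)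
      rw [hV, hVc, (hSEQ ℤ _).2.2.2.2.2.2, hw]
      constructor
      · rintro ⟨a, ha⟩
        exact (hLWS (fun a => Sat ℤ φ (cns a (fun i => ev J I (get e i)))) a ha).1
      · intro h
        exact ⟨_, h⟩
    · intro φ a e h
      have h' : Sat ℤ φ (cns (ev J I a) (fun i => ev J I (get e i))) := (hVc φ a e).mp h
      obtain ⟨h1, h2⟩ := hLWS (fun a => Sat ℤ φ (cns a (fun i => ev J I (get e i)))) _ h'
      constructor
      · show (VD v).V φ (ccons (chen φ e) e)
        rw [hVc, hw]
        exact h1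
      · show ¬ (VD v).L (cmul a a) (cmul (chen φ e) (chen φ e))
        rw [hL, vm, vm, hw]
        exact h2
    · intro i j e
      rw [hE, hV, (hSEQ ℤ _).1]
      rfl
    · intro i j e
      rw [hL, hV, (hSEQ ℤ _).2.1]
      rfl
    · intro i j k e
      rw [hE, hV, (hSEQ ℤ _).2.2.1]
      show _ ↔ ev J I (cadd (get e i) (get e j)) = ev J I (get e k)
      rw [va]
    · intro i j k e
      rw [hE, hV, (hSEQ ℤ _).2.2.2.1]
      show _ ↔ ev J I (cmul (get e i) (get e j)) = ev J I (get e k)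
      rw [vm]
  have d0 : ev J I (VD v).zero = 0 := v0
  have d1 : ev J I (VD v).one = 1 := v1
  have da : ∀ a b, ev J I ((VD v).add a b) = ev J I a + ev J I b := va
  have dm : ∀ a b, ev J I ((VD v).mul a b) = ev J I a * ev J I b := vm
  have dn : ∀ a, ev J I ((VD v).neg a) = - ev J I a := vn
  have ax2 : (VD v).Ax2 := by
    constructor <;> intros <;> simp only [hE, hL, d0, d1, da, dm, dn] at * <;>
      first
      | rfl
      | (rename_i h; exact h.symm)
      | (rename_i h1 h2; exact h1.trans h2)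
      | (rename_i h; rw [h])
      | (rename_i h1 h2; rw [← h1]; exact h2)
      | ring
  have ax3 : (VD v).Ax3 := by
    constructor <;> intros <;> simp only [hE, hL, d0, d1, da, dm, dn] at *
    · exact lt_irrefl _
    · rename_i h1 h2
      exact h1.trans h2
    · exact lt_trichotomy _ _
    · rename_i h
      exact Int.add_lt_add_right h _
    · rename_i h1 h2
      exact mul_pos h1 h2
    · norm_num
    · rename_i h
      omega
  exact ⟨⟨ax1, ax2, ax3⟩, hL, hE⟩

end Pool.E5
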