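import Pool.Agent.Work.MP_e5ffe1_all.Interface1

/-!
Block VEX: the valuation read off the integers and the extension of the labels.
-/

set_option autoImplicit false

namespace Pool.E5

theorem VEX_ev (hEGT : S_EGT) (hEVQ : S_EVQ) (J I : ℕ → ℤ) (r : ℕ) :
    ∀ n, ev J I (ext r n) = ev J (fun s => I (chd r s)) n := by
  obtain ⟨_, _, hlab, hadd, hmul, hneg, hhen, hpar, _⟩ := hEVQ J I
  intro n
  induction n using Nat.strong_induction_on with
  | _ n ih =>
    have hu1 := Nat.unpair_left_le (n / 9)
    have hu2 := Nat.unpair_right_le (n / 9)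
    have hlt : n % 9 < 9 := Nat.mod_lt _ (by norm_num)
    have h9 : n % 9 = 0 ∨ n % 9 = 1 ∨ n % 9 = 2 ∨ n % 9 = 3 ∨ n % 9 = 4 ∨ n % 9 = 5 ∨ n % 9 = 6 ∨
      n % 9 = 7 ∨ n % 9 = 8 := by omega
    rcases h9 with h | h | h | h | h | h | h | h | h
    · have e1 : ext r n = n := by rw [ext]; simp [h]
      have a1 : ∀ I' : ℕ → ℤ, ev J I' n = 0 := fun I' => by rw [ev]; simp [h]
      rw [e1, a1, a1]
    · have e1 : ext r n = n := by rw [ext]; simp [h]
      have a1 : ∀ I' : ℕ → ℤ, ev J I' n = 1 := fun I' => by rw [ev]; simp [h]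
      rw [e1, a1, a1]
    · have e1 : ext r n = clab (chd r (n / 9)) := by rw [ext]; simp [h]
      rw [e1, hlab, ev]; simp [h]
    · have e1 : ext r n = cadd (ext r (Nat.unpair (n / 9)).1) (ext r (Nat.unpair (n / 9)).2) := by
        rw [ext]; simp [h, cadd]
      have e2 : ev J (fun s => I (chd r s)) n = ev J (fun s => I (chd r s)) (Nat.unpair (n / 9)).1 +
          ev J (fun s => I (chd r s)) (Nat.unpair (n / 9)).2 := by
        conv_lhs => rw [ev]
        simp [h]
      rw [e1, hadd, e2, ih _ (by omega), ih _ (by omega)]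
    · have e1 : ext r n = cmul (ext r (Nat.unpair (n / 9)).1) (ext r (Nat.unpair (n / 9)).2) := by
        rw [ext]; simp [h, cmul]
      have e2 : ev J (fun s => I (chd r s)) n = ev J (fun s => I (chd r s)) (Nat.unpair (n / 9)).1 *
          ev J (fun s => I (chd r s)) (Nat.unpair (n / 9)).2 := by
        conv_lhs => rw [ev]
        simp [h]
      rw [e1, hmul, e2, ih _ (by omega), ih _ (by omega)]
    · have e1 : ext r n = cneg (ext r (n / 9)) := by rw [ext]; simp [h]
      have e2 : ev J (fun s => I (chd r s)) n = - ev J (fun s => I (chd r s)) (n / 9) := by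
        conv_lhs => rw [ev]
        simp [h]
      rw [e1, hneg, e2, ih _ (by omega)]
    · have e1 : ext r n = chen (Nat.unpair (n / 9)).1 (ext r (Nat.unpair (n / 9)).2) := by
        rw [ext]; simp [h]
      have e2 : ev J (fun s => I (chd r s)) n = lw (fun a => Sat ℤ (Nat.unpair (n / 9)).1
          (cns a (fun i => ev J (fun s => I (chd r s)) (get (Nat.unpair (n / 9)).2 i)))) := by
        conv_lhs => rw [ev]
        simp [h]
      have e3 : (fun i => ev J I (get (ext r (Nat.unpair (n / 9)).2) i)) =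
          (fun i => ev J (fun s => I (chd r s)) (get (Nat.unpair (n / 9)).2 i)) := by
        funext i
        have hg := get_le (Nat.unpair (n / 9)).2 i
        rw [hEGT.1, ih _ (by omega)]
      rw [e1, hhen, e2, e3]
    · have e1 : ext r n % 9 = 7 := by
        rw [ext]; simp [h]
      have a1 : ∀ (I' : ℕ → ℤ) (m : ℕ), m % 9 = 7 → ev J I' m = 0 := fun I' m hm => by
        rw [ev]; simp [hm]
      rw [a1 _ _ h, a1 _ _ e1]
    · have e1 : ext r n = n := by rw [ext]; simp [h]
      have a1 : ∀ I' : ℕ → ℤ, ev J I' n = J (n / 9) := fun I' => by rw [ev]; simp [h]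
      rw [e1, a1, a1]

theorem p_VEX (hEGT : S_EGT) (_hEXQ : S_EXQ) (hEVQ : S_EVQ) : S_VEX := by
  intro J I r φ e
  unfold VI
  have : (fun i => ev J I (get (ext r e) i)) = (fun i => ev J (fun s => I (chd r s)) (get e i)) := by
    funext i
    rw [hEGT.1, VEX_ev hEGT hEVQ]
  rw [this]

end Pool.E5
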