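import Pool.Agent.Work.MP_e5ffe1_all.FIN
import Pool.Agent.Work.MP_e5ffe1_all.B_GET
import Pool.Agent.Work.MP_e5ffe1_all.B_SEQ
import Pool.Agent.Work.MP_e5ffe1_all.B_FND
import Pool.Agent.Work.MP_e5ffe1_all.B_LWS
import Pool.Agent.Work.MP_e5ffe1_all.B_EVQ
import Pool.Agent.Work.MP_e5ffe1_all.B_EXQ
import Pool.Agent.Work.MP_e5ffe1_all.B_EGT
import Pool.Agent.Work.MP_e5ffe1_all.B_VEX
import Pool.Agent.Work.MP_e5ffe1_all.B_DEP
import Pool.Agent.Work.MP_e5ffe1_all.B_BDB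
import Pool.Agent.Work.MP_e5ffe1_all.B_BFS
import Pool.Agent.Work.MP_e5ffe1_all.B_VAX
import Pool.Agent.Work.MP_e5ffe1_all.B_PRL
import Pool.Agent.Work.MP_e5ffe1_all.B_HOG
import Pool.Agent.Work.MP_e5ffe1_all.B_GRW
import Pool.Agent.Work.MP_e5ffe1_all.B_HOM
import Pool.Agent.Work.MP_e5ffe1_all.B_COP
import Pool.Agent.Work.MP_e5ffe1_all.B_ITP
import Pool.Agent.Work.MP_e5ffe1_all.B_UCC
import Pool.Agent.Work.MP_e5ffe1_all.B_UCA
import Pool.Agent.Work.MP_e5ffe1_all.B_PGT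
import Pool.Agent.Work.MP_e5ffe1_all.B_PSZ
import Pool.Agent.Work.MP_e5ffe1_all.B_PLV
import Pool.Agent.Work.MP_e5ffe1_all.B_PEX
import Pool.Agent.Work.MP_e5ffe1_all.B_PGR
import Pool.Agent.Work.MP_e5ffe1_all.B_UA1
import Pool.Agent.Work.MP_e5ffe1_all.B_UA2
import Pool.Agent.Work.MP_e5ffe1_all.B_UA3
import Pool.Agent.Work.MP_e5ffe1_all.B_UCO
import Pool.Agent.Work.MP_e5ffe1_all.B_UBI
import Pool.Agent.Work.MP_e5ffe1_all.B_UBG
import Pool.Agent.Work.MP_e5ffe1_all.B_WKL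
import Pool.Agent.Work.MP_e5ffe1_all.B_VAL
import Pool.Agent.Work.MP_e5ffe1_all.B_LIM
import Pool.Agent.Work.MP_e5ffe1_all.B_UCL20
import Pool.Agent.Work.MP_e5ffe1_all.B_STB
import Pool.Agent.Work.MP_e5ffe1_all.B_STV
import Pool.Agent.Work.MP_e5ffe1_all.B_TRC
import Pool.Agent.Work.MP_e5ffe1_all.B_UCT
import Pool.Agent.Work.MP_e5ffe1_all.B_DC0
import Pool.Agent.Work.MP_e5ffe1_all.B_DC2
import Pool.Agent.Work.MP_e5ffe1_all.B_DC1
import Pool.Agent.Work.MP_e5ffe1_all.B_RNG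
import Pool.Agent.Work.MP_e5ffe1_all.B_TRU
import Pool.Agent.Work.MP_e5ffe1_all.B_ENV
import Pool.Agent.Work.MP_e5ffe1_all.B_IND
import Pool.Agent.Work.MP_e5ffe1_all.B_DFA
import Pool.Agent.Work.MP_e5ffe1_all.B_DFB
import Pool.Agent.Work.MP_e5ffe1_all.B_INS

/-! Theorem E: all blocks (helper20) -/

set_option autoImplicit false

namespace Pool.E5

/-- Theorem E -/
theorem main_thm : Target := by
  have hGET : S_GET := p_GET
  have hSEQ : S_SEQ := p_SEQ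
  have hFND : S_FND := p_FND
  have hLWS : S_LWS := p_LWS
  have hEVQ : S_EVQ := p_EVQ
  have hEXQ : S_EXQ := p_EXQ
  have hEGT : S_EGT := p_EGT hEXQ
  have hVEX : S_VEX := p_VEX hEGT hEXQ hEVQ
  have hDEP : S_DEP := p_DEP hEGT
  have hBDB : S_BDB := p_BDB
  have hBFS : S_BFS := p_BFS hSEQ
  have hVAX : S_VAX := p_VAX hGET hSEQ hLWS hEVQ
  have hPRL : S_PRL := p_PRL
  have hHOG : S_HOG := p_HOG hPRL
  have hGRW : S_GRW := p_GRW
  have hHOM : S_HOM := p_HOM hHOG hGRW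
  have hCOP : S_COP := p_COP
  have hITP : S_ITP := p_ITP hHOM hCOP hVEX hDEP hBDB hBFS hEVQ hGET
  have hUCC : S_UCC := p_UCC
  have hUCA : S_UCA := p_UCA
  have hPGT : S_PGT := p_PGT
  have hPSZ : S_PSZ := p_PSZ
  have hPLV : S_PLV := p_PLV
  have hPEX : S_PEX := p_PEX
  have hPGR : S_PGR := p_PGR
  have hUA1 : S_UA1 := p_UA1 hUCC hPGT
  have hUA2 : S_UA2 := p_UA2 hUCC
  have hUA3 : S_UA3 := p_UA3 hUCC
  have hUCO : S_UCO := p_UCO hUCC hPSZ hPLV hPEX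
  have hUBI : S_UBI := p_UBI hUCC hUCA hPGR hPGT
  have hUBG : S_UBG := p_UBG hUCC hPGT
  have hWKL : S_WKL := p_WKL
  have hVAL : S_VAL := p_VAL hITP hVAX hEVQ hUCC hPGT hUA1 hUA2 hUA3 hUCO hUBI hUBG hWKL
  have hLIM : S_LIM := p_LIM
  have hUCL : S_UCL := p_UCL20 hGET
  have hSTB : S_STB := p_STB hEXQ
  have hSTV : S_STV := p_STV hSTB hEXQ
  have hTRC : S_TRC := p_TRC hSTV hPGT
  have hUCT : S_UCT := p_UCT
  have hDC0 : S_DC0 := p_DC0 hEXQ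
  have hDC2 : S_DC2 := p_DC2 hDC0 hPGT
  have hDC1 : S_DC1 := p_DC1 hDC0 hUCT hUCC hUCA hPGR hPGT
  have hRNG : S_RNG := p_RNG
  have hTRU : S_TRU := p_TRU hSEQ hFND
  have hENV : S_ENV := p_ENV
  have hIND : S_IND := p_IND hTRU hENV hSEQ
  have hDFA : S_DFA := p_DFA hSEQ
  have hDFB : S_DFB := p_DFB
  have hINS : S_INS := p_INS
  exact assembly hVAL hUCL hLIM hSTV hTRC hDC1 hDC2 hRNG hTRU hENV hIND hDFA hDFB hINS hBFS

end Pool.E5
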