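import Pool.Agent.Work.MP_e5ffe1_all.Interface1

/-! Block BDB (helper9): the bound for codes. -/

set_option autoImplicit false

namespace Pool.E5

theorem BDB_succ (m k : ℕ) : Bd m (k + 1) = 9 * (Bd m k + 1) ^ 2 + 9 := rfl

theorem BDB_ge (m k : ℕ) : k ≤ Bd m k := by
  induction k with
  | zero => exact Nat.zero_le _
  | succ k ih =>
    rw [BDB_succ]
    nlinarith

theorem BDB_base (m k : ℕ) : 9 * 2 ^ (m + 1) + 9 ≤ Bd m k := by
  induction k with
  | zero => exact le_of_eq rfl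
  | succ k ih =>
    rw [BDB_succ]
    nlinarith

theorem BDB_pair (B a b : ℕ) (ha : a ≤ B) (hb : b ≤ B) : Nat.pair a b ≤ (B + 1) ^ 2 := by
  have h := Nat.pair_lt_max_add_one_sq a b
  have h2 : max a b + 1 ≤ B + 1 := by
    have := max_le ha hb
    omega
  have h3 : (max a b + 1) ^ 2 ≤ (B + 1) ^ 2 := Nat.pow_le_pow_left h2 2
  omega

theorem p_BDB : S_BDB := by
  intro m k e
  induction e using Nat.strong_induction_on generalizing k with
  | _ e ih =>
  intro h1 h2
  have hl := Nat.unpair_left_le (e / 9)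
  have hr := Nat.unpair_right_le (e / 9)
  have hbase := BDB_base m k
  have hge := BDB_ge m k
  rw [lvb] at h1
  rw [sz] at h2
  by_cases c2 : e % 9 = 2
  · rw [if_pos c2] at h1 h2
    rw [Bool.and_eq_true, decide_eq_true_iff, decide_eq_true_iff] at h1
    omega
  rw [if_neg c2] at h1 h2
  by_cases c5 : e % 9 = 5
  · rw [dif_pos c5] at h1 h2
    obtain ⟨k', rfl⟩ : ∃ k', k = k' + 1 := ⟨k - 1, by omega⟩
    have h3 := ih (e / 9) (by omega) k' h1 (by omega)
    rw [BDB_succ]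
    have h4 : Bd m k' ≤ (Bd m k' + 1) ^ 2 := by nlinarith
    omega
  rw [dif_neg c5] at h1 h2
  by_cases c6 : e % 9 = 6
  · rw [dif_pos c6] at h1 h2
    obtain ⟨k', rfl⟩ : ∃ k', k = k' + 1 := ⟨k - 1, by omega⟩
    have h3 := ih (Nat.unpair (e / 9)).2 (by omega) k' h1 (by omega)
    have h5 := BDB_ge m k'
    have h6 := BDB_pair (Bd m k') (Nat.unpair (e / 9)).1 (Nat.unpair (e / 9)).2 (by omega) h3
    rw [Nat.pair_unpair] at h6
    rw [BDB_succ]
    omega
  rw [dif_neg c6] at h1 h2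
  by_cases c3 : e % 9 = 3 ∨ e % 9 = 4 ∨ e % 9 = 7
  · rw [dif_pos c3] at h1 h2
    rw [Bool.and_eq_true] at h1
    obtain ⟨k', rfl⟩ : ∃ k', k = k' + 1 := ⟨k - 1, by omega⟩
    have h3 := ih (Nat.unpair (e / 9)).1 (by omega) k' h1.1 (by omega)
    have h4 := ih (Nat.unpair (e / 9)).2 (by omega) k' h1.2 (by omega)
    have h6 := BDB_pair (Bd m k') (Nat.unpair (e / 9)).1 (Nat.unpair (e / 9)).2 h3 h4
    rw [Nat.pair_unpair] at h6
    rw [BDB_succ]
    omega
  rw [dif_neg c3] at h2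
  omega

end Pool.E5
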