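import Pool.Agent.Work.MP_e5ffe1_all.Interface1

/-! # Block PGT: `get` and `num` are primitive recursive -/

namespace Pool.E5

theorem PGT_c9 : Primrec (fun e : ℕ => Nat.unpair (e / 9)) :=
  Primrec.unpair.comp (Primrec.nat_div.comp Primrec.id (Primrec.const 9))

theorem PGT_p9 : PrimrecPred (fun e : ℕ => e % 9 = 7) :=
  Primrec.eq.comp (Primrec.nat_mod.comp Primrec.id (Primrec.const 9)) (Primrec.const 7)

theorem PGT_hd : Primrec hd :=
  (Primrec.ite PGT_p9 (Primrec.fst.comp PGT_c9) (Primrec.const 0)).of_eq fun e => rfl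

theorem PGT_tl : Primrec tl :=
  (Primrec.ite PGT_p9 (Primrec.snd.comp PGT_c9) (Primrec.const 0)).of_eq fun e => rfl

theorem p_PGT : S_PGT := by
  constructor
  · have h1 : Primrec₂ (fun (e i : ℕ) => tl^[i] e) := by
      have h2 := Primrec.nat_iterate (f := fun p : ℕ × ℕ => p.2) (g := fun p : ℕ × ℕ => p.1)
        (h := fun (_ : ℕ × ℕ) (e : ℕ) => tl e) Primrec.snd Primrec.fst
        (PGT_tl.comp Primrec.snd).to₂
      exact h2
    exact (PGT_hd.comp h1).to₂
  · have h3 : Primrec₂ (fun (_ : ℕ) (r : ℕ) => cadd r co) := by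
      unfold cadd
      exact (by
        first
          | exact (Primrec.nat_add.comp (Primrec.nat_mul.comp (Primrec.const 9)
              (Primrec₂.natPair.comp Primrec.snd (Primrec.const co))) (Primrec.const _)).to₂)
    refine (Primrec.nat_rec₁ 0 h3).of_eq fun n => ?_
    induction n with
    | zero => rfl
    | succ n ih => exact congrArg (fun r => cadd r co) ih

end Pool.E5
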