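import Pool.Agent.Work.MP_e5ffe1_all.Interface2

/-!
# RNG: the quotient of a Henkin structure by equality is a discretely ordered ring (helper91)
-/

set_option autoImplicit false

namespace Pool.E5

variable {T : Type} (D : Dt T) (h : D.Ax)

include h in
theorem RNG_add2 {a a' b b' : T} (ha : D.E a a') (hb : D.E b b') :
    D.E (D.add a b) (D.add a' b') :=
  h.trans _ _ _ (h.congr_add a a' b ha) (h.trans _ _ _ (h.add_comm a' b)
    (h.trans _ _ _ (h.congr_add b b' a' hb) (h.add_comm b' a')))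

include h in
theorem RNG_mul2 {a a' b b' : T} (ha : D.E a a') (hb : D.E b b') :
    D.E (D.mul a b) (D.mul a' b') :=
  h.trans _ _ _ (h.congr_mul a a' b ha) (h.trans _ _ _ (h.mul_comm a' b)
    (h.trans _ _ _ (h.congr_mul b b' a' hb) (h.mul_comm b' a')))

include h in
theorem RNG_lt2 {a a' b b' : T} (ha : D.E a a') (hb : D.E b b') :
    D.L a b ↔ D.L a' b' :=
  ⟨fun hab => h.congr_lt2 b b' a' hb (h.congr_lt a a' b ha hab),
    fun hab => h.congr_lt2 b' b a (h.symm _ _ hb) (h.congr_lt a' a b' (h.symm _ _ ha) hab)⟩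

/-- the equivalence relation -/
def RNG_st : Setoid T where
  r := D.E
  iseqv := ⟨h.refl, fun {a b} => h.symm a b, fun {a b c} => h.trans a b c⟩

/-- the carrier -/
def RNG_Q : Type := Quotient (RNG_st D h)

/-- the quotient map -/
def RNG_q (a : T) : RNG_Q D h := Quotient.mk (RNG_st D h) a

theorem RNG_sound {a b : T} (hab : D.E a b) : RNG_q D h a = RNG_q D h b :=
  Quotient.sound (s := RNG_st D h) hab

theorem RNG_exact {a b : T} (hab : RNG_q D h a = RNG_q D h b) : D.E a b :=
  Quotient.exact (s := RNG_st D h) hab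

theorem RNG_surj (x : RNG_Q D h) : ∃ a, RNG_q D h a = x := Quotient.exists_rep x

/-- addition -/
def RNG_add : RNG_Q D h → RNG_Q D h → RNG_Q D h :=
  Quotient.map₂ D.add (fun _ _ ha _ _ hb => RNG_add2 D h ha hb)

/-- multiplication -/
def RNG_mul : RNG_Q D h → RNG_Q D h → RNG_Q D h :=
  Quotient.map₂ D.mul (fun _ _ ha _ _ hb => RNG_mul2 D h ha hb)

/-- negation -/
def RNG_neg : RNG_Q D h → RNG_Q D h :=
  Quotient.map D.neg (fun a b ha => h.congr_neg a b ha)

/-- the order -/
def RNG_lt : RNG_Q D h → RNG_Q D h → Prop :=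
  Quotient.lift₂ D.L (fun _ _ _ _ ha hb => propext (RNG_lt2 D h ha hb))

theorem RNG_add_q (a b : T) : RNG_add D h (RNG_q D h a) (RNG_q D h b) = RNG_q D h (D.add a b) := rfl
theorem RNG_mul_q (a b : T) : RNG_mul D h (RNG_q D h a) (RNG_q D h b) = RNG_q D h (D.mul a b) := rfl
theorem RNG_neg_q (a : T) : RNG_neg D h (RNG_q D h a) = RNG_q D h (D.neg a) := rfl
theorem RNG_lt_q (a b : T) : RNG_lt D h (RNG_q D h a) (RNG_q D h b) ↔ D.L a b := Iff.rfl

theorem RNG_add_assoc (x y z : RNG_Q D h) :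
    RNG_add D h (RNG_add D h x y) z = RNG_add D h x (RNG_add D h y z) := by
  obtain ⟨a, rfl⟩ := RNG_surj D h x
  obtain ⟨b, rfl⟩ := RNG_surj D h y
  obtain ⟨c, rfl⟩ := RNG_surj D h z
  exact RNG_sound D h (h.add_assoc a b c)

theorem RNG_zero_add (x : RNG_Q D h) : RNG_add D h (RNG_q D h D.zero) x = x := by
  obtain ⟨a, rfl⟩ := RNG_surj D h x
  exact RNG_sound D h (h.zero_add a)

theorem RNG_neg_add (x : RNG_Q D h) : RNG_add D h (RNG_neg D h x) x = RNG_q D h D.zero := by
  obtain ⟨a, rfl⟩ := RNG_surj D h x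
  exact RNG_sound D h (h.neg_add a)

theorem RNG_add_comm (x y : RNG_Q D h) : RNG_add D h x y = RNG_add D h y x := by
  obtain ⟨a, rfl⟩ := RNG_surj D h x
  obtain ⟨b, rfl⟩ := RNG_surj D h y
  exact RNG_sound D h (h.add_comm a b)

/-- addition as an instance -/
@[reducible] def RNG_iadd : Add (RNG_Q D h) := ⟨RNG_add D h⟩
/-- zero as an instance -/
@[reducible] def RNG_izero : Zero (RNG_Q D h) := ⟨RNG_q D h D.zero⟩
/-- negation as an instance -/
@[reducible] def RNG_ineg : Neg (RNG_Q D h) := ⟨RNG_neg D h⟩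

/-- the additive group -/
@[reducible] def RNG_grp : AddCommGroup (RNG_Q D h) :=
  letI := RNG_iadd D h
  letI := RNG_izero D h
  letI := RNG_ineg D h
  { AddGroup.ofLeftAxioms (G := RNG_Q D h) (RNG_add_assoc D h) (RNG_zero_add D h)
      (RNG_neg_add D h) with
    add_comm := RNG_add_comm D h }

theorem RNG_mul_comm (x y : RNG_Q D h) : RNG_mul D h x y = RNG_mul D h y x := by
  obtain ⟨a, rfl⟩ := RNG_surj D h x
  obtain ⟨b, rfl⟩ := RNG_surj D h y
  exact RNG_sound D h (h.mul_comm a b)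

theorem RNG_distrib (x y z : RNG_Q D h) :
    RNG_mul D h x (RNG_add D h y z) = RNG_add D h (RNG_mul D h x y) (RNG_mul D h x z) := by
  obtain ⟨a, rfl⟩ := RNG_surj D h x
  obtain ⟨b, rfl⟩ := RNG_surj D h y
  obtain ⟨c, rfl⟩ := RNG_surj D h z
  exact RNG_sound D h (h.distrib a b c)

theorem RNG_mul_zero (x : RNG_Q D h) :
    RNG_mul D h x (RNG_q D h D.zero) = RNG_q D h D.zero := by
  letI := RNG_grp D h
  have h1 : RNG_mul D h x (RNG_q D h D.zero) + RNG_mul D h x (RNG_q D h D.zero) =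
      RNG_mul D h x (RNG_q D h D.zero) := by
    have h2 := RNG_distrib D h x (RNG_q D h D.zero) (RNG_q D h D.zero)
    have h3 : RNG_add D h (RNG_q D h D.zero) (RNG_q D h D.zero) = RNG_q D h D.zero :=
      zero_add (0 : RNG_Q D h)
    rw [h3] at h2
    exact h2.symm
  exact add_eq_left.1 h1

theorem RNG_one_mul (x : RNG_Q D h) : RNG_mul D h (RNG_q D h D.one) x = x := by
  obtain ⟨a, rfl⟩ := RNG_surj D h x
  exact RNG_sound D h (h.one_mul a)

/-- the ring -/
@[reducible] def RNG_ring : CommRing (RNG_Q D h) where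
  toAddCommGroup := RNG_grp D h
  mul := RNG_mul D h
  one := RNG_q D h D.one
  mul_assoc := by
    intro x y z
    obtain ⟨a, rfl⟩ := RNG_surj D h x
    obtain ⟨b, rfl⟩ := RNG_surj D h y
    obtain ⟨c, rfl⟩ := RNG_surj D h z
    exact RNG_sound D h (h.mul_assoc a b c)
  one_mul := RNG_one_mul D h
  mul_one := fun x => (RNG_mul_comm D h _ _).trans (RNG_one_mul D h x)
  mul_comm := RNG_mul_comm D h
  left_distrib := RNG_distrib D h
  right_distrib := by
    intro x y z
    have h1 := RNG_distrib D h z x y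
    have h2 := RNG_mul_comm D h (RNG_add D h x y) z
    have h3 := RNG_mul_comm D h x z
    have h4 := RNG_mul_comm D h y z
    have h5 : RNG_add D h (RNG_mul D h z x) (RNG_mul D h z y) =
        RNG_add D h (RNG_mul D h x z) (RNG_mul D h y z) := by rw [h3, h4]
    exact (h2.trans h1).trans h5
  mul_zero := RNG_mul_zero D h
  zero_mul := fun x => (RNG_mul_comm D h _ _).trans (RNG_mul_zero D h x)

theorem RNG_irrefl (x : RNG_Q D h) : ¬ RNG_lt D h x x := by
  obtain ⟨a, rfl⟩ := RNG_surj D h x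
  exact h.irrefl a

theorem RNG_trans (x y z : RNG_Q D h) : RNG_lt D h x y → RNG_lt D h y z → RNG_lt D h x z := by
  obtain ⟨a, rfl⟩ := RNG_surj D h x
  obtain ⟨b, rfl⟩ := RNG_surj D h y
  obtain ⟨c, rfl⟩ := RNG_surj D h z
  exact h.lt_trans a b c

theorem RNG_tri (x y : RNG_Q D h) : RNG_lt D h x y ∨ x = y ∨ RNG_lt D h y x := by
  obtain ⟨a, rfl⟩ := RNG_surj D h x
  obtain ⟨b, rfl⟩ := RNG_surj D h y
  rcases h.tri a b with h1 | h1 | h1
  · exact Or.inl h1
  · exact Or.inr (Or.inl (RNG_sound D h h1))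
  · exact Or.inr (Or.inr h1)

open Classical in
/-- the linear order -/
@[reducible] noncomputable def RNG_ord : LinearOrder (RNG_Q D h) where
  le := fun x y => RNG_lt D h x y ∨ x = y
  lt := RNG_lt D h
  le_refl := fun _ => Or.inr rfl
  le_trans := by
    rintro x y z (h1 | rfl) (h2 | rfl)
    · exact Or.inl (RNG_trans D h _ _ _ h1 h2)
    · exact Or.inl h1
    · exact Or.inl h2
    · exact Or.inr rfl
  lt_iff_le_not_ge := by
    intro x y
    constructor
    · intro h1
      refine ⟨Or.inl h1, ?_⟩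
      rintro (h2 | h2)
      · exact RNG_irrefl D h _ (RNG_trans D h _ _ _ h1 h2)
      · rw [h2] at h1
        exact RNG_irrefl D h _ h1
    · rintro ⟨h1 | h1, h2⟩
      · exact h1
      · exact absurd (Or.inr h1.symm) h2
  le_antisymm := by
    rintro x y (h1 | h1) (h2 | h2)
    · exact absurd (RNG_trans D h _ _ _ h1 h2) (RNG_irrefl D h _)
    · exact h2.symm
    · exact h1
    · exact h1
  le_total := by
    intro x y
    rcases RNG_tri D h x y with h1 | h1 | h1
    · exact Or.inl (Or.inl h1)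
    · exact Or.inl (Or.inr h1)
    · exact Or.inr (Or.inl h1)
  toDecidableLE := Classical.decRel _

theorem p_RNG : S_RNG := by
  intro T D h
  letI := RNG_ring D h
  letI := RNG_ord D h
  have hadd : ∀ a b c : RNG_Q D h, a < b → a + c < b + c := by
    intro x y z
    obtain ⟨a, rfl⟩ := RNG_surj D h x
    obtain ⟨b, rfl⟩ := RNG_surj D h y
    obtain ⟨c, rfl⟩ := RNG_surj D h z
    exact h.add_lt a b c
  have hle : ∀ x y : RNG_Q D h, x ≤ y ↔ x < y ∨ x = y := fun x y => Iff.rfl
  haveI i1 : IsOrderedAddMonoid (RNG_Q D h) :=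
    { add_le_add_left := by
        intro x y hxy z
        rcases (hle x y).1 hxy with h1 | h1
        · exact (hle _ _).2 (Or.inl (hadd x y z h1))
        · rw [h1] }
  have h01 : (0 : RNG_Q D h) < 1 := h.zero_lt_one
  haveI i2 : ZeroLEOneClass (RNG_Q D h) := ⟨(hle _ _).2 (Or.inl h01)⟩
  haveI i3 : Nontrivial (RNG_Q D h) := ⟨⟨0, 1, h01.ne⟩⟩
  have hmul : ∀ x y : RNG_Q D h, 0 < x → 0 < y → 0 < x * y := by
    intro x y
    obtain ⟨a, rfl⟩ := RNG_surj D h x
    obtain ⟨b, rfl⟩ := RNG_surj D h y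
    exact h.mul_pos a b
  haveI i4 : IsStrictOrderedRing (RNG_Q D h) := IsStrictOrderedRing.of_mul_pos hmul
  refine ⟨RNG_Q D h, RNG_ring D h, RNG_ord D h, i4, RNG_q D h, ?_, ?_⟩
  · exact
      { surj := RNG_surj D h
        zero' := rfl
        one' := rfl
        add' := fun a b => rfl
        mul' := fun a b => rfl
        neg' := fun a => rfl
        eq' := fun a b => ⟨RNG_sound D h, RNG_exact D h⟩
        lt' := fun a b => (RNG_lt_q D h a b).symm }
  · intro x hx
    by_contra hn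
    have h1 : x < 1 := not_le.1 hn
    obtain ⟨a, rfl⟩ := RNG_surj D h x
    exact h.discr a hx h1

end Pool.E5
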