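import Pool.Agent.Work.MP_e5ffe1_all.Interface2

set_option autoImplicit false

namespace Pool.E5

theorem UCLx_ne (hGET : S_GET) (e i : ℕ) (he : e % 9 ≠ 7) : get e i = 0 := by
  cases i with
  | zero =>
    unfold get hd
    simp [he]
  | succ i =>
    have h1 : tl e = 0 := by unfold tl; simp [he]
    have h2 : get e (i + 1) = get 0 i := by
      unfold get
      rw [Function.iterate_succ_apply, h1]
    rw [h2, hGET.2.2 i]

theorem UCLx_get (hGET : S_GET) (X : Set (ℕ → Bool)) (u : ℕ → ℕ) (hu : UU X u) :
    ∀ i, UU X (fun n => get (u n) i) := by
  induction hu with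
  | zero => intro i; simp only [hGET.2.2 i]; exact UU.zero
  | one => intro i; simp only [UCLx_ne hGET co i (by decide)]; exact UU.zero
  | par j =>
    intro i
    have : ∀ n : ℕ, get (cpar j) i = 0 := fun _ => UCLx_ne hGET _ i (by unfold cpar; omega)
    simp only [this 0]; exact UU.zero
  | lab x hx =>
    intro i
    have : (fun n => get (clab (idx x n)) i) = fun _ => 0 := by
      funext n; exact UCLx_ne hGET _ i (by unfold clab; omega)
    rw [this]; exact UU.zero
  | add u w _ _ _ _ =>
    intro i
    have : (fun n => get (cadd (u n) (w n)) i) = fun _ => 0 := by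
      funext n; exact UCLx_ne hGET _ i (by unfold cadd; omega)
    rw [this]; exact UU.zero
  | mul u w _ _ _ _ =>
    intro i
    have : (fun n => get (cmul (u n) (w n)) i) = fun _ => 0 := by
      funext n; exact UCLx_ne hGET _ i (by unfold cmul; omega)
    rw [this]; exact UU.zero
  | neg u _ _ =>
    intro i
    have : (fun n => get (cneg (u n)) i) = fun _ => 0 := by
      funext n; exact UCLx_ne hGET _ i (by unfold cneg; omega)
    rw [this]; exact UU.zero
  | hen φ u _ _ =>
    intro i
    have : (fun n => get (chen φ (u n)) i) = fun _ => 0 := by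
      funext n; exact UCLx_ne hGET _ i (by unfold chen; omega)
    rw [this]; exact UU.zero
  | cons u w hu hw _ ihw =>
    intro i
    cases i with
    | zero =>
      have : (fun n => get (ccons (u n) (w n)) 0) = u := by
        funext n; exact hGET.1 _ _
      rw [this]; exact hu
    | succ i =>
      have : (fun n => get (ccons (u n) (w n)) (i + 1)) = fun n => get (w n) i := by
        funext n; exact hGET.2.1 _ _ _
      rw [this]; exact ihw i

theorem p_UCL (hGET : S_GET) : S_UCL := by
  intro X v
  exact {
    zero := UU.zero
    one := UU.one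
    add := fun u hu w hw => UU.add u w hu hw
    mul := fun u hu w hw => UU.mul u w hu hw
    neg := fun u hu => UU.neg u hu
    hen := fun φ u hu => UU.hen φ u hu
    cons := fun u hu w hw => UU.cons u w hu hw
    get := fun u hu i => UCLx_get hGET X u hu i }

end Pool.E5
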