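import Pool.Agent.Work.MP_e5ffe1_all.Interface1
import Pool.Agent.Work.MP_e5ffe1_gen.Calc

set_option autoImplicit false

namespace Pool.E5

open Pool.Agent.Work.MP_e5ffe1_gen (Idl PS)

theorem WKL_idl {S : Set (Set ℕ)} (hS : Sc S) : Idl S := ⟨hS.ne, hS.tr, hS.join⟩

/-- the nodes of the tree -/
def WKL_P (b : ℕ → ℕ) (Q : ℕ → List Bool → Bool) (p : ℕ → ℕ) (A : Set ℕ) (l : List Bool) : Prop :=
  (∀ n < l.length, b n ≤ l.length → Q n (l.take (b n)) = true) ∧
    ∀ k < l.length, p k < l.length → (l.getD (p k) false = true ↔ k ∈ A)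

theorem WKL_PS {S : Set (Set ℕ)} (hS : Sc S) {b : ℕ → ℕ} {Q : ℕ → List Bool → Bool} {p : ℕ → ℕ}
    {A : Set ℕ} (hb : Primrec b) (hQ : Primrec₂ Q) (hp : Primrec p) (hA : A ∈ S) :
    PS S (WKL_P b Q p A) := by
  have hI := WKL_idl hS
  have h1 : PS S (fun x : List Bool × ℕ => b x.2 ≤ x.1.length) :=
    PS.primrec hI (Primrec.nat_le.comp (hb.comp Primrec.snd) (Primrec.list_length.comp Primrec.fst))
  have h2 : PS S (fun x : List Bool × ℕ => Q x.2 (x.1.take (b x.2)) = true) :=
    PS.computable hI (hQ.comp Primrec.snd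
      (Primrec.list_take.comp (hb.comp Primrec.snd) Primrec.fst)).to_comp
  have h3 : PS S (fun x : List Bool × ℕ => p x.2 < x.1.length) :=
    PS.primrec hI (Primrec.nat_lt.comp (hp.comp Primrec.snd) (Primrec.list_length.comp Primrec.fst))
  have hget : Primrec₂ (fun (s : List Bool) (i : ℕ) => s.getD i false) := Primrec.list_getD false
  have h4 : PS S (fun x : List Bool × ℕ => x.1.getD (p x.2) false = true) :=
    PS.computable hI (hget.comp Primrec.fst (hp.comp Primrec.snd)).to_comp
  have h5 : PS S (fun x : List Bool × ℕ => x.2 ∈ A) := PS.comp hI (PS.mem hA) Computable.snd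
  have h6 : PS S (fun l : List Bool => ∀ n < l.length, b n ≤ l.length → Q n (l.take (b n)) = true) :=
    PS.ball hI (p := fun (l : List Bool) n => b n ≤ l.length → Q n (l.take (b n)) = true)
      (PS.imp hI h1 h2) Primrec.list_length.to_comp
  have h7 : PS S (fun l : List Bool => ∀ k < l.length, p k < l.length →
      (l.getD (p k) false = true ↔ k ∈ A)) :=
    PS.ball hI (p := fun (l : List Bool) k => p k < l.length → (l.getD (p k) false = true ↔ k ∈ A))
      (PS.imp hI h3 (PS.iff hI h4 h5)) Primrec.list_length.to_comp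
  exact PS.and hI h6 h7

theorem WKL_take {l l' : List Bool} (h : l' <+: l) {m : ℕ} (hm : m ≤ l'.length) :
    l'.take m = l.take m := by
  obtain ⟨t, rfl⟩ := h
  rw [List.take_append_of_le_length hm]

theorem WKL_getD {l l' : List Bool} (h : l' <+: l) {m : ℕ} (hm : m < l'.length) :
    l'.getD m false = l.getD m false := by
  obtain ⟨t, rfl⟩ := h
  exact (List.getD_append _ _ _ _ hm).symm

theorem WKL_map_take (v : ℕ → Bool) {m N : ℕ} (h : m ≤ N) :
    ((List.range N).map v).take m = (List.range m).map v := by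
  rw [← List.map_take, List.take_range, min_eq_left h]

theorem WKL_map_getD (v : ℕ → Bool) {m N : ℕ} (h : m < N) :
    ((List.range N).map v).getD m false = v m := by
  rw [List.getD_eq_getElem?_getD, List.getElem?_map, List.getElem?_range h]
  rfl

theorem WKL_ofFn (f : ℕ → Bool) (n : ℕ) : List.ofFn (fun i : Fin n => f i) = (List.range n).map f := by
  apply List.ext_getElem
  · simp
  · intro i h1 h2
    simp

/-- block WKL -/
theorem p_WKL : S_WKL := by
  intro S hS g hg p hp A hA hN
  obtain ⟨b, Q, hb, hQ, hgQ⟩ := hg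
  obtain ⟨C, hC, hC'⟩ := WKL_PS hS hb hQ hp hA
  have hpre : ∀ l l' : List Bool, List.IsPrefix l' l → Encodable.encode l ∈ C →
      Encodable.encode l' ∈ C := by
    intro l l' hll h
    refine (hC' l').mp ?_
    obtain ⟨h1, h2⟩ := (hC' l).mpr h
    have hlen := hll.length_le
    refine ⟨fun n hn hbn => ?_, fun k hk hpk => ?_⟩
    · rw [WKL_take hll hbn]
      exact h1 n (by omega) (by omega)
    · rw [WKL_getD hll hpk]
      exact h2 k (by omega) (by omega)
  have hinf : {l : List Bool | Encodable.encode l ∈ C}.Infinite := by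
    choose v hv using hN
    refine Set.infinite_of_injective_forall_mem (f := fun N : ℕ => (List.range N).map (v N)) ?_ ?_
    · intro N M h
      have := congrArg List.length h
      simpa using this
    · intro N
      refine (hC' _).mp ?_
      obtain ⟨h1, h2⟩ := hv N
      refine ⟨fun n hn hbn => ?_, fun k hk hpk => ?_⟩
      · rw [List.length_map, List.length_range] at hn hbn
        rw [WKL_map_take _ hbn, ← hgQ]
        exact h1 n hn
      · rw [List.length_map, List.length_range] at hk hpk
        rw [WKL_map_getD _ hpk]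
        exact h2 k hk
  obtain ⟨f, hf, hfS⟩ := hS.wkl C hC hpre hinf
  have hfP : ∀ n, WKL_P b Q p A ((List.range n).map f) := by
    intro n
    rw [← WKL_ofFn]
    exact (hC' _).mpr (hf n)
  refine ⟨f, hfS, fun n => ?_, fun k => ?_⟩
  · have h1 := (hfP (max (n + 1) (b n))).1 n (by simp) (by simp)
    rw [WKL_map_take _ (le_max_right _ _)] at h1
    rw [hgQ]
    exact h1
  · have h2 := (hfP (max (k + 1) (p k + 1))).2 k (by simp) (by simp)
    rw [WKL_map_getD _ (by simp)] at h2
    exact h2

end Pool.E5
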