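import Mathlib

/-!
# Theorem E (MP_e5ffe1_lc): definitions, part 1 (codes, truth, clauses). helper20

Everything is coded by natural numbers.  Codes of elements: tag `n % 9`, content `n / 9`
(0: zero, 1: one, 2: label, 3: sum, 4: product, 5: negative, 6: Henkin element of a formula and an
environment, 7: environment `a :: e`, 8: parameter).  Codes of formulas: tag `n % 7`, content `n / 7`
(0: x_i = x_j, 1: x_i < x_j, 2: x_i + x_j = x_k, 3: x_i x_j = x_k, 4: not, 5: and, 6: exists, the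
bound variable gets index 0).
-/

set_option autoImplicit false

namespace Pool.E5

/-! ### codes -/

def co : ℕ := 1
def clab (s : ℕ) : ℕ := 9 * s + 2
def cadd (a b : ℕ) : ℕ := 9 * Nat.pair a b + 3
def cmul (a b : ℕ) : ℕ := 9 * Nat.pair a b + 4
def cneg (a : ℕ) : ℕ := 9 * a + 5
def chen (φ e : ℕ) : ℕ := 9 * Nat.pair φ e + 6
def ccons (a e : ℕ) : ℕ := 9 * Nat.pair a e + 7
def cpar (i : ℕ) : ℕ := 9 * i + 8

def feq (i j : ℕ) : ℕ := 7 * Nat.pair i j
def flt (i j : ℕ) : ℕ := 7 * Nat.pair i j + 1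
def fadd (i j k : ℕ) : ℕ := 7 * Nat.pair i (Nat.pair j k) + 2
def fmul (i j k : ℕ) : ℕ := 7 * Nat.pair i (Nat.pair j k) + 3
def fneg (φ : ℕ) : ℕ := 7 * φ + 4
def fand (φ ψ : ℕ) : ℕ := 7 * Nat.pair φ ψ + 5
def fex (φ : ℕ) : ℕ := 7 * φ + 6

/-- head of an environment -/
def hd (e : ℕ) : ℕ := if e % 9 = 7 then (Nat.unpair (e / 9)).1 else 0
/-- tail of an environment -/
def tl (e : ℕ) : ℕ := if e % 9 = 7 then (Nat.unpair (e / 9)).2 else 0
/-- entry number `i` of an environment -/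
def get (e i : ℕ) : ℕ := hd (tl^[i] e)

theorem hd_le (e : ℕ) : hd e ≤ e := by
  unfold hd
  split_ifs
  · have := Nat.unpair_left_le (e / 9)
    omega
  · omega

theorem tl_le (e : ℕ) : tl e ≤ e := by
  unfold tl
  split_ifs
  · have := Nat.unpair_right_le (e / 9)
    omega
  · omega

theorem get_le (e i : ℕ) : get e i ≤ e := by
  unfold get
  refine (hd_le _).trans ?_
  induction i with
  | zero => simp
  | succ i ih =>
    rw [Function.iterate_succ_apply']
    exact (tl_le _).trans ih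

/-- numerals -/
def num : ℕ → ℕ
  | 0 => 0
  | n + 1 => cadd (num n) co

/-- add an element in front -/
def cns {R : Type} (a : R) (ρ : ℕ → R) : ℕ → R
  | 0 => a
  | i + 1 => ρ i

/-- truth of the formula with code `n` -/
def Sat (R : Type) [CommRing R] [LinearOrder R] (n : ℕ) (ρ : ℕ → R) : Prop :=
  if n % 7 = 0 then ρ (Nat.unpair (n / 7)).1 = ρ (Nat.unpair (n / 7)).2
  else if n % 7 = 1 then ρ (Nat.unpair (n / 7)).1 < ρ (Nat.unpair (n / 7)).2
  else if n % 7 = 2 then ρ (Nat.unpair (n / 7)).1 + ρ (Nat.unpair (Nat.unpair (n / 7)).2).1 =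
    ρ (Nat.unpair (Nat.unpair (n / 7)).2).2
  else if n % 7 = 3 then ρ (Nat.unpair (n / 7)).1 * ρ (Nat.unpair (Nat.unpair (n / 7)).2).1 =
    ρ (Nat.unpair (Nat.unpair (n / 7)).2).2
  else if h4 : n % 7 = 4 then ¬ Sat R (n / 7) ρ
  else if h5 : n % 7 = 5 then Sat R (Nat.unpair (n / 7)).1 ρ ∧ Sat R (Nat.unpair (n / 7)).2 ρ
  else if h6 : n % 7 = 6 then ∃ a : R, Sat R (n / 7) (cns a ρ)
  else False
termination_by n
decreasing_by
  · omega
  · have := Nat.unpair_left_le (n / 7)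
    omega
  · have := Nat.unpair_right_le (n / 7)
    omega
  · omega

open Classical in
/-- a witness of least absolute value -/
noncomputable def lw (P : ℤ → Prop) : ℤ :=
  if h : ∃ n : ℕ, ∃ a : ℤ, P a ∧ a.natAbs = n then (Nat.find_spec h).choose else 0

/-- value of the element with code `n`; `J` values of parameters, `I` values of labels -/
noncomputable def ev (J I : ℕ → ℤ) (n : ℕ) : ℤ :=
  if n % 9 = 1 then 1
  else if n % 9 = 2 then I (n / 9)
  else if h3 : n % 9 = 3 then ev J I (Nat.unpair (n / 9)).1 + ev J I (Nat.unpair (n / 9)).2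
  else if h4 : n % 9 = 4 then ev J I (Nat.unpair (n / 9)).1 * ev J I (Nat.unpair (n / 9)).2
  else if h5 : n % 9 = 5 then - ev J I (n / 9)
  else if h6 : n % 9 = 6 then lw (fun a => Sat ℤ (Nat.unpair (n / 9)).1
    (cns a (fun i => ev J I (get (Nat.unpair (n / 9)).2 i))))
  else if n % 9 = 8 then J (n / 9)
  else 0
termination_by n
decreasing_by
  all_goals
    have h1 := Nat.unpair_left_le (n / 9)
    have h2 := Nat.unpair_right_le (n / 9)
    try have h3 := get_le (Nat.unpair (n / 9)).2 i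
    omega

/-- truth in the integers of a formula with an environment -/
def VI (J I : ℕ → ℤ) (φ e : ℕ) : Prop := Sat ℤ φ (fun i => ev J I (get e i))

/-- size -/
def sz (n : ℕ) : ℕ :=
  if n % 9 = 2 then 1
  else if h5 : n % 9 = 5 then sz (n / 9) + 1
  else if h6 : n % 9 = 6 then (Nat.unpair (n / 9)).1 + sz (Nat.unpair (n / 9)).2 + 1
  else if h3 : n % 9 = 3 ∨ n % 9 = 4 ∨ n % 9 = 7 then
    sz (Nat.unpair (n / 9)).1 + sz (Nat.unpair (n / 9)).2 + 1
  else n + 1
termination_by n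
decreasing_by
  all_goals
    have h1 := Nat.unpair_left_le (n / 9)
    have h2 := Nat.unpair_right_le (n / 9)
    omega

/-- all labels of the code are of level `k` -/
def lvb (k n : ℕ) : Bool :=
  if n % 9 = 2 then decide (2 ^ k ≤ n / 9) && decide (n / 9 < 2 ^ (k + 1))
  else if h5 : n % 9 = 5 then lvb k (n / 9)
  else if h6 : n % 9 = 6 then lvb k (Nat.unpair (n / 9)).2
  else if h3 : n % 9 = 3 ∨ n % 9 = 4 ∨ n % 9 = 7 then
    lvb k (Nat.unpair (n / 9)).1 && lvb k (Nat.unpair (n / 9)).2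
  else true
termination_by n
decreasing_by
  all_goals
    have h1 := Nat.unpair_left_le (n / 9)
    have h2 := Nat.unpair_right_le (n / 9)
    omega

/-- one child of `s` -/
def chd (r s : ℕ) : ℕ := 2 * s + (Nat.testBit r s).toNat

/-- replace every label `s` by one of its children, chosen by the bits of `r` -/
def ext (r n : ℕ) : ℕ :=
  if n % 9 = 2 then clab (chd r (n / 9))
  else if h5 : n % 9 = 5 then cneg (ext r (n / 9))
  else if h6 : n % 9 = 6 then chen (Nat.unpair (n / 9)).1 (ext r (Nat.unpair (n / 9)).2)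
  else if h3 : n % 9 = 3 ∨ n % 9 = 4 ∨ n % 9 = 7 then
    9 * Nat.pair (ext r (Nat.unpair (n / 9)).1) (ext r (Nat.unpair (n / 9)).2) + n % 9
  else n
termination_by n
decreasing_by
  all_goals
    have h1 := Nat.unpair_left_le (n / 9)
    have h2 := Nat.unpair_right_le (n / 9)
    omega

/-- the formula `(1 + (n + 1) b) ∣ c` with environment `c, n, b, 1` -/
def Bf : ℕ := fex (fex (fex (fex (fand (fadd 5 7 3) (fand (fmul 3 6 2) (fand (fadd 2 7 1) (fmul 1 0 4)))))))
/-- the environment `c, n, b, 1` -/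
def benv (c n : ℕ) : ℕ := ccons c (ccons n (ccons (cpar 0) (ccons co 0)))

/-! ### growth -/

/-- product Ramsey bound for pairs, `Q` factors, `r` colours -/
def pr (Q r : ℕ) : ℕ := Nat.rec 2 (fun q p => max p (r ^ (p ^ q) + 1)) Q
/-- bound for codes of size at most `k` with labels of level `m` -/
def Bd (m k : ℕ) : ℕ := Nat.rec (9 * 2 ^ (m + 1) + 9) (fun _ p => 9 * (p + 1) ^ 2 + 9) k
/-- bound for the number of formulas with environment to be stabilised at level `m` -/
def tt (m : ℕ) : ℕ := (m + 1) * (Bd m m + 1)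
/-- state of the recursion -/
def stt (m : ℕ) : ℕ × ℕ × ℕ := Nat.rec (1, 1, 0) (fun i s =>
  (s.1 * pr s.1 (2 ^ (tt i * s.2.1 + s.2.2)),
   s.2.1 * pr s.1 (2 ^ (tt i * s.2.1 + s.2.2)) ^ (2 * s.1),
   (tt i * s.2.1 + s.2.2) * pr s.1 (2 ^ (tt i * s.2.1 + s.2.2)) ^ s.1)) m
/-- branching numbers -/
def MM (m : ℕ) : ℕ := pr (stt m).1 (2 ^ (tt m * (stt m).2.1 + (stt m).2.2))
/-- offsets -/
def off (m : ℕ) : ℕ := Nat.rec 0 (fun i o => o + MM i) m
/-- level at which the bits of block `m` are decided -/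
def LL (m : ℕ) : ℕ := Bf + 3 * off (m + 1) + 18 + m + 1
/-- number of descendants at level `LL m` of a node of level `m + 1` -/
def DD (m : ℕ) : ℕ := 2 ^ (LL m - (m + 1))

/-! ### branches -/

/-- heap index of the initial segment of length `n` -/
def idx (x : ℕ → Bool) (n : ℕ) : ℕ := Nat.rec 1 (fun i s => 2 * s + (x i).toNat) n

/-! ### Henkin structures -/

/-- data of a Henkin structure -/
structure Dt (T : Type) where
  zero : T
  one : T
  add : T → T → T
  mul : T → T → T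
  neg : T → T
  hen : ℕ → T → T
  cons : T → T → T
  get : T → ℕ → T
  V : ℕ → T → Prop

namespace Dt
variable {T : Type} (D : Dt T)

/-- equality -/
def E (a b : T) : Prop := D.V (feq 0 1) (D.cons a (D.cons b D.zero))
/-- order -/
def L (a b : T) : Prop := D.V (flt 0 1) (D.cons a (D.cons b D.zero))
/-- numerals -/
def nm : ℕ → T
  | 0 => D.zero
  | n + 1 => D.add (nm n) D.one

/-- axioms, part 1 -/
structure Ax1 : Prop where
  get_zero : ∀ a e, D.get (D.cons a e) 0 = a
  get_succ : ∀ a e i, D.get (D.cons a e) (i + 1) = D.get e i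
  get_nil : ∀ i, D.get D.zero i = D.zero
  neg' : ∀ φ e, D.V (fneg φ) e ↔ ¬ D.V φ e
  and' : ∀ φ ψ e, D.V (fand φ ψ) e ↔ D.V φ e ∧ D.V ψ e
  ex' : ∀ φ e, D.V (fex φ) e ↔ D.V φ (D.cons (D.hen φ e) e)
  wit : ∀ φ a e, D.V φ (D.cons a e) → D.V φ (D.cons (D.hen φ e) e) ∧
    ¬ D.L (D.mul a a) (D.mul (D.hen φ e) (D.hen φ e))
  eq' : ∀ i j e, D.V (feq i j) e ↔ D.E (D.get e i) (D.get e j)
  lt' : ∀ i j e, D.V (flt i j) e ↔ D.L (D.get e i) (D.get e j)
  add' : ∀ i j k e, D.V (fadd i j k) e ↔ D.E (D.add (D.get e i) (D.get e j)) (D.get e k)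
  mul' : ∀ i j k e, D.V (fmul i j k) e ↔ D.E (D.mul (D.get e i) (D.get e j)) (D.get e k)

/-- axioms, part 2 -/
structure Ax2 : Prop where
  refl : ∀ a, D.E a a
  symm : ∀ a b, D.E a b → D.E b a
  trans : ∀ a b c, D.E a b → D.E b c → D.E a c
  congr_add : ∀ a b c, D.E a b → D.E (D.add a c) (D.add b c)
  congr_mul : ∀ a b c, D.E a b → D.E (D.mul a c) (D.mul b c)
  congr_neg : ∀ a b, D.E a b → D.E (D.neg a) (D.neg b)
  congr_lt : ∀ a b c, D.E a b → D.L a c → D.L b c
  congr_lt2 : ∀ a b c, D.E a b → D.L c a → D.L c b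
  add_assoc : ∀ a b c, D.E (D.add (D.add a b) c) (D.add a (D.add b c))
  add_comm : ∀ a b, D.E (D.add a b) (D.add b a)
  zero_add : ∀ a, D.E (D.add D.zero a) a
  neg_add : ∀ a, D.E (D.add (D.neg a) a) D.zero
  mul_assoc : ∀ a b c, D.E (D.mul (D.mul a b) c) (D.mul a (D.mul b c))
  mul_comm : ∀ a b, D.E (D.mul a b) (D.mul b a)
  one_mul : ∀ a, D.E (D.mul D.one a) a
  distrib : ∀ a b c, D.E (D.mul a (D.add b c)) (D.add (D.mul a b) (D.mul a c))

/-- axioms, part 3 -/
structure Ax3 : Prop where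
  irrefl : ∀ a, ¬ D.L a a
  lt_trans : ∀ a b c, D.L a b → D.L b c → D.L a c
  tri : ∀ a b, D.L a b ∨ D.E a b ∨ D.L b a
  add_lt : ∀ a b c, D.L a b → D.L (D.add a c) (D.add b c)
  mul_pos : ∀ a b, D.L D.zero a → D.L D.zero b → D.L D.zero (D.mul a b)
  zero_lt_one : D.L D.zero D.one
  discr : ∀ a, D.L D.zero a → ¬ D.L a D.one

/-- axioms -/
structure Ax : Prop extends D.Ax1, D.Ax2, D.Ax3

/-- `q` is the quotient map onto the ordered ring `R` -/
structure Rz (R : Type) [CommRing R] [LinearOrder R] (q : T → R) : Prop where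
  surj : Function.Surjective q
  zero' : q D.zero = 0
  one' : q D.one = 1
  add' : ∀ a b, q (D.add a b) = q a + q b
  mul' : ∀ a b, q (D.mul a b) = q a * q b
  neg' : ∀ a, q (D.neg a) = - q a
  eq' : ∀ a b, D.E a b ↔ q a = q b
  lt' : ∀ a b, D.L a b ↔ q a < q b

end Dt

/-- the structure on codes given by a valuation -/
def VD (v : ℕ → Bool) : Dt ℕ where
  zero := 0
  one := co
  add := cadd
  mul := cmul
  neg := cneg
  hen := chen
  cons := ccons
  get := get
  V := fun φ e => v (Nat.pair φ e) = true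

/-! ### the class of valuations -/

/-- coherence up to level `N` -/
def CohN (v : ℕ → Bool) (N : ℕ) : Prop := ∀ k < N, ∀ φ e r, lvb k e = true → φ + sz e ≤ k →
  v (Nat.pair φ e) = v (Nat.pair φ (ext r e))
/-- the bit clauses up to level `N` -/
def BitN (v : ℕ → Bool) (N : ℕ) : Prop := ∀ m < N, ∀ s, 2 ^ m ≤ s → s < 2 ^ (m + 1) →
  ∃ j < off (m + 1), ∀ i < DD m, ∀ i' < DD m,
    v (Nat.pair Bf (benv (clab (2 * s * DD m + i)) (num j))) ≠
      v (Nat.pair Bf (benv (clab ((2 * s + 1) * DD m + i')) (num j)))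
/-- labels are large, up to level `N` -/
def BigN (v : ℕ → Bool) (N : ℕ) : Prop := ∀ m < N, ∀ s k, 2 ^ m ≤ s → s < 2 ^ (m + 1) → k ≤ m →
  (VD v).L (num k) (clab s)

/-- `v` is a valuation of the class -/
structure Good (v : ℕ → Bool) : Prop where
  ax : (VD v).Ax
  coh : ∀ N, CohN v N
  bit : ∀ N, BitN v N
  big : ∀ N, BigN v N

/-- position of the code of membership of `k` in the coded set `A` -/
def posA (k : ℕ) : ℕ := Nat.pair Bf (benv (cpar 1) (num k))

end Pool.E5
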