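import Pool.Agent.Work.MP_e5ffe1_all.Interface2

/-! Theorem E: assembly (helper20) -/

set_option autoImplicit false

namespace Pool.E5

open Filter

theorem FIN_idx (x : ℕ → Bool) (m : ℕ) : 2 ^ m ≤ idx x m ∧ idx x m < 2 ^ (m + 1) := by
  induction m with
  | zero => constructor <;> simp [idx]
  | succ m ih =>
    have h1 : idx x (m + 1) = 2 * idx x m + (x m).toNat := rfl
    have h2 : (x m).toNat ≤ 1 := by cases x m <;> simp
    rw [h1, pow_succ 2 m, pow_succ 2 (m + 1)]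
    obtain ⟨h3, h4⟩ := ih
    constructor <;> omega

theorem assembly (hVAL : S_VAL) (hUCL : S_UCL) (hLIM : S_LIM) (hSTV : S_STV) (hTRC : S_TRC)
    (hDC1 : S_DC1) (hDC2 : S_DC2) (hRNG : S_RNG) (hTRU : S_TRU) (hENV : S_ENV) (hIND : S_IND)
    (hDFA : S_DFA) (hDFB : S_DFB) (hINS : S_INS) (hBFS : S_BFS) : Target := by
  classical
  intro S hS A hA
  obtain ⟨v, hvS, hG, hvA⟩ := hVAL S hS A hA
  have hC : Cls (VD v) {u | UU (XS S) u} := hUCL (XS S) v
  obtain ⟨D, hD⟩ : ∃ D, D = limD (VD v) {u | UU (XS S) u} hC := ⟨_, rfl⟩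
  have hAx : D.Ax := by
    rw [hD]
    refine hLIM ℕ (VD v) _ hC hG.ax (fun φ u hu => ?_)
    obtain ⟨n1, hn1⟩ := hSTV v hG.coh (XS S) u hu
    refine ⟨n1 + φ, fun n hn => ?_⟩
    have h1 := (hn1 φ 0 n (by omega)).2
    show v (Nat.pair φ (u n)) = true ↔ v (Nat.pair φ (u (n + 1))) = true
    rw [h1]
  have hV : ∀ φ u, D.V φ u ↔ ∀ᶠ n in atTop, v (Nat.pair φ (u.1 n)) = true := by
    intro φ u
    rw [hD]
    rfl
  have hcons : ∀ u w n, (D.cons u w).1 n = ccons (u.1 n) (w.1 n) := by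
    intro u w n
    rw [hD]
    rfl
  have hzero : ∀ n, D.zero.1 n = 0 := by
    intro n
    rw [hD]
    rfl
  have hone : ∀ n, D.one.1 n = co := by
    intro n
    rw [hD]
    rfl
  have hnm1 : ∀ n m, (D.nm n).1 m = num n := by
    intro n
    induction n with
    | zero => intro m; exact hzero m
    | succ n ih =>
      intro m
      have h1 : ∀ a b : {u | UU (XS S) u}, ∀ m, (D.add a b).1 m = cadd (a.1 m) (b.1 m) := by
        intro a b m
        rw [hD]
        rfl
      show (D.add (D.nm n) D.one).1 m = cadd (num n) co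
      rw [h1, ih m, hone]
  obtain ⟨R, i1, i2, i3, q, hq, hdis⟩ := hRNG _ D hAx
  obtain ⟨j1, j2, j3⟩ := hINS R
  have tru := hTRU _ D hAx R q hq
  have hqn : ∀ n : ℕ, q (D.nm n) = (n : R) := by
    intro n
    induction n with
    | zero => rw [Nat.cast_zero]; exact hq.zero'
    | succ n ih =>
      show q (D.add (D.nm n) D.one) = _
      rw [hq.add', ih, hq.one', Nat.cast_succ]
  -- traces
  have htr : ∀ (φ : ℕ) (w : {u | UU (XS S) u}) (n : ℕ),
      Sat R φ (cns (n : R) (fun i => q (D.get w i))) ↔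
        ∀ᶠ m in atTop, v (Nat.pair φ (ccons (num n) (w.1 m))) = true := by
    intro φ w n
    have h1 := tru φ (D.cons (D.nm n) w)
    have h2 : (fun i => q (D.get (D.cons (D.nm n) w) i)) = cns (n : R) (fun i => q (D.get w i)) := by
      funext i
      cases i with
      | zero => rw [hAx.get_zero, hqn]; rfl
      | succ i => rw [hAx.get_succ]; rfl
    rw [h2] at h1
    rw [← h1, hV]
    refine Filter.eventually_congr (Filter.Eventually.of_forall fun m => ?_)
    rw [hcons, hnm1]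
  have hparm : ∀ i, (fun _ : ℕ => cpar i) ∈ {u | UU (XS S) u} := fun i => UU.par i
  have hdv : ∀ (c : {u | UU (XS S) u}) (n : ℕ),
      ((1 + ((n : R) + 1) * q ⟨_, hparm 0⟩) ∣ q c ↔
        ∀ᶠ m in atTop, v (Nat.pair Bf (benv (c.1 m) (num n))) = true) := by
    intro c n
    have h1 := tru Bf (D.cons c (D.cons (D.nm n) (D.cons ⟨_, hparm 0⟩ (D.cons D.one D.zero))))
    have h2 := hBFS R (fun i => q (D.get (D.cons c (D.cons (D.nm n)
      (D.cons ⟨_, hparm 0⟩ (D.cons D.one D.zero)))) i)) (by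
        show q (D.get _ 3) = 1
        rw [hAx.get_succ, hAx.get_succ, hAx.get_succ, hAx.get_zero, hq.one'])
    have g0 : q (D.get (D.cons c (D.cons (D.nm n)
      (D.cons ⟨_, hparm 0⟩ (D.cons D.one D.zero)))) 0) = q c := by rw [hAx.get_zero]
    have g1 : q (D.get (D.cons c (D.cons (D.nm n)
      (D.cons ⟨_, hparm 0⟩ (D.cons D.one D.zero)))) 1) = (n : R) := by
      rw [hAx.get_succ, hAx.get_zero, hqn]
    have g2 : q (D.get (D.cons c (D.cons (D.nm n)
      (D.cons ⟨_, hparm 0⟩ (D.cons D.one D.zero)))) 2) = q ⟨_, hparm 0⟩ := by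
      rw [hAx.get_succ, hAx.get_succ, hAx.get_zero]
    beta_reduce at h2
    rw [g0, g1, g2] at h2
    rw [← h2, ← h1, hV]
    refine Filter.eventually_congr (Filter.Eventually.of_forall fun m => ?_)
    rw [hcons, hcons, hcons, hcons, hnm1, hone, hzero]
    rfl
  refine ⟨R, i1, i2, i3, j1, j2, j3, hdis, ?_, ?_, ?_, ?_, ?_⟩
  · intro Ds hDs h0 hs x hx
    obtain ⟨φ, ρ, hρ, hφ⟩ := hDFA R Ds hDs
    rw [hφ] at h0 ⊢
    refine hIND _ D hAx R q hq hdis φ ρ hρ h0 (fun y hy hsat => ?_) x hx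
    rw [← hφ] at hsat ⊢
    exact hs y hy hsat
  · -- an element above all numerals
    let x : ℕ → Bool := fun n => decide (n ∈ A)
    have hx : x ∈ XS S := by
      show {n : ℕ | x n = true} ∈ S
      have : {n : ℕ | x n = true} = A := by ext n; simp [x]
      rw [this]
      exact hA
    let c : {u | UU (XS S) u} := ⟨fun n => clab (idx x n), UU.lab x hx⟩
    refine ⟨q c, fun n => ?_⟩
    rw [← hqn n, ← hq.lt']
    show D.V (flt 0 1) (D.cons (D.nm n) (D.cons c D.zero))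
    rw [hV]
    refine Filter.eventually_atTop.2 ⟨n, fun m hm => ?_⟩
    rw [hcons, hcons, hnm1, hzero]
    have h1 := hG.big (m + 1) m (by omega) (idx x m) n (FIN_idx x m).1 (FIN_idx x m).2 hm
    exact h1
  · -- A is coded
    refine ⟨_, hDFB R (q ⟨_, hparm 0⟩) (q ⟨_, hparm 1⟩), fun n => ?_⟩
    have h1 := hdv ⟨_, hparm 1⟩ n
    show n ∈ A ↔ (1 + ((n : R) + 1) * q ⟨_, hparm 0⟩) ∣ q ⟨_, hparm 1⟩
    rw [h1, ← hvA n]
    constructor
    · intro h
      exact Filter.Eventually.of_forall fun m => h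
    · intro h
      exact h.exists.choose_spec
  · intro Ds hDs
    obtain ⟨φ, ρ, hρ, hφ⟩ := hDFA R Ds hDs
    obtain ⟨e, he⟩ := hENV _ D hAx R q hq ρ hρ
    have h1 := hTRC S hS v hvS hG.coh e.1 e.2 φ
    have h2 : {n : ℕ | (fun _ : Fin 1 => (n : R)) ∈ Ds} =
        {j : ℕ | ∀ᶠ n in atTop, v (Nat.pair φ (ccons (num j) (e.1 n))) = true} := by
      ext n
      rw [Set.mem_setOf_eq, Set.mem_setOf_eq, hφ, ← htr]
      have h3 : (fun i => q (D.get e i)) = ρ := funext he
      rw [h3]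
    rw [h2]
    exact h1
  · refine ⟨_, hvS, fun Y hY => ?_⟩
    let x : ℕ → Bool := fun n => decide (n ∈ Y)
    have hxY : {n : ℕ | x n = true} = Y := by ext n; simp [x]
    have hx : x ∈ XS S := by
      show {n : ℕ | x n = true} ∈ S
      rw [hxY]
      exact hY
    let c : {u | UU (XS S) u} := ⟨fun n => clab (idx x n), UU.lab x hx⟩
    refine ⟨_, hDFB R (q ⟨_, hparm 0⟩) (q c), ?_⟩
    have h1 : {n : ℕ | (fun _ : Fin 1 => (n : R)) ∈
        {y : Fin 1 → R | (1 + (y 0 + 1) * q ⟨_, hparm 0⟩) ∣ q c}} = trx v x := by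
      ext n
      exact hdv c n
    rw [h1]
    have h2 := hDC1 v hG.coh hG.bit x
    have h3 := hDC2 v hG.coh x
    rw [hxY] at h2 h3
    exact ⟨h2, h3⟩

end Pool.E5
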