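import Pool.Agent.Work.MP_e5ffe1_all.Defs

/-!
# Theorem E, blocks part 1: codes, combinatorics, computability.  helper20
-/

set_option autoImplicit false

namespace Pool.E5

/-! ### codes -/

/-- GET. iterate; tags with `Nat.unpair_pair`, `omega` for `(9 * m + 7) % 9`, `(9 * m + 7) / 9`. -/
def S_GET : Prop := (∀ a e, get (ccons a e) 0 = a) ∧ (∀ a e i, get (ccons a e) (i + 1) = get e i) ∧
  ∀ i, get 0 i = 0

/-- SEQ: equations of Sat. `rw [Sat]`, tags by omega. -/
def S_SEQ : Prop := ∀ (R : Type) [CommRing R] [LinearOrder R] (ρ : ℕ → R),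
  (∀ i j, Sat R (feq i j) ρ ↔ ρ i = ρ j) ∧ (∀ i j, Sat R (flt i j) ρ ↔ ρ i < ρ j) ∧
  (∀ i j k, Sat R (fadd i j k) ρ ↔ ρ i + ρ j = ρ k) ∧
  (∀ i j k, Sat R (fmul i j k) ρ ↔ ρ i * ρ j = ρ k) ∧
  (∀ φ, Sat R (fneg φ) ρ ↔ ¬ Sat R φ ρ) ∧
  (∀ φ ψ, Sat R (fand φ ψ) ρ ↔ Sat R φ ρ ∧ Sat R ψ ρ) ∧
  ∀ φ, Sat R (fex φ) ρ ↔ ∃ a : R, Sat R φ (cns a ρ)

/-- FND: induction on formula codes. Strong induction on n, cases on n % 7, n = 7 * (n/7) + n%7,
`Nat.pair_unpair`. -/
def S_FND : Prop := ∀ P : ℕ → Prop, (∀ i j, P (feq i j)) → (∀ i j, P (flt i j)) →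
  (∀ i j k, P (fadd i j k)) → (∀ i j k, P (fmul i j k)) → (∀ φ, P φ → P (fneg φ)) →
  (∀ φ ψ, P φ → P ψ → P (fand φ ψ)) → (∀ φ, P φ → P (fex φ)) → ∀ n, P n

/-- LWS: least witness. Choose.. natAbs minimal, `a * a < h * h ↔ a.natAbs < h.natAbs`. -/
def S_LWS : Prop := ∀ (P : ℤ → Prop) (a : ℤ), P a → P (lw P) ∧ ¬ (a * a < lw P * lw P)

/-- EVQ: equations of ev. -/
def S_EVQ : Prop := ∀ J I : ℕ → ℤ, ev J I 0 = 0 ∧ ev J I co = 1 ∧ (∀ s, ev J I (clab s) = I s) ∧
  (∀ a b, ev J I (cadd a b) = ev J I a + ev J I b) ∧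
  (∀ a b, ev J I (cmul a b) = ev J I a * ev J I b) ∧ (∀ a, ev J I (cneg a) = - ev J I a) ∧
  (∀ φ e, ev J I (chen φ e) = lw (fun a => Sat ℤ φ (cns a (fun i => ev J I (get e i))))) ∧
  (∀ i, ev J I (cpar i) = J i) ∧ ∀ n, ev J I (num n) = n

/-- EXQ: equations of sz, lvb, ext. -/
def S_EXQ : Prop := (∀ s, sz (clab s) = 1) ∧ (∀ a b, sz (cadd a b) = sz a + sz b + 1) ∧
  (∀ a b, sz (cmul a b) = sz a + sz b + 1) ∧ (∀ a, sz (cneg a) = sz a + 1) ∧
  (∀ φ e, sz (chen φ e) = φ + sz e + 1) ∧ (∀ a e, sz (ccons a e) = sz a + sz e + 1) ∧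
  (∀ i, sz (cpar i) = cpar i + 1) ∧ sz 0 = 1 ∧ sz co = 2 ∧ (∀ n, sz (num n) = 3 * n + 1) ∧
  (∀ k s, lvb k (clab s) = true ↔ 2 ^ k ≤ s ∧ s < 2 ^ (k + 1)) ∧
  (∀ k a b, lvb k (cadd a b) = (lvb k a && lvb k b)) ∧
  (∀ k a b, lvb k (cmul a b) = (lvb k a && lvb k b)) ∧ (∀ k a, lvb k (cneg a) = lvb k a) ∧
  (∀ k φ e, lvb k (chen φ e) = lvb k e) ∧ (∀ k a e, lvb k (ccons a e) = (lvb k a && lvb k e)) ∧
  (∀ k i, lvb k (cpar i) = true) ∧ (∀ k, lvb k 0 = true) ∧ (∀ k, lvb k co = true) ∧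
  (∀ k n, lvb k (num n) = true) ∧
  (∀ r s, ext r (clab s) = clab (chd r s)) ∧
  (∀ r a b, ext r (cadd a b) = cadd (ext r a) (ext r b)) ∧
  (∀ r a b, ext r (cmul a b) = cmul (ext r a) (ext r b)) ∧
  (∀ r a, ext r (cneg a) = cneg (ext r a)) ∧ (∀ r φ e, ext r (chen φ e) = chen φ (ext r e)) ∧
  (∀ r a e, ext r (ccons a e) = ccons (ext r a) (ext r e)) ∧ (∀ r i, ext r (cpar i) = cpar i) ∧
  (∀ r, ext r 0 = 0) ∧ (∀ r, ext r co = co) ∧ ∀ r n, ext r (num n) = num n

/-- EGT: ext, lvb and get. ext r (get e i) = get (ext r e) i: first hd, tl commute with ext r (tag 7 is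
preserved by ext, other tags give 0, ext r 0 = 0). lvb k e → lvb k (get e i). -/
def S_EGT : Prop := (∀ r e i, get (ext r e) i = ext r (get e i)) ∧
  ∀ k e i, lvb k e = true → lvb k (get e i) = true

/-- VEX (uses EGT, EXQ, EVQ): strong induction on the code for ev: ev J I (ext r a) =
ev J (fun s => I (chd r s)) a (cases on a % 9, unfold both), with get (ext r e) i = ext r (get e i),
get e i ≤ e. -/
def S_VEX : Prop := ∀ (J I : ℕ → ℤ) (r φ e : ℕ),
  VI J I φ (ext r e) ↔ VI J (fun s => I (chd r s)) φ e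

/-- DEP (uses EGT): ev depends only on the labels which occur (strong induction). -/
def S_DEP : Prop := ∀ (J I I' : ℕ → ℤ) (k φ e : ℕ), lvb k e = true →
  (∀ s, 2 ^ k ≤ s → s < 2 ^ (k + 1) → I s = I' s) → (VI J I φ e ↔ VI J I' φ e)

/-- BDB: strong induction on e; `Nat.pair_lt_max_add_one_sq`; Bd m is monotone in k and ≥ k. -/
def S_BDB : Prop := ∀ m k e : ℕ, lvb m e = true → sz e ≤ k → e ≤ Bd m k

/-- BFS (uses SEQ): unfold Bf, four existential quantifiers. -/
def S_BFS : Prop := ∀ (R : Type) [CommRing R] [LinearOrder R] (ρ : ℕ → R), ρ 3 = 1 →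
  (Sat R Bf ρ ↔ (1 + (ρ 1 + 1) * ρ 2) ∣ ρ 0)

/-- VAX (uses GET, SEQ, LWS, EVQ): a valuation read off the integers satisfies the axioms. E a b says
ev a = ev b, L a b says ev a < ev b; ex', wit: environment of ccons a e is cns (ev a) (environment
of e) (funext, cases), LWS for P = fun a => Sat ℤ φ (cns a ..). -/
def S_VAX : Prop := ∀ (J I : ℕ → ℤ) (v : ℕ → Bool),
  (∀ φ e, v (Nat.pair φ e) = true ↔ VI J I φ e) →
  (VD v).Ax ∧ (∀ a b, (VD v).L a b ↔ ev J I a < ev J I b) ∧ ∀ a b, (VD v).E a b ↔ ev J I a = ev J I b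

/-! ### combinatorics -/

/-- PRL, product Ramsey for pairs. Induction on the number of factors (via an equivalence
κ ≃ Fin Q, or Finset induction / `Fintype.induction_empty_option`): for Q + 1 factors let
n1 = pr Q r; the last coordinate has more values than there are colourings of (Fin n1)^Q by γ
(r ^ (n1 ^ Q) at most), so two values give the same colouring; apply the induction hypothesis to it
(first Q coordinates < n1 ≤ N). pr is monotone in Q. -/
def S_PRL : Prop := ∀ (κ : Type) [Fintype κ] [DecidableEq κ] (γ : Type) [Fintype γ] (N r : ℕ)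
  (C : (κ → Fin N) → γ), Fintype.card γ ≤ r → 1 ≤ r → pr (Fintype.card κ) r ≤ N →
  ∃ a : κ → Bool → Fin N, (∀ c, a c false ≠ a c true) ∧
    ∀ f g : κ → Bool, C (fun c => a c (f c)) = C (fun c => a c (g c))

/-- growth condition for HOG -/
def Gr : ℕ → ℕ → (ℕ → ℕ) → (ℕ → ℕ) → Prop
  | 0, _, _, _ => True
  | l + 1, k, M, t => pr k (2 ^ t 0) ≤ M 0 ∧ Gr l (k * M 0) (fun n => M (n + 1))
      (fun n => if n = 0 then t 1 * M 0 ^ (2 * k) + t 0 * M 0 ^ k else t (n + 1) * M 0 ^ (2 * k))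

/-- initial segment of a real, as a list -/
def pre (x : ℕ → Bool) (n : ℕ) : List Bool := (List.range n).map x
/-- the path chosen by `a` along `x` -/
def pth (a : List Bool → Bool → ℕ) (x : ℕ → Bool) (m : ℕ) : ℕ := a (pre x m) (x m)

/-- HOG (uses PRL), the homogeneity lemma, general form. Induction on l. Let M0 = M 0,
κ' = κ × Fin M0, leaf' (c, i) p = leaf c (i, p 0, p 1, ..), T' 0 = T 1 × (κ × Bool → Fin M0) ⊕
T 0 × (κ → Fin M0), T' (n + 1) = T (n + 2) × (κ × Bool → Fin M0); tests: for (τ, f) at relative level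
n: test (n + 1) τ of the assignment (c, b :: u) ↦ F (c, f (c, b)) u; for (τ, g) at level 0: test 0 τ of
(c, []) ↦ F (c, g c) []. The induction hypothesis gives a'. Colour g : κ → Fin M0 by the truth values
of all tests (τ, g) (with the reals constantly false); PRL (2 ^ card T 0 colours) gives a pair
A c false ≠ A c true for every c. Put a c [] b = A c b, a c (b :: u) = a' (c, A c b) u. Tests of level
0: the value is that of (τ, g), g c = A c (X c 0), by the induction hypothesis the value for the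
reals constantly false, and this does not depend on g in the box. Tests of level n + 1: f = A, for
(c, i) use the tail of X c (b :: u) where A c b = i. -/
def S_HOG : Prop := ∀ (l : ℕ) (κ : Type) [Fintype κ] [DecidableEq κ] (M t : ℕ → ℕ) (T : ℕ → Type)
  [∀ n, Fintype (T n)] (α : Type) (leaf : κ → (ℕ → ℕ) → α)
  (test : (n : ℕ) → T n → (κ → List Bool → α) → Prop),
  (∀ n, Fintype.card (T n) ≤ t n) → Gr l (Fintype.card κ) M t →
  (∀ c p p', (∀ i < l, p i = p' i) → leaf c p = leaf c p') →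
  (∀ n τ F F', (∀ c u, u.length = n → F c u = F' c u) → (test n τ F ↔ test n τ F')) →
  ∃ a : κ → List Bool → Bool → ℕ,
    (∀ c u, u.length < l → a c u false ≠ a c u true ∧ ∀ b, a c u b < M u.length) ∧
    ∀ n < l, ∀ τ : T n, ∀ X Y : κ → List Bool → (ℕ → Bool),
      (∀ c u, u.length = n → pre (X c u) n = u) → (∀ c u, u.length = n → pre (Y c u) n = u) →
      (test n τ (fun c u => leaf c (pth (a c) (X c u))) ↔
        test n τ (fun c u => leaf c (pth (a c) (Y c u))))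

/-- GRW: the growth condition holds for MM and tt. By induction on l for all m: with (K, P, A) = stt m,
Gr l K (fun n => MM (m + n)) (fun n => if n = 0 then tt m * P + A else tt (m + n) * P)
(unfold stt (m + 1), MM m); then m = 0. Congruence: Gr depends only on the values. -/
def S_GRW : Prop := ∀ l : ℕ, Gr l 1 MM tt

/-- HOM (uses HOG, GRW): the homogeneity lemma for heap indices. κ = Unit, T n = Fin (tt n); list u
of length n ↔ heap index 2^n + binary value; `idx x n` is the heap index of `pre x n`. -/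
def S_HOM : Prop := ∀ (l : ℕ) (α : Type) (leaf : (ℕ → ℕ) → α)
  (test : (n : ℕ) → ℕ → (ℕ → α) → Prop),
  (∀ p p', (∀ i < l, p i = p' i) → leaf p = leaf p') →
  (∀ n j F F', (∀ s, 2 ^ n ≤ s → s < 2 ^ (n + 1) → F s = F' s) → (test n j F ↔ test n j F')) →
  ∃ a : ℕ → Bool → ℕ,
    (∀ m < l, ∀ s, 2 ^ m ≤ s → s < 2 ^ (m + 1) → a s false ≠ a s true ∧ ∀ b, a s b < MM m) ∧
    ∀ n < l, ∀ j < tt n, ∀ X Y : ℕ → (ℕ → Bool),
      (∀ s, 2 ^ n ≤ s → s < 2 ^ (n + 1) → idx (X s) n = s) →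
      (∀ s, 2 ^ n ≤ s → s < 2 ^ (n + 1) → idx (Y s) n = s) →
      (test n j (fun s => leaf (fun m => a (idx (X s) m) (X s m))) ↔
        test n j (fun s => leaf (fun m => a (idx (Y s) m) (Y s m))))

/-- COP: moduli 1 + (j + 1) b, j < N, with b = N !, are pairwise coprime and coprime to b
(Mathlib: Mathlib/Logic/Godel/GodelBetaFunction.lean, Nat.pairwise_coprime_coprimes or directly: a
prime dividing two of them divides (j - i) b, so b or j - i < N, hence b = N !, hence 1). -/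
def S_COP : Prop := ∀ N : ℕ, ∃ b : ℤ, (N : ℤ) ≤ b ∧ 0 < b ∧ ∀ (A : Finset ℕ) (j : ℕ), j < N →
  (∀ i ∈ A, i < N) → ((1 + ((j : ℤ) + 1) * b) ∣ b * ∏ i ∈ A, (1 + ((i : ℤ) + 1) * b) ↔ j ∈ A)

/-- ITP (uses HOM, COP, VEX, DEP, BDB, BFS, EVQ, GET, EXQ): interpretations in the integers. Take
l = max over m < N of LL m, + N + 1, Nb = off (l + 1) + N + 1 + l; b of COP for Nb; J 0 = b,
J 1 = b * ∏ (k < N, k ∈ A) (1 + (k + 1) b). leaf p = b * ∏ over i < l of (1 + (off i + p i + 1) b)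
when all p i < MM i (the numbers off i + p i, i < l, are distinct and < Nb), junk otherwise (say always
the product, the a s b are < MM anyway). Tests: test n j I := lvb n e → VI J I φ e with
φ = j / (Bd n n + 1), e = j % (Bd n n + 1) (DEP for the dependence; if not lvb n e the test is True).
HOM gives a. I s = leaf of the path of the real x_s which starts with the bits of s and continues with
false (idx x_s n = s for s of level n). coh: VEX: VI J I φ (ext r e) = VI J (I ∘ chd r) φ e, and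
I (chd r s) is the leaf of a real through chd r s, so through s: HOM with X s = x_s,
Y s = x_(chd r s); φ ≤ k, e ≤ Bd k k by BDB, so j = φ (Bd + 1) + e < tt k. bit: j = off m + a s false:
for labels below 2 s the path takes a s false at m, so 1 + (j + 1) b divides; below 2 s + 1 it takes
a s true ≠ a s false and off m + a s false is not among the off i + p i (blocks are disjoint), so
it does not divide (COP, BFS). big: b ≤ leaf (each modulus ≥ 1). par: COP, BFS. -/
def S_ITP : Prop := ∀ (A : Set ℕ) (N : ℕ), ∃ J I : ℕ → ℤ,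
  (∀ k < N, ∀ φ e r, lvb k e = true → φ + sz e ≤ k → (VI J I φ e ↔ VI J I φ (ext r e))) ∧
  (∀ m < N, ∀ s, 2 ^ m ≤ s → s < 2 ^ (m + 1) → ∃ j < off (m + 1), ∀ i < DD m, ∀ i' < DD m,
    (VI J I Bf (benv (clab (2 * s * DD m + i)) (num j)) ↔
      ¬ VI J I Bf (benv (clab ((2 * s + 1) * DD m + i')) (num j)))) ∧
  (∀ m < N, ∀ s k, 2 ^ m ≤ s → s < 2 ^ (m + 1) → k ≤ m → (k : ℤ) < I s) ∧
  ∀ k < N, (VI J I Bf (benv (cpar 1) (num k)) ↔ k ∈ A)

/-! ### computability -/

/-- uniformly primitive recursive in v, with bounded use -/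
def UC (g : (ℕ → Bool) → ℕ → Bool) : Prop := ∃ (b : ℕ → ℕ) (Q : ℕ → List Bool → Bool),
  Primrec b ∧ Primrec₂ Q ∧ ∀ v n, g v n = Q n ((List.range (b n)).map v)

/-- UCC: queries, constants, Boolean combinations, reindexing. Enlarge the bound: a Q for the bound b
works for b' ≥ b with Q n (l.take (b n)). -/
def S_UCC : Prop := (∀ p : ℕ → ℕ, Primrec p → UC (fun v n => v (p n))) ∧
  (∀ h : ℕ → Bool, Primrec h → UC (fun _ n => h n)) ∧
  (∀ g, UC g → UC (fun v n => !(g v n))) ∧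
  (∀ g g', UC g → UC g' → UC (fun v n => g v n && g' v n)) ∧
  (∀ g g', UC g → UC g' → UC (fun v n => g v n || g' v n)) ∧
  (∀ g g', UC g → UC g' → UC (fun v n => g v n == g' v n)) ∧
  ∀ g (h : ℕ → ℕ), UC g → Primrec h → UC (fun v n => g v (h n))

/-- UCA: bounded quantifiers. Bound: the maximum (or sum) of b (pair k n) over k < h n (foldl). -/
def S_UCA : Prop := (∀ g (h : ℕ → ℕ), UC g → Primrec h →
    UC (fun v n => decide (∀ k < h n, g v (Nat.pair k n) = true))) ∧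
  ∀ g (h : ℕ → ℕ), UC g → Primrec h → UC (fun v n => decide (∃ k < h n, g v (Nat.pair k n) = true))

/-- PGT: iteration of a primitive recursive function (`Primrec.nat_rec`, `Function.iterate` as rec). -/
def S_PGT : Prop := Primrec₂ get ∧ Primrec num

/-- PSZ: `Primrec.nat_strong_rec` -/
def S_PSZ : Prop := Primrec sz
/-- PLV: `Primrec.nat_strong_rec` -/
def S_PLV : Prop := Primrec₂ lvb
/-- PEX: `Primrec.nat_strong_rec`; testBit r s = (r / 2 ^ s) % 2 == 1 -/
def S_PEX : Prop := Primrec₂ ext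

/-- PGR: growth functions: pr and Bd are given by Nat.rec with powers (`Nat.Primrec.pow`), stt, off too. -/
def S_PGR : Prop := Primrec off ∧ Primrec LL ∧ Primrec DD

/-- UA1 (uses UCC, PGT): parameters from n by unpair -/
def S_UA1 : Prop := ∃ g, UC g ∧ ∀ v, (∀ n, g v n = true) ↔ (VD v).Ax1
/-- UA2 (uses UCC) -/
def S_UA2 : Prop := ∃ g, UC g ∧ ∀ v, (∀ n, g v n = true) ↔ (VD v).Ax2
/-- UA3 (uses UCC) -/
def S_UA3 : Prop := ∃ g, UC g ∧ ∀ v, (∀ n, g v n = true) ↔ (VD v).Ax3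
/-- UCO (uses UCC, PSZ, PLV, PEX): n = pair k (pair φ (pair e r)), k ≤ n -/
def S_UCO : Prop := ∃ g, UC g ∧ (∀ v, (∀ n, g v n = true) → ∀ N, CohN v N) ∧
  ∀ v N, CohN v N → ∀ n < N, g v n = true
/-- UBI (uses UCC, UCA, PGR, PGT): n = pair m s, if the level of s is not m the clause is true -/
def S_UBI : Prop := ∃ g, UC g ∧ (∀ v, (∀ n, g v n = true) → ∀ N, BitN v N) ∧
  ∀ v N, BitN v N → ∀ n < N, g v n = true
/-- UBG (uses UCC, PGT): n = pair m (pair s k) -/
def S_UBG : Prop := ∃ g, UC g ∧ (∀ v, (∀ n, g v n = true) → ∀ N, BigN v N) ∧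
  ∀ v N, BigN v N → ∀ n < N, g v n = true

/-- Turing reducibility of sets -/
def le (Y X : Set ℕ) : Prop :=
  TuringReducible (fun n => Part.some (Y.indicator (fun _ => (1 : ℕ)) n))
    (fun n => Part.some (X.indicator (fun _ => (1 : ℕ)) n))
/-- join -/
def J (X Y : Set ℕ) : Set ℕ := {m : ℕ | (Even m ∧ m / 2 ∈ X) ∨ (Odd m ∧ m / 2 ∈ Y)}

/-- Scott sets (the hypotheses of the frozen statement) -/
structure Sc (S : Set (Set ℕ)) : Prop where
  ne : S.Nonempty
  tr : ∀ X ∈ S, ∀ Y, le Y X → Y ∈ S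
  join : ∀ X ∈ S, ∀ Y ∈ S, J X Y ∈ S
  wkl : ∀ T ∈ S,
      (∀ l l' : List Bool, List.IsPrefix l' l → Encodable.encode l ∈ T →
        Encodable.encode l' ∈ T) →
      {l : List Bool | Encodable.encode l ∈ T}.Infinite →
      ∃ f : ℕ → Bool,
        (∀ n : ℕ, Encodable.encode (List.ofFn (fun i : Fin n => f i)) ∈ T) ∧
        {n : ℕ | f n = true} ∈ S

/-- WKL: compactness in S. Tree: the lists l such that for all n < l.length with b n ≤ l.length
Q n (l.take (b n)) = true, and for k < l.length with p k < l.length: l[p k] = true iff k ∈ A (this is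
computable from A; use le / TR calculus of Pool.Agent.Work.MP_e5ffe1_lc_helper93: TR, orc, le_iff,
TR_of_computable, see also MP_e5ffe1_oj/Comput.lean). Infinite: initial segments of the v for N. -/
def S_WKL : Prop := ∀ (S : Set (Set ℕ)), Sc S → ∀ g, UC g → ∀ p : ℕ → ℕ, Primrec p → ∀ A ∈ S,
  (∀ N, ∃ v : ℕ → Bool, (∀ n < N, g v n = true) ∧ ∀ k < N, (v (p k) = true ↔ k ∈ A)) →
  ∃ v : ℕ → Bool, {n : ℕ | v n = true} ∈ S ∧ (∀ n, g v n = true) ∧ ∀ k, (v (p k) = true ↔ k ∈ A)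

/-- VAL (uses ITP, VAX, EVQ, UCC, PGT, UA1, UA2, UA3, UCO, UBI, UBG, WKL). g = conjunction of the six
g; for N take J, I of ITP and v (pair φ e) = decide (VI J I φ e). -/
def S_VAL : Prop := ∀ (S : Set (Set ℕ)), Sc S → ∀ A ∈ S, ∃ v : ℕ → Bool,
  {n : ℕ | v n = true} ∈ S ∧ Good v ∧ ∀ k, (v (posA k) = true ↔ k ∈ A)

end Pool.E5
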