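import Pool.Agent.Work.MP_e5ffe1_all.Interface1

/-!
# Theorem E, blocks part 2: the model of terms, traces, the ring.  helper20
-/

set_option autoImplicit false

namespace Pool.E5

open Filter

/-! ### limits -/

/-- a set of sequences closed under the operations -/
structure Cls {T : Type} (D : Dt T) (U : Set (ℕ → T)) : Prop where
  zero : (fun _ => D.zero) ∈ U
  one : (fun _ => D.one) ∈ U
  add : ∀ u ∈ U, ∀ w ∈ U, (fun n => D.add (u n) (w n)) ∈ U
  mul : ∀ u ∈ U, ∀ w ∈ U, (fun n => D.mul (u n) (w n)) ∈ U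
  neg : ∀ u ∈ U, (fun n => D.neg (u n)) ∈ U
  hen : ∀ φ, ∀ u ∈ U, (fun n => D.hen φ (u n)) ∈ U
  cons : ∀ u ∈ U, ∀ w ∈ U, (fun n => D.cons (u n) (w n)) ∈ U
  get : ∀ u ∈ U, ∀ i, (fun n => D.get (u n) i) ∈ U

/-- the structure of sequences -/
def limD {T : Type} (D : Dt T) (U : Set (ℕ → T)) (h : Cls D U) : Dt U where
  zero := ⟨_, h.zero⟩
  one := ⟨_, h.one⟩
  add := fun u w => ⟨_, h.add u.1 u.2 w.1 w.2⟩
  mul := fun u w => ⟨_, h.mul u.1 u.2 w.1 w.2⟩
  neg := fun u => ⟨_, h.neg u.1 u.2⟩
  hen := fun φ u => ⟨_, h.hen φ u.1 u.2⟩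
  cons := fun u w => ⟨_, h.cons u.1 u.2 w.1 w.2⟩
  get := fun u i => ⟨_, h.get u.1 u.2 i⟩
  V := fun φ u => ∀ᶠ n in atTop, D.V φ (u.1 n)

/-- LIM. Every axiom holds for each n; the truth value of D.V φ (u n) is eventually constant, so
`∀ᶠ` commutes with negation and disjunction (prove this first as a lemma). -/
def S_LIM : Prop := ∀ (T : Type) (D : Dt T) (U : Set (ℕ → T)) (h : Cls D U), D.Ax →
  (∀ φ, ∀ u ∈ U, ∃ N, ∀ n ≥ N, (D.V φ (u n) ↔ D.V φ (u (n + 1)))) → (limD D U h).Ax

/-- sequences of terms along branches in X -/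
inductive UU (X : Set (ℕ → Bool)) : (ℕ → ℕ) → Prop
  | zero : UU X (fun _ => 0)
  | one : UU X (fun _ => co)
  | par (i : ℕ) : UU X (fun _ => cpar i)
  | lab (x : ℕ → Bool) (hx : x ∈ X) : UU X (fun n => clab (idx x n))
  | add (u w : ℕ → ℕ) : UU X u → UU X w → UU X (fun n => cadd (u n) (w n))
  | mul (u w : ℕ → ℕ) : UU X u → UU X w → UU X (fun n => cmul (u n) (w n))
  | neg (u : ℕ → ℕ) : UU X u → UU X (fun n => cneg (u n))
  | hen (φ : ℕ) (u : ℕ → ℕ) : UU X u → UU X (fun n => chen φ (u n))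
  | cons (u w : ℕ → ℕ) : UU X u → UU X w → UU X (fun n => ccons (u n) (w n))

/-- UCL (uses GET): closure; for get: induction on UU (get of a code with tag other than 7 is 0:
prove hd, tl of such codes are 0, get 0 i = 0), for cons cases on i. -/
def S_UCL : Prop := ∀ (X : Set (ℕ → Bool)) (v : ℕ → Bool), Cls (VD v) {u | UU X u}

/-- STB (uses EXQ). Induction on UU. 2^n ≤ idx x n < 2^(n+1). -/
def S_STB : Prop := ∀ (X : Set (ℕ → Bool)) (u : ℕ → ℕ), UU X u →
  (∀ n, lvb n (u n) = true) ∧ (∃ k, ∀ n, sz (u n) = k) ∧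
    ∃ F : Set (ℕ → Bool), F.Finite ∧ ∀ n r, (∀ x ∈ F, Nat.testBit r (idx x n) = x n) →
      u (n + 1) = ext r (u n)

/-- STV (uses STB, EXQ): stability. For n beyond the levels at which the members of F are separated
(if idx x n = idx y n for all n then x = y) choose r with testBit r (idx x n) = x n for all x in F
(r = sum of 2^(idx x n) over the x in F with x n = true); then coh, with
sz (ccons (num j) (u n)) = 3 j + 2 + k. -/
def S_STV : Prop := ∀ (v : ℕ → Bool), (∀ N, CohN v N) → ∀ (X : Set (ℕ → Bool)) (u : ℕ → ℕ), UU X u →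
  ∃ n1, ∀ φ j n, n1 + φ + 3 * j ≤ n →
    v (Nat.pair φ (ccons (num j) (u n))) = v (Nat.pair φ (ccons (num j) (u (n + 1)))) ∧
      v (Nat.pair φ (u n)) = v (Nat.pair φ (u (n + 1)))

/-- the reals of S -/
def XS (S : Set (Set ℕ)) : Set (ℕ → Bool) := {x | {n : ℕ | x n = true} ∈ S}

/-- TRC (uses STV, PGT): traces are in S. By STV j is in the set iff
v (pair φ (ccons (num j) (u (n1 + φ + 3 j)))) = true. By induction on UU, u is computable in some Z in S
(idx x is computable in x). Calculus: Pool.Agent.Work.MP_e5ffe1_lc_helper93 (TR, orc, le_iff, J,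
TR_of_computable, orc_self ...), examples in MP_e5ffe1_oj/Comput.lean. -/
def S_TRC : Prop := ∀ (S : Set (Set ℕ)), Sc S → ∀ v : ℕ → Bool, {n : ℕ | v n = true} ∈ S →
  (∀ N, CohN v N) → ∀ u, UU (XS S) u → ∀ φ,
    {j : ℕ | ∀ᶠ n in atTop, v (Nat.pair φ (ccons (num j) (u n))) = true} ∈ S

/-- UCT: what is uniformly computable in v is Turing reducible to v. -/
def S_UCT : Prop := ∀ g, UC g → ∀ v : ℕ → Bool, le {n : ℕ | g v n = true} {n : ℕ | v n = true}

/-- the trace of the divisors of the element of the branch x -/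
def trx (v x : ℕ → Bool) : Set ℕ :=
  {j : ℕ | ∀ᶠ n in atTop, v (Nat.pair Bf (benv (clab (idx x n)) (num j))) = true}

/-- DC0 (uses EXQ): the value is decided at level Bf + 3 j + 18 (coh for the single label, with r = 0
or r = 2 ^ idx x n; sz (benv (clab s) (num j)) = 3 j + 18). -/
def S_DC0 : Prop := ∀ (v : ℕ → Bool), (∀ N, CohN v N) → ∀ (x : ℕ → Bool) (j n : ℕ),
  Bf + 3 * j + 18 ≤ n → (j ∈ trx v x ↔ v (Nat.pair Bf (benv (clab (idx x n)) (num j))) = true)

/-- DC2 (uses DC0, PGT): the trace is computable from x and v: n = Bf + 3 j + 18. -/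
def S_DC2 : Prop := ∀ (v : ℕ → Bool), (∀ N, CohN v N) → ∀ (x : ℕ → Bool),
  le (trx v x) (J {n : ℕ | x n = true} {n : ℕ | v n = true})

/-- DC1 (uses DC0, UCT, UCC, UCA, PGR, PGT): x is computable from its trace and v. Let
P v (pair j (pair m s)) := for all i, i' < DD m: the values at 2 s DD + i and at (2 s + 1) DD + i' for j
differ: this is UC, so {n | P v n} is Turing below v (UCT). For given m and s = idx x m let j = least j
with P (exists by bit). Since j < off (m + 1), Bf + 3 j + 18 ≤ LL m, DC0 says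
j ∈ trx v x iff v (pair Bf (benv (clab (idx x (LL m))) (num j))), and idx x (LL m) is
2 s DD + i or (2 s + 1) DD + i' according to x m. So x m = false iff
(j ∈ trx v x iff v (pair Bf (benv (clab (2 s DD m)) (num j))) = true). Recursion on m computes idx x m
(mu-search and primitive recursion with oracle; see MP_e5ffe1_oj/Comput.lean for a similar
decoding). -/
def S_DC1 : Prop := ∀ (v : ℕ → Bool), (∀ N, CohN v N) → (∀ N, BitN v N) → ∀ (x : ℕ → Bool),
  le {n : ℕ | x n = true} (J (trx v x) {n : ℕ | v n = true})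

/-! ### the ring -/

/-- RNG: quotient of T by E. Discreteness from discr. Left multiplication etc. by commutativity. -/
def S_RNG : Prop := ∀ (T : Type) (D : Dt T), D.Ax → ∃ (R : Type) (_ : CommRing R)
  (_ : LinearOrder R) (_ : IsStrictOrderedRing R) (q : T → R), D.Rz R q ∧ ∀ x : R, 0 < x → 1 ≤ x

/-- TRU (uses SEQ, FND): truth lemma, induction on formula codes (for all e). ex: if
Sat R φ (cns a ρ) take t with q t = a, V φ (cons t e) by the induction hypothesis, wit. -/
def S_TRU : Prop := ∀ (T : Type) (D : Dt T), D.Ax → ∀ (R : Type) [CommRing R] [LinearOrder R]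
  (q : T → R), D.Rz R q → ∀ φ e, D.V φ e ↔ Sat R φ (fun i => q (D.get e i))

/-- ENV: build the environment by cons, induction on m. -/
def S_ENV : Prop := ∀ (T : Type) (D : Dt T), D.Ax → ∀ (R : Type) [CommRing R] [LinearOrder R]
  (q : T → R), D.Rz R q → ∀ ρ : ℕ → R, (∃ m, ∀ i ≥ m, ρ i = 0) → ∃ e : T, ∀ i, q (D.get e i) = ρ i

/-- IND (uses TRU, ENV, SEQ): definable induction. Suppose it fails at x: for
ψ = fand (fneg φ) (fneg (flt 0 (m + 1))), ρ m = 0 (m beyond the support), Sat ψ (cns y ρ) says y ≥ 0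
and not φ. By ENV there is e with environment ρ; TRU and wit give h with Sat ψ (cns h ρ) and no y
with Sat ψ (cns y ρ) and y * y < h * h. h ≠ 0, so h ≥ 1 and y = h - 1 ≥ 0 has y * y < h * h, so φ holds at
h - 1, so at h, contradiction. -/
def S_IND : Prop := ∀ (T : Type) (D : Dt T), D.Ax → ∀ (R : Type) [CommRing R] [LinearOrder R]
  [IsStrictOrderedRing R] (q : T → R), D.Rz R q → (∀ x : R, 0 < x → 1 ≤ x) →
  ∀ (φ : ℕ) (ρ : ℕ → R), (∃ m, ∀ i ≥ m, ρ i = 0) → Sat R φ (cns 0 ρ) →
    (∀ x, 0 ≤ x → Sat R φ (cns x ρ) → Sat R φ (cns (x + 1) ρ)) → ∀ x, 0 ≤ x → Sat R φ (cns x ρ)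

/-- the language of ordered rings -/
abbrev LR := FirstOrder.Language.sum FirstOrder.Language.ring FirstOrder.Language.order

/-- DFA (uses SEQ): a definable subset is given by a formula code. By induction on Mathlib's
BoundedFormula; for a term t: there is a code φ with Sat φ (cns a ρ) iff a = value of t (existential
quantifiers for the subterms). Work with bounded formulas over LR with the parameters as free
variables (`Set.Definable` with parameters: LR[[univ]] formula; only finitely many constants occur: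
either replace constants by variables, or prove for every LR[[univ]] bounded formula ψ with m bound
variables: there are φ and a finitely supported ρ with, for all assignments: ψ.Realize iff
Sat φ (x 0, .., x (m - 1), ρ 0, ρ 1, ..), by induction, merging the two ρ's (renaming of variables in
codes is needed) or, simpler, first choose the list of all constants of ψ). -/
def S_DFA : Prop := ∀ (R : Type) [CommRing R] [LinearOrder R] [IsStrictOrderedRing R]
  [FirstOrder.Ring.CompatibleRing R] [FirstOrder.Language.order.Structure R]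
  [FirstOrder.Language.OrderedStructure FirstOrder.Language.order R] (Ds : Set (Fin 1 → R)),
  (Set.univ : Set R).Definable LR Ds → ∃ (φ : ℕ) (ρ : ℕ → R), (∃ m, ∀ i ≥ m, ρ i = 0) ∧
    ∀ x : R, (fun _ : Fin 1 => x) ∈ Ds ↔ Sat R φ (cns x ρ)

/-- DFB: the set of the y with (1 + (y + 1) b) ∣ c is definable with parameters. -/
def S_DFB : Prop := ∀ (R : Type) [CommRing R] [LinearOrder R] [IsStrictOrderedRing R]
  [FirstOrder.Ring.CompatibleRing R] [FirstOrder.Language.order.Structure R]
  [FirstOrder.Language.OrderedStructure FirstOrder.Language.order R] (b c : R),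
  (Set.univ : Set R).Definable LR {y : Fin 1 → R | (1 + (y 0 + 1) * b) ∣ c}

/-- INS: structures for the language of ordered rings exist on every ordered ring. -/
def S_INS : Prop := ∀ (R : Type) [CommRing R] [LinearOrder R] [IsStrictOrderedRing R],
  ∃ (_ : FirstOrder.Ring.CompatibleRing R) (_ : FirstOrder.Language.order.Structure R),
    FirstOrder.Language.OrderedStructure FirstOrder.Language.order R

/-- Theorem E -/
def Target : Prop := ∀ (S : Set (Set ℕ)), Sc S → ∀ A ∈ S,
  ∃ (R : Type) (_ : CommRing R) (_ : LinearOrder R) (_ : IsStrictOrderedRing R)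
    (_ : FirstOrder.Ring.CompatibleRing R)
    (_ : FirstOrder.Language.order.Structure R)
    (_ : FirstOrder.Language.OrderedStructure FirstOrder.Language.order R),
    (∀ x : R, 0 < x → 1 ≤ x) ∧
    (∀ D : Set (Fin 1 → R), (Set.univ : Set R).Definable LR D →
      (fun _ : Fin 1 => (0 : R)) ∈ D →
      (∀ x : R, 0 ≤ x → (fun _ : Fin 1 => x) ∈ D → (fun _ : Fin 1 => x + 1) ∈ D) →
      ∀ x : R, 0 ≤ x → (fun _ : Fin 1 => x) ∈ D) ∧
    (∃ c : R, ∀ n : ℕ, (n : R) < c) ∧
    (∃ D : Set (Fin 1 → R), (Set.univ : Set R).Definable LR D ∧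
      ∀ n : ℕ, n ∈ A ↔ (fun _ : Fin 1 => (n : R)) ∈ D) ∧
    (∀ D : Set (Fin 1 → R), (Set.univ : Set R).Definable LR D →
      {n : ℕ | (fun _ : Fin 1 => (n : R)) ∈ D} ∈ S) ∧
    ∃ C ∈ S, ∀ Y ∈ S, ∃ D : Set (Fin 1 → R), (Set.univ : Set R).Definable LR D ∧
      le Y (J {n : ℕ | (fun _ : Fin 1 => (n : R)) ∈ D} C) ∧
      le {n : ℕ | (fun _ : Fin 1 => (n : R)) ∈ D} (J Y C)

end Pool.E5
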